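import Pool.Agent.H91.CL.Df

/-!
MP_f2ed2a_nt: at most `O((log P)/ε)` cycles of length at most `P` have `|log (|M|/d^p)| ≥ ε`.
-/

namespace Pool.Agent.H91.CL

open Finset

variable {d : ℕ} {m r : ℕ → ℤ}

theorem sum_inv_abs_le (B : ℕ) :
    ∑ y ∈ Finset.Icc (-(B : ℤ)) B, 1 / |(y : ℝ)| ≤ 2 * (1 + Real.log B) := by
  classical
  set S1 : Finset ℤ := (range (B + 1)).image (fun k : ℕ => (k : ℤ))
  set S2 : Finset ℤ := (range (B + 1)).image (fun k : ℕ => -(k : ℤ))
  have hsub : Finset.Icc (-(B : ℤ)) B ⊆ S1 ∪ S2 := by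
    intro y hy
    rw [Finset.mem_Icc] at hy
    rw [mem_union, mem_image, mem_image]
    rcases le_total 0 y with h | h
    · left; exact ⟨y.toNat, by rw [mem_range]; omega, by omega⟩
    · right; exact ⟨(-y).toNat, by rw [mem_range]; omega, by omega⟩
  have hf : ∀ y : ℤ, (0 : ℝ) ≤ 1 / |(y : ℝ)| := fun y => by positivity
  have hH : ∑ k ∈ range (B + 1), 1 / |((k : ℕ) : ℝ)| ≤ 1 + Real.log B := by
    have h := harmonic_le_one_add_log B
    have h2 : ∑ k ∈ range (B + 1), 1 / |((k : ℕ) : ℝ)| = (harmonic B : ℝ) := by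
      rw [Finset.sum_range_succ']
      unfold harmonic
      push_cast
      simp only [abs_zero, div_zero, add_zero]
      refine Finset.sum_congr rfl fun i _ => ?_
      rw [abs_of_pos (by positivity), one_div]
    rw [h2]; exact h
  calc ∑ y ∈ Finset.Icc (-(B : ℤ)) B, 1 / |(y : ℝ)|
      ≤ ∑ y ∈ S1 ∪ S2, 1 / |(y : ℝ)| :=
        Finset.sum_le_sum_of_subset_of_nonneg hsub fun y _ _ => hf y
    _ ≤ ∑ y ∈ S1, 1 / |(y : ℝ)| + ∑ y ∈ S2, 1 / |(y : ℝ)| := by
        rw [← Finset.sum_union_inter]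
        have : 0 ≤ ∑ y ∈ S1 ∩ S2, 1 / |(y : ℝ)| := Finset.sum_nonneg fun y _ => hf y
        linarith
    _ = ∑ k ∈ range (B + 1), 1 / |((k : ℕ) : ℝ)| + ∑ k ∈ range (B + 1), 1 / |((k : ℕ) : ℝ)| := by
        rw [Finset.sum_image (by intro a _ b _ h; exact Nat.cast_injective h),
          Finset.sum_image (by intro a _ b _ h; simpa using h)]
        simp
    _ ≤ 2 * (1 + Real.log B) := by linarith

/-- The counting lemma: a family of pairwise disjoint cycles. -/
theorem count {ι : Type*} [DecidableEq ι] (hT : CoprimeType d m r) {R : ℕ}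
    (hR : ∀ i < d, |(r i : ℝ)| ≤ R) (hR1 : 1 ≤ R) {P : ℕ} {ε : ℝ} (hε : 0 < ε)
    (s : Finset ι) (x : ι → ℤ)
    (hxP : ∀ i ∈ s, Function.minimalPeriod (collatz d m r) (x i) ≤ P)
    (hdisj : ∀ i ∈ s, ∀ j ∈ s, i ≠ j → ∀ a b : ℕ,
      (collatz d m r)^[a] (x i) ≠ (collatz d m r)^[b] (x j))
    (hLam : ∀ i ∈ s, ε ≤ |logMult d m r (x i)|) {B : ℕ} (hB1 : 2 * R ≤ B)
    (hB : 4 * R * P / ε ≤ B) :
    (s.card : ℝ) ≤ 4 * R + 8 * R / ε * (1 + Real.log B) := by
  classical
  set T := collatz d m r with hTdef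
  set p : ι → ℕ := fun i => Function.minimalPeriod T (x i) with hp
  have hR0 : (0 : ℝ) < R := by exact_mod_cast hR1
  have hR1' : (1 : ℝ) ≤ R := by exact_mod_cast hR1
  have hB0 : (0 : ℝ) < B := by
    have : 0 < B := by omega
    exact_mod_cast this
  set s1 := s.filter (fun i => ∃ n < p i, |T^[n] (x i)| < 2 * (R : ℤ)) with hs1
  set s2 := s.filter (fun i => ¬ ∃ n < p i, |T^[n] (x i)| < 2 * (R : ℤ)) with hs2
  have hcard : s.card = s1.card + s2.card := by
    rw [hs1, hs2, Finset.card_filter_add_card_filter_not]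
  -- the few cycles through small integers
  have h1 : s1.card ≤ 4 * R := by
    have hex : ∀ i ∈ s1, ∃ n < p i, |T^[n] (x i)| < 2 * (R : ℤ) := fun i hi => (mem_filter.1 hi).2
    choose! n hn1 hn2 using hex
    have hmaps : ∀ i ∈ s1, T^[n i] (x i) ∈ Finset.Ioo (-(2 * (R : ℤ))) (2 * R) := by
      intro i hi
      have := abs_lt.1 (hn2 i hi)
      exact Finset.mem_Ioo.2 this
    have hinj : Set.InjOn (fun i => T^[n i] (x i)) (s1 : Set ι) := by
      intro i hi j hj hij
      by_contra hne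
      exact hdisj i (mem_filter.1 hi).1 j (mem_filter.1 hj).1 hne (n i) (n j) hij
    have := Finset.card_le_card_of_injOn _ hmaps hinj
    rw [Int.card_Ioo] at this
    omega
  -- the other cycles
  have h2 : (s2.card : ℝ) ≤ 8 * R / ε * (1 + Real.log B) := by
    set F : ι → Finset ℕ := fun i => (range (p i)).filter (fun n => |T^[n] (x i)| ≤ (B : ℤ)) with hF
    have hone : ∀ i ∈ s2, ε / 2 ≤ ∑ n ∈ F i, 2 * (R : ℝ) * (1 / |((T^[n] (x i) : ℤ) : ℝ)|) := by
      intro i hi
      obtain ⟨hi1, hi2⟩ := mem_filter.1 hi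
      push Not at hi2
      have hlarge : ∀ n < Function.minimalPeriod T (x i), 2 * (R : ℝ) ≤ |((T^[n] (x i) : ℤ) : ℝ)| := by
        intro n hn
        have := hi2 n hn
        exact_mod_cast this
      have hb := cycle_bound hT hR hR1' hlarge
      have hL := hLam i hi1
      have hsplit : ∑ n ∈ range (p i), 2 * (R : ℝ) / |((T^[n] (x i) : ℤ) : ℝ)| =
          ∑ n ∈ F i, 2 * (R : ℝ) / |((T^[n] (x i) : ℤ) : ℝ)| +
          ∑ n ∈ (range (p i)).filter (fun n => ¬ |T^[n] (x i)| ≤ (B : ℤ)),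
            2 * (R : ℝ) / |((T^[n] (x i) : ℤ) : ℝ)| := by
        rw [hF, Finset.sum_filter_add_sum_filter_not]
      have hrest : ∑ n ∈ (range (p i)).filter (fun n => ¬ |T^[n] (x i)| ≤ (B : ℤ)),
            2 * (R : ℝ) / |((T^[n] (x i) : ℤ) : ℝ)| ≤ ε / 2 := by
        have h3 : ∀ n ∈ (range (p i)).filter (fun n => ¬ |T^[n] (x i)| ≤ (B : ℤ)),
            2 * (R : ℝ) / |((T^[n] (x i) : ℤ) : ℝ)| ≤ 2 * R / B := by
          intro n hn
          have h4 := (mem_filter.1 hn).2
          push Not at h4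
          have h5 : (B : ℝ) ≤ |((T^[n] (x i) : ℤ) : ℝ)| := by exact_mod_cast h4.le
          gcongr
        refine (Finset.sum_le_card_nsmul _ _ _ h3).trans ?_
        rw [nsmul_eq_mul]
        have h6 : (((range (p i)).filter (fun n => ¬ |T^[n] (x i)| ≤ (B : ℤ))).card : ℝ) ≤ P := by
          have h7 := Finset.card_filter_le (range (p i)) (fun n => ¬ |T^[n] (x i)| ≤ (B : ℤ))
          rw [card_range] at h7
          have h8 := hxP i hi1
          exact_mod_cast h7.trans h8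
        calc (((range (p i)).filter (fun n => ¬ |T^[n] (x i)| ≤ (B : ℤ))).card : ℝ) * (2 * R / B)
            ≤ P * (2 * R / B) := by gcongr
          _ ≤ ε / 2 := by
            rw [div_le_iff₀ hε] at hB
            rw [mul_div_assoc', div_le_div_iff₀ hB0 (by norm_num)]
            linarith
      have h9 : ε ≤ ∑ n ∈ range (p i), 2 * (R : ℝ) / |((T^[n] (x i) : ℤ) : ℝ)| := hL.trans hb
      rw [hsplit] at h9
      have h10 : ∑ n ∈ F i, 2 * (R : ℝ) / |((T^[n] (x i) : ℤ) : ℝ)| =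
          ∑ n ∈ F i, 2 * (R : ℝ) * (1 / |((T^[n] (x i) : ℤ) : ℝ)|) :=
        Finset.sum_congr rfl fun n _ => by ring
      rw [← h10]
      linarith
    have hsum : (s2.card : ℝ) * (ε / 2) ≤
        ∑ i ∈ s2, ∑ n ∈ F i, 2 * (R : ℝ) * (1 / |((T^[n] (x i) : ℤ) : ℝ)|) := by
      rw [← nsmul_eq_mul]
      exact Finset.card_nsmul_le_sum _ _ _ hone
    have hsig : ∑ i ∈ s2, ∑ n ∈ F i, 2 * (R : ℝ) * (1 / |((T^[n] (x i) : ℤ) : ℝ)|) ≤
        2 * R * (2 * (1 + Real.log B)) := by
      rw [Finset.sum_sigma' s2 F (fun i n => 2 * (R : ℝ) * (1 / |((T^[n] (x i) : ℤ) : ℝ)|)),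
        ← Finset.mul_sum]
      refine mul_le_mul_of_nonneg_left ?_ (by positivity)
      have hinj : Set.InjOn (fun a : (Σ _ : ι, ℕ) => T^[a.2] (x a.1)) (s2.sigma F : Set (Σ _ : ι, ℕ)) := by
        rintro ⟨i, n⟩ hin ⟨j, k⟩ hjk hij
        simp only [Finset.coe_sigma, Set.mem_sigma_iff, Finset.mem_coe] at hin hjk
        simp only at hij
        have hne : i = j := by
          by_contra hne
          exact hdisj i (mem_filter.1 hin.1).1 j (mem_filter.1 hjk.1).1 hne n k hij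
        subst hne
        have hn1 := mem_range.1 (mem_filter.1 hin.2).1
        have hk1 := mem_range.1 (mem_filter.1 hjk.2).1
        have : n = k := (Function.iterate_injOn_Iio_minimalPeriod (f := T) (x := x i)) hn1 hk1 hij
        subst this
        rfl
      rw [← Finset.sum_image (f := fun y : ℤ => 1 / |(y : ℝ)|) (g := fun a : (Σ _ : ι, ℕ) => T^[a.2] (x a.1)) hinj]
      refine le_trans (Finset.sum_le_sum_of_subset_of_nonneg ?_ fun y _ _ => by positivity) (sum_inv_abs_le B)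
      intro y hy
      rw [mem_image] at hy
      obtain ⟨a, ha, rfl⟩ := hy
      have h11 := (mem_filter.1 (mem_sigma.1 ha).2).2
      have := abs_le.1 h11
      exact Finset.mem_Icc.2 this
    have h12 := hsum.trans hsig
    have h13 : (s2.card : ℝ) ≤ 2 * R * (2 * (1 + Real.log B)) / (ε / 2) := by
      rw [le_div_iff₀ (by positivity)]; exact h12
    refine h13.trans (le_of_eq ?_)
    field_simp
    ring
  rw [hcard]
  push_cast
  have h1' : (s1.card : ℝ) ≤ 4 * R := by exact_mod_cast h1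
  linarith

end Pool.Agent.H91.CL
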