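import Pool.Agent.H91.CL.Mul

/-!
MP_f2ed2a_nt: the number of cycles of length at most `P`, for arbitrarily large `P`.
-/

namespace Pool.Agent.H91.CL

open Finset

variable {d : ℕ} {m r : ℕ → ℤ}

/-- arbitrarily large `P` for which all multiples `p θ`, `p ≤ P`, are at distance at least
`1 / (4 P)` from the integers -/
theorem exists_good {θ : ℝ} (hθ : ∀ p : ℕ, 1 ≤ p → ∀ e : ℤ, (p : ℝ) * θ + e ≠ 0) (P₀ : ℕ) :
    ∃ P : ℕ, P₀ ≤ P ∧ 2 ≤ P ∧ ∀ p : ℕ, 1 ≤ p → p ≤ P → ∀ e : ℤ,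
      1 / (4 * (P : ℝ)) ≤ |(p : ℝ) * θ + e| := by
  classical
  set F : ℕ → ℝ := fun p => |(p : ℝ) * θ - round ((p : ℝ) * θ)| with hF
  have hFpos : ∀ p, 1 ≤ p → 0 < F p := by
    intro p hp
    apply abs_pos.2
    have := hθ p hp (-(round ((p : ℝ) * θ)))
    push_cast at this
    rw [sub_eq_add_neg]
    exact this
  obtain ⟨q0, hq0, hmin⟩ := Finset.exists_min_image (Finset.Icc 1 (P₀ + 2)) F ⟨1, by simp⟩
  have hq0' := Finset.mem_Icc.1 hq0
  have hμpos : 0 < F q0 := hFpos q0 hq0'.1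
  have hex : ∃ Q : ℕ, 1 ≤ Q ∧ F Q < F q0 := by
    obtain ⟨n, hn⟩ := exists_nat_gt (1 / F q0)
    have hn0 : (0 : ℝ) < n := lt_trans (by positivity) hn
    obtain ⟨k, hk0, hkn, hk⟩ := Real.exists_nat_abs_mul_sub_round_le θ (n := n)
      (by exact_mod_cast hn0)
    refine ⟨k, hk0, ?_⟩
    have h1 : (1 : ℝ) / (n + 1) < 1 / n := one_div_lt_one_div_of_lt hn0 (by linarith)
    have h2 : (1 : ℝ) / n < F q0 := by
      rw [div_lt_iff₀ hn0]
      rw [div_lt_iff₀ hμpos] at hn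
      linarith
    have h3 : F k ≤ 1 / (n + 1) := hk
    linarith
  obtain ⟨hQ1, hQ2⟩ := Nat.find_spec hex
  have hQmin : ∀ p, 1 ≤ p → p < Nat.find hex → F q0 ≤ F p := by
    intro p hp hpQ
    by_contra hlt
    push Not at hlt
    exact Nat.find_min hex hpQ ⟨hp, hlt⟩
  set Q := Nat.find hex with hQdef
  have hQbig : P₀ + 2 < Q := by
    by_contra hle
    push Not at hle
    have := hmin Q (Finset.mem_Icc.2 ⟨hQ1, hle⟩)
    linarith
  have hQ0 : (0 : ℝ) < Q := by exact_mod_cast hQ1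
  have hq0Q : (q0 : ℝ) ≤ Q := by
    have : q0 ≤ Q := by omega
    exact_mod_cast this
  have hq0Q' : (q0 : ℝ) < Q := by
    have : q0 < Q := by omega
    exact_mod_cast this
  have hq00 : (0 : ℝ) < q0 := by exact_mod_cast hq0'.1
  set a : ℤ := round ((q0 : ℝ) * θ) with ha
  set A : ℤ := round ((Q : ℝ) * θ) with hA
  have hFa : F q0 = |(q0 : ℝ) * θ - a| := rfl
  have hFA : F Q = |(Q : ℝ) * θ - A| := rfl
  set z : ℤ := q0 * A - Q * a with hz
  have hzR : (z : ℝ) = Q * ((q0 : ℝ) * θ - a) - q0 * ((Q : ℝ) * θ - A) := by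
    rw [hz]; push_cast; ring
  have hz0 : z ≠ 0 := by
    intro h0
    rw [h0] at hzR
    push_cast at hzR
    have h1 : (Q : ℝ) * ((q0 : ℝ) * θ - a) = q0 * ((Q : ℝ) * θ - A) := by linarith
    have h2 : (Q : ℝ) * F q0 = q0 * F Q := by
      rw [hFa, hFA, ← abs_of_pos hQ0, ← abs_mul, ← abs_of_pos hq00, ← abs_mul]
      rw [abs_of_pos hQ0, abs_of_pos hq00, h1]
    have h3 : (q0 : ℝ) * F Q < Q * F q0 := by
      calc (q0 : ℝ) * F Q ≤ Q * F Q := by
            apply mul_le_mul_of_nonneg_right hq0Q (abs_nonneg _)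
        _ < Q * F q0 := by
            apply mul_lt_mul_of_pos_left hQ2 hQ0
    linarith
  have hz1 : (1 : ℝ) ≤ |(z : ℝ)| := by
    have : 1 ≤ |z| := Int.one_le_abs hz0
    exact_mod_cast this
  have hz2 : |(z : ℝ)| ≤ 2 * Q * F q0 := by
    rw [hzR]
    have h1 := abs_sub ((Q : ℝ) * ((q0 : ℝ) * θ - a)) (q0 * ((Q : ℝ) * θ - A))
    rw [abs_mul, abs_mul, abs_of_pos hQ0, abs_of_pos hq00, ← hFa, ← hFA] at h1
    have h2 : (q0 : ℝ) * F Q ≤ Q * F q0 := by
      apply mul_le_mul hq0Q hQ2.le (abs_nonneg _) hQ0.le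
    linarith
  refine ⟨Q - 1, by omega, by omega, fun p hp hpP e => ?_⟩
  have hP1 : (((Q - 1 : ℕ)) : ℝ) = Q - 1 := by
    rw [Nat.cast_sub hQ1]; simp
  have hQ2' : (2 : ℝ) ≤ Q := by
    have : 2 ≤ Q := by omega
    exact_mod_cast this
  have h1 : F q0 ≤ F p := hQmin p hp (by omega)
  have h2 : F p ≤ |(p : ℝ) * θ + e| := by
    have := round_le ((p : ℝ) * θ) (-e)
    push_cast at this
    rw [sub_neg_eq_add] at this
    exact this
  refine le_trans ?_ (h1.trans h2)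
  rw [hP1, div_le_iff₀ (by linarith)]
  have h3 : 1 ≤ 2 * Q * F q0 := hz1.trans hz2
  have h4 : 2 * (Q : ℝ) * F q0 ≤ F q0 * (4 * (Q - 1)) := by nlinarith
  linarith

theorem data (hT : CoprimeType d m r)
    (hρ : ∃ ρ : ℚ, 0 < ρ ∧ ∀ i < d, ∃ k : ℤ, |(m i : ℚ)| = |(m 0 : ℚ)| * ρ ^ k) :
    ∃ (β τ : ℝ) (kk : ℕ → ℤ), τ ≠ 0 ∧
      (∀ i < d, Real.log (|(m i : ℝ)| / d) = β + kk i * τ) ∧
      (∀ p : ℕ, 1 ≤ p → ∀ e : ℤ, (p : ℝ) * (β / τ) + e ≠ 0) ∧
      ∃ c : ℝ, 0 < c ∧ ∀ (n : ℕ) (q : ℕ) (a : ℤ), 1 ≤ n → 0 < q →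
        |(q : ℝ) * (β / τ) - a| ≤ 1 / (n + 1) → c * Real.log n ≤ q := by
  have hd := hT.1
  have hd0 : (0 : ℝ) < d := by positivity
  set A : ℕ := (m 0).natAbs with hAdef
  have hm0 := m_ne hT (show 0 < d by omega)
  have hA : 0 < A := Int.natAbs_pos.2 hm0
  have hAD : Nat.Coprime A d := m_cop hT (by omega)
  have habs : ∀ z : ℤ, |(z : ℝ)| = ((z.natAbs : ℕ) : ℝ) := fun z => by
    rw [Nat.cast_natAbs]; push_cast; rfl
  set β : ℝ := Real.log A - Real.log d with hβ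
  obtain ⟨B, k, τ, kk, hB, hBD, hk, hτ, hkτ, hkk⟩ : ∃ (B : ℕ) (k : ℤ) (τ : ℝ) (kk : ℕ → ℤ),
      0 < B ∧ Nat.Coprime B d ∧ k ≠ 0 ∧ τ ≠ 0 ∧ k * τ = Real.log B - Real.log A ∧
      ∀ i < d, Real.log (|(m i : ℝ)| / d) = β + kk i * τ := by
    by_cases hall : ∀ i < d, (m i).natAbs = A
    · refine ⟨A * (d + 1), 1, Real.log (d + 1), fun _ => 0, by positivity, ?_, one_ne_zero, ?_, ?_, ?_⟩
      · exact Nat.Coprime.mul_left hAD (by simp)
      · exact (Real.log_pos (by linarith)).ne'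
      · push_cast
        rw [Real.log_mul (by positivity) (by positivity)]; ring
      · intro i hi
        rw [habs, hall i hi, Real.log_div (by positivity) (by positivity)]
        simp [hβ]
    · push Not at hall
      obtain ⟨j, hj, hjA⟩ := hall
      obtain ⟨ρ, hρ0, hρk⟩ := hρ
      choose! kk hkk using hρk
      have hρ0' : (0 : ℝ) < ρ := by exact_mod_cast hρ0
      have hlog : ∀ i < d, Real.log ((m i).natAbs : ℝ) = Real.log A + kk i * Real.log ρ := by
        intro i hi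
        have h1 : |(m i : ℝ)| = |(m 0 : ℝ)| * (ρ : ℝ) ^ (kk i) := by exact_mod_cast hkk i hi
        rw [habs, habs] at h1
        rw [h1, Real.log_mul (by positivity) (by positivity), Real.log_zpow]
      have hBj : 0 < (m j).natAbs := Int.natAbs_pos.2 (m_ne hT hj)
      have hBne : Real.log ((m j).natAbs : ℝ) ≠ Real.log A := by
        intro h
        apply hjA
        have := Real.log_injOn_pos (Set.mem_Ioi.2 (by exact_mod_cast hBj))
          (Set.mem_Ioi.2 (by exact_mod_cast hA)) h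
        exact_mod_cast this
      have hprod : (kk j : ℝ) * Real.log ρ ≠ 0 := by
        intro h
        apply hBne
        rw [hlog j hj, h, add_zero]
      refine ⟨(m j).natAbs, kk j, Real.log ρ, kk, hBj, m_cop hT hj, ?_, ?_, ?_, ?_⟩
      · intro h; apply hprod; rw [h]; simp
      · exact (mul_ne_zero_iff.1 hprod).2
      · rw [hlog j hj]; ring
      · intro i hi
        have h2 : 0 < (m i).natAbs := Int.natAbs_pos.2 (m_ne hT hi)
        rw [habs, Real.log_div (by positivity) (by positivity), hlog i hi, hβ]; ring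
  refine ⟨β, τ, kk, hτ, hkk, fun p hp e h0 => ?_, q_lower hA hB hd hAD hBD hk hτ hkτ hβ⟩
  have he3 : -(k * (p : ℤ)) ≠ 0 := by
    have : (p : ℤ) ≠ 0 := by
      have : p ≠ 0 := by omega
      exact_mod_cast this
    exact neg_ne_zero.2 (mul_ne_zero hk this)
  have h1 := liou hA hB hd hAD hBD (e1 := k * p - e) (e2 := e) he3
  have h2 : (((k * p - e : ℤ)) : ℝ) * Real.log A + ((e : ℤ) : ℝ) * Real.log B +
      ((-(k * (p : ℤ)) : ℤ) : ℝ) * Real.log d = (k * τ) * (p * (β / τ) + e) := by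
    have h3 : (k * τ) * (p * (β / τ) + e) = k * p * β + e * (k * τ) := by
      field_simp
    rw [h3, hkτ, hβ]; push_cast; ring
  rw [h2, h0, mul_zero, abs_zero] at h1
  exact absurd h1 (not_le.2 (Real.exp_pos _))

theorem dirichlet (θ : ℝ) {n : ℕ} (hn : 1 ≤ n) : ∃ (q : ℕ) (a : ℤ), 0 < q ∧ q ≤ n ∧
    IsCoprime a (q : ℤ) ∧ |(q : ℝ) * θ - a| ≤ 1 / (n + 1) := by
  obtain ⟨w, hw1, hw2⟩ := Real.exists_rat_abs_sub_le_and_den_le θ (n := n) (by omega)
  refine ⟨w.den, w.num, w.den_pos, hw2, ?_, ?_⟩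
  · rw [Int.isCoprime_iff_gcd_eq_one]
    simpa [Int.gcd, Nat.Coprime] using w.reduced
  · have hden : (0 : ℝ) < w.den := by exact_mod_cast w.den_pos
    have h1 : (w.den : ℝ) * θ - w.num = w.den * (θ - w) := by
      rw [mul_sub]
      congr 1
      have : (w : ℝ) = w.num / w.den := by exact_mod_cast (Rat.num_div_den w).symm
      rw [this]; field_simp
    rw [h1, abs_mul, abs_of_pos hden]
    calc (w.den : ℝ) * |θ - w| ≤ w.den * (1 / ((n + 1) * w.den)) := by gcongr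
      _ = 1 / (n + 1) := by field_simp

/-- the multiples `p θ`, `p ≤ P`, `q ∤ p`, are at distance at least `1 / (8 P)` from the
integers -/
theorem not_dvd_good {θ : ℝ} {P q : ℕ} {a : ℤ} (hP : 1 ≤ P) (hq : 0 < q) (hqP : q ≤ 4 * P)
    (hcop : IsCoprime a (q : ℤ)) (hqa : |(q : ℝ) * θ - a| ≤ 1 / ((4 * P : ℕ) + 1)) {p : ℕ}
    (hpP : p ≤ P) (hpq : ¬ q ∣ p) (e : ℤ) : 1 / (8 * (P : ℝ)) ≤ |(p : ℝ) * θ + e| := by
  by_contra hlt
  push Not at hlt
  apply hpq
  have hP0 : (0 : ℝ) < P := by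
    have : 0 < P := by omega
    exact_mod_cast this
  have hq0 : (0 : ℝ) < q := by exact_mod_cast hq
  have hp0 : (0 : ℝ) ≤ p := Nat.cast_nonneg p
  have hqR : (q : ℝ) ≤ 4 * P := by exact_mod_cast hqP
  have hpR : (p : ℝ) ≤ P := by exact_mod_cast hpP
  have hz : (((q * e + p * a : ℤ)) : ℝ) = q * ((p : ℝ) * θ + e) - p * ((q : ℝ) * θ - a) := by
    push_cast; ring
  have hz1 : |(((q * e + p * a : ℤ)) : ℝ)| < 1 := by
    rw [hz]
    have h1 := abs_sub ((q : ℝ) * ((p : ℝ) * θ + e)) (p * ((q : ℝ) * θ - a))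
    rw [abs_mul, abs_mul, abs_of_pos hq0, abs_of_nonneg hp0] at h1
    have h2 : (q : ℝ) * |(p : ℝ) * θ + e| ≤ 4 * P * (1 / (8 * (P : ℝ))) := by
      apply mul_le_mul hqR hlt.le (abs_nonneg _) (by positivity)
    have h3 : (p : ℝ) * |(q : ℝ) * θ - a| ≤ P * (1 / (4 * P)) := by
      apply mul_le_mul hpR _ (abs_nonneg _) hP0.le
      refine hqa.trans ?_
      push_cast
      apply one_div_le_one_div_of_le (by positivity)
      linarith
    have h4 : 4 * (P : ℝ) * (1 / (8 * (P : ℝ))) = 1 / 2 := by field_simp; norm_num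
    have h5 : (P : ℝ) * (1 / (4 * P)) = 1 / 4 := by field_simp
    rw [h4] at h2
    rw [h5] at h3
    linarith
  have hz0 : (q * e + p * a : ℤ) = 0 := by
    apply Int.abs_lt_one_iff.1
    exact_mod_cast hz1
  have h6 : (q : ℤ) ∣ p * a := ⟨-e, by linarith⟩
  have h7 : (q : ℤ) ∣ p := hcop.symm.dvd_of_dvd_mul_right h6
  exact_mod_cast h7

/-- `|log (|M| / d ^ p)|` in terms of `p θ + e` -/
theorem logMult_theta (hT : CoprimeType d m r) {β τ : ℝ} (hτ : τ ≠ 0) {kk : ℕ → ℤ}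
    (hkk : ∀ i < d, Real.log (|(m i : ℝ)| / d) = β + kk i * τ) (x : ℤ) :
    ∃ e : ℤ, |logMult d m r x| =
      |τ| * |(Function.minimalPeriod (collatz d m r) x : ℝ) * (β / τ) + e| := by
  set p := Function.minimalPeriod (collatz d m r) x with hp
  refine ⟨∑ n ∈ range p, kk (((collatz d m r)^[n] x) % (d : ℤ)).toNat, ?_⟩
  have h3 : ∑ n ∈ range p, wt d m ((collatz d m r)^[n] x) =
      τ * ((p : ℝ) * (β / τ) + ((∑ n ∈ range p,
        kk (((collatz d m r)^[n] x) % (d : ℤ)).toNat : ℤ) : ℝ)) := by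
    have h4 : ∀ n ∈ range p, wt d m ((collatz d m r)^[n] x) =
        β + kk (((collatz d m r)^[n] x) % (d : ℤ)).toNat * τ := by
      intro n _
      exact hkk _ (cls_lt hT.1 _)
    rw [Finset.sum_congr rfl h4, Finset.sum_add_distrib, ← Finset.sum_mul]
    push_cast
    rw [Finset.sum_const, card_range, nsmul_eq_mul]
    field_simp
  rw [logMult_eq hT, ← hp, h3, abs_mul]

/-- cycles of length at most `P` which are not nearly neutral: for every `P` those with length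
not divisible by a certain large `q`, and for arbitrarily large `P` all of them -/
theorem lower (hT : CoprimeType d m r)
    (hρ : ∃ ρ : ℚ, 0 < ρ ∧ ∀ i < d, ∃ k : ℤ, |(m i : ℚ)| = |(m 0 : ℚ)| * ρ ^ k) :
    ∃ c : ℝ, 0 < c ∧ c ≤ 1 ∧
      (∀ P : ℕ, 2 ≤ P → ∃ q : ℕ, c * Real.log P ≤ q ∧ ∀ x : ℤ,
        Function.minimalPeriod (collatz d m r) x ≤ P →
        ¬ q ∣ Function.minimalPeriod (collatz d m r) x → c / P ≤ |logMult d m r x|) ∧
      ∀ P₀ : ℕ, ∃ P : ℕ, P₀ ≤ P ∧ 2 ≤ P ∧ ∀ x : ℤ,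
        1 ≤ Function.minimalPeriod (collatz d m r) x →
        Function.minimalPeriod (collatz d m r) x ≤ P → c / P ≤ |logMult d m r x| := by
  obtain ⟨β, τ, kk, hτ, hkk, hne, c, hc0, hc⟩ := data hT hρ
  have hτ0 : 0 < |τ| := abs_pos.2 hτ
  refine ⟨min (min 1 c) (|τ| / 8), by positivity,
    (min_le_left _ _).trans (min_le_left _ _), fun P hP2 => ?_, fun P₀ => ?_⟩
  · have hPR : (2 : ℝ) ≤ P := by exact_mod_cast hP2
    have hPpos : (0 : ℝ) < P := by linarith
    have hlogP : 0 ≤ Real.log P := Real.log_nonneg (by linarith)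
    obtain ⟨q, a, hq, hqn, hcop, hqa⟩ := dirichlet (β / τ) (n := 4 * P) (by omega)
    refine ⟨q, ?_, fun x hxP hxq => ?_⟩
    · have h1 := hc (4 * P) q a (by omega) hq hqa
      have h2 : Real.log P ≤ Real.log ((4 * P : ℕ) : ℝ) := by
        apply Real.log_le_log hPpos
        push_cast
        linarith
      calc min (min 1 c) (|τ| / 8) * Real.log P ≤ c * Real.log P := by
            apply mul_le_mul_of_nonneg_right _ hlogP
            exact (min_le_left _ _).trans (min_le_right _ _)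
        _ ≤ c * Real.log ((4 * P : ℕ) : ℝ) := by gcongr
        _ ≤ q := h1
    · obtain ⟨e, he⟩ := logMult_theta hT hτ hkk x
      rw [he]
      have h5 := not_dvd_good (by omega) hq hqn hcop hqa hxP hxq e
      calc min (min 1 c) (|τ| / 8) / P ≤ (|τ| / 8) / P := by
            gcongr
            exact min_le_right _ _
        _ = |τ| * (1 / (8 * P)) := by field_simp
        _ ≤ _ := by gcongr
  · obtain ⟨P, hP0, hP2, hP⟩ := exists_good hne P₀
    refine ⟨P, hP0, hP2, fun x hx1 hxP => ?_⟩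
    have hPpos : (0 : ℝ) < P := by
      have : 0 < P := by omega
      exact_mod_cast this
    obtain ⟨e, he⟩ := logMult_theta hT hτ hkk x
    rw [he]
    have h5 := hP _ hx1 hxP e
    calc min (min 1 c) (|τ| / 8) / P ≤ (|τ| / 4) / P := by
          gcongr
          refine (min_le_right _ _).trans ?_
          linarith
      _ = |τ| * (1 / (4 * P)) := by field_simp
      _ ≤ _ := by gcongr

/-- every `T`: at most `N` distinct cycles of length at most `P` -/
theorem sum_le_log2 (hT : CoprimeType d m r) :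
    ∃ K : ℝ, 0 ≤ K ∧ ∀ P N : ℕ, 2 ≤ P → 1 ≤ N → ∀ s : Finset ℤ, s.card ≤ N →
      DistinctCycles (collatz d m r) s →
      (∀ x ∈ s, Function.minimalPeriod (collatz d m r) x ≤ P) →
      ∑ x ∈ s, |logMult d m r x| ≤ K * (Real.log P + Real.log N) := by
  classical
  obtain ⟨R, hR1, hR⟩ := exists_R d r
  have hR1' : (1 : ℝ) ≤ R := by exact_mod_cast hR1
  have hR0 : (0 : ℝ) < R := by linarith
  set T := collatz d m r with hTdef
  have hlog2 : 0 < Real.log 2 := Real.log_pos (by norm_num)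
  have hK0 : 0 ≤ K0 d m r R := Finset.sum_nonneg fun _ _ => abs_nonneg _
  refine ⟨(K0 d m r R + 6 * R) / Real.log 2 + 4 * R, by positivity, fun P N hP hN s hsP hs hlen => ?_⟩
  have hP2 : (2 : ℝ) ≤ P := by exact_mod_cast hP
  have hP0 : (0 : ℝ) < P := by linarith
  have hN1 : (1 : ℝ) ≤ N := by exact_mod_cast hN
  have hN0 : (0 : ℝ) < N := by linarith
  have hlogP : Real.log 2 ≤ Real.log P := Real.log_le_log (by norm_num) hP2
  have hlogN : 0 ≤ Real.log N := Real.log_nonneg hN1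
  obtain ⟨s2, hsub, hs2, hsum⟩ := split_small hT (R := R) hs
  have hd2 : DistinctCycles T s2 :=
    ⟨fun x hx => hs.1 x (hsub hx), fun x hx y hy => hs.2 x (hsub hx) y (hsub hy)⟩
  set B : ℕ := P * N with hB
  have hBR : (B : ℝ) = P * N := by rw [hB]; push_cast; rfl
  have hBpos : (0 : ℝ) < B := by rw [hBR]; positivity
  set F : ℤ → Finset ℕ := fun x => (range (Function.minimalPeriod T x)).filter
    (fun n => |T^[n] x| ≤ (B : ℤ)) with hF
  have hone : ∀ x ∈ s2, |logMult d m r x| ≤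
      ∑ n ∈ F x, 2 * (R : ℝ) * (1 / |((T^[n] x : ℤ) : ℝ)|) + 2 * R / N := by
    intro x hx
    have hlarge : ∀ n < Function.minimalPeriod T x, 2 * (R : ℝ) ≤ |((T^[n] x : ℤ) : ℝ)| := by
      intro n _
      exact_mod_cast hs2 x hx n
    have hb := cycle_bound hT hR hR1' hlarge
    have hsplit : ∑ n ∈ range (Function.minimalPeriod T x), 2 * (R : ℝ) / |((T^[n] x : ℤ) : ℝ)| =
        ∑ n ∈ F x, 2 * (R : ℝ) / |((T^[n] x : ℤ) : ℝ)| +
        ∑ n ∈ (range (Function.minimalPeriod T x)).filter (fun n => ¬ |T^[n] x| ≤ (B : ℤ)),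
          2 * (R : ℝ) / |((T^[n] x : ℤ) : ℝ)| := by
      rw [hF, Finset.sum_filter_add_sum_filter_not]
    have hrest : ∑ n ∈ (range (Function.minimalPeriod T x)).filter (fun n => ¬ |T^[n] x| ≤ (B : ℤ)),
          2 * (R : ℝ) / |((T^[n] x : ℤ) : ℝ)| ≤ 2 * R / N := by
      have h3 : ∀ n ∈ (range (Function.minimalPeriod T x)).filter (fun n => ¬ |T^[n] x| ≤ (B : ℤ)),
          2 * (R : ℝ) / |((T^[n] x : ℤ) : ℝ)| ≤ 2 * R / B := by
        intro n hn
        have h4 := (mem_filter.1 hn).2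
        push Not at h4
        have h5 : (B : ℝ) ≤ |((T^[n] x : ℤ) : ℝ)| := by exact_mod_cast h4.le
        gcongr
      refine (Finset.sum_le_card_nsmul _ _ _ h3).trans ?_
      rw [nsmul_eq_mul]
      have h6 : (((range (Function.minimalPeriod T x)).filter (fun n => ¬ |T^[n] x| ≤ (B : ℤ))).card : ℝ) ≤ P := by
        have h7 := Finset.card_filter_le (range (Function.minimalPeriod T x)) (fun n => ¬ |T^[n] x| ≤ (B : ℤ))
        rw [card_range] at h7
        exact_mod_cast h7.trans (hlen x (hsub hx))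
      calc (((range (Function.minimalPeriod T x)).filter (fun n => ¬ |T^[n] x| ≤ (B : ℤ))).card : ℝ) * (2 * R / B)
          ≤ P * (2 * R / B) := by gcongr
        _ = 2 * R / N := by rw [hBR]; field_simp
    have h10 : ∑ n ∈ F x, 2 * (R : ℝ) / |((T^[n] x : ℤ) : ℝ)| =
        ∑ n ∈ F x, 2 * (R : ℝ) * (1 / |((T^[n] x : ℤ) : ℝ)|) :=
      Finset.sum_congr rfl fun n _ => by ring
    rw [← h10]
    linarith
  have hsum2 : ∑ x ∈ s2, |logMult d m r x| ≤ 2 * R * (2 * (1 + Real.log B)) + 2 * R := by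
    refine (Finset.sum_le_sum hone).trans ?_
    rw [Finset.sum_add_distrib]
    have h1 : ∑ x ∈ s2, ∑ n ∈ F x, 2 * (R : ℝ) * (1 / |((T^[n] x : ℤ) : ℝ)|) ≤
        2 * R * (2 * (1 + Real.log B)) := by
      have h2 := sum_orbits_le hd2 F (fun x _ => Finset.filter_subset _ _)
        (A := Finset.Icc (-(B : ℤ)) B)
        (fun x _ n hn => Finset.mem_Icc.2 (abs_le.1 (mem_filter.1 hn).2))
        (fun y => 2 * (R : ℝ) * (1 / |(y : ℝ)|)) (fun y => by positivity)
      refine h2.trans ?_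
      rw [← Finset.mul_sum]
      exact mul_le_mul_of_nonneg_left (sum_inv_abs_le B) (by positivity)
    have h3 : ∑ _x ∈ s2, 2 * (R : ℝ) / N ≤ 2 * R := by
      rw [Finset.sum_const, nsmul_eq_mul]
      have h4 : (s2.card : ℝ) ≤ N := by exact_mod_cast (Finset.card_le_card hsub).trans hsP
      calc (s2.card : ℝ) * (2 * R / N) ≤ N * (2 * R / N) := by gcongr
        _ = 2 * R := by field_simp
    linarith
  have hlogB : Real.log B = Real.log P + Real.log N := by
    rw [hBR, Real.log_mul (by positivity) (by positivity)]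
  rw [hlogB] at hsum2
  have h10 : (1 : ℝ) ≤ (Real.log P + Real.log N) / Real.log 2 := by
    rw [one_le_div hlog2]; linarith
  have h12 : (K0 d m r R + 6 * R) ≤
      (K0 d m r R + 6 * R) * ((Real.log P + Real.log N) / Real.log 2) :=
    le_mul_of_one_le_right (by positivity) h10
  calc ∑ x ∈ s, |logMult d m r x| ≤ (K0 d m r R + 6 * R) + 4 * R * (Real.log P + Real.log N) := by
        linarith
    _ ≤ (K0 d m r R + 6 * R) * ((Real.log P + Real.log N) / Real.log 2) +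
        4 * R * (Real.log P + Real.log N) := by linarith
    _ = ((K0 d m r R + 6 * R) / Real.log 2 + 4 * R) * (Real.log P + Real.log N) := by ring

/-- solving `N ≤ K P (log P + log N)` -/
theorem solve_log {K : ℝ} (hK : 0 ≤ K) : ∃ K' : ℝ, 0 ≤ K' ∧ ∀ P N : ℕ, 2 ≤ P → 1 ≤ N →
    (N : ℝ) ≤ K * P * (Real.log P + Real.log N) → (N : ℝ) ≤ K' * P * Real.log P := by
  have hlog2 : 0 < Real.log 2 := Real.log_pos (by norm_num)
  refine ⟨5 * K + 25 * K ^ 2 / Real.log 2, by positivity, fun P N hP hN h => ?_⟩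
  have hP2 : (2 : ℝ) ≤ P := by exact_mod_cast hP
  have hN1 : (1 : ℝ) ≤ N := by exact_mod_cast hN
  have hlogP : Real.log 2 ≤ Real.log P := Real.log_le_log (by norm_num) hP2
  have hlogN : 0 ≤ Real.log N := Real.log_nonneg hN1
  have hPl : Real.log 2 ≤ (P : ℝ) * Real.log P := by nlinarith
  rcases le_or_gt (N : ℝ) ((P : ℝ) ^ 4) with hle | hgt
  · have h1 : Real.log N ≤ 4 * Real.log P := by
      have := Real.log_le_log (by linarith) hle
      rw [Real.log_pow] at this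
      simpa using this
    have h2 : K * P * (Real.log P + Real.log N) ≤ K * P * (5 * Real.log P) := by
      apply mul_le_mul_of_nonneg_left _ (by positivity)
      linarith
    have h3 : 0 ≤ 25 * K ^ 2 / Real.log 2 * (P * Real.log P) := by positivity
    nlinarith
  · -- `P < N^{1/4}`
    set y : ℝ := (N : ℝ) ^ ((1 : ℝ) / 4) with hy
    have hy0 : 0 < y := by positivity
    have hy4 : y ^ 4 = N := by
      rw [hy, ← Real.rpow_natCast ((N : ℝ) ^ ((1 : ℝ) / 4)) 4, ← Real.rpow_mul (by linarith)]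
      norm_num
    have hPy : (P : ℝ) ≤ y := by
      by_contra hlt
      push Not at hlt
      have : y ^ 4 ≤ (P : ℝ) ^ 4 := pow_le_pow_left₀ hy0.le hlt.le 4
      rw [hy4] at this
      linarith
    have hlogy : Real.log N ≤ 4 * y := by
      rw [← hy4, Real.log_pow]
      have := Real.log_le_sub_one_of_pos hy0
      push_cast
      linarith
    have hlogP4 : Real.log P ≤ y := by
      have h1 := Real.log_le_sub_one_of_pos (show (0 : ℝ) < P by linarith)
      linarith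
    have h5 : (N : ℝ) ≤ 5 * K * y ^ 2 := by
      calc (N : ℝ) ≤ K * P * (Real.log P + Real.log N) := h
        _ ≤ K * y * (y + 4 * y) := by
          apply mul_le_mul
          · exact mul_le_mul_of_nonneg_left hPy hK
          · linarith
          · linarith
          · positivity
        _ = 5 * K * y ^ 2 := by ring
    have h6 : y ^ 2 ≤ 5 * K := by
      have h7 : y ^ 2 * y ^ 2 ≤ 5 * K * y ^ 2 := by
        calc y ^ 2 * y ^ 2 = y ^ 4 := by ring
          _ = (N : ℝ) := hy4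
          _ ≤ _ := h5
      exact le_of_mul_le_mul_right h7 (by positivity)
    have h8 : (N : ℝ) ≤ 25 * K ^ 2 := by
      calc (N : ℝ) ≤ 5 * K * y ^ 2 := h5
        _ ≤ 5 * K * (5 * K) := by gcongr
        _ = 25 * K ^ 2 := by ring
    have h9 : 25 * K ^ 2 ≤ 25 * K ^ 2 / Real.log 2 * (P * Real.log P) := by
      rw [div_mul_eq_mul_div, le_div_iff₀ hlog2]
      exact mul_le_mul_of_nonneg_left hPl (by positivity)
    have h10 : 0 ≤ 5 * K * (P * Real.log P) := by positivity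
    nlinarith

/-- the cycles (as sets) with length in `A` -/
def cyc (d : ℕ) (m r : ℕ → ℤ) (A : Set ℕ) : Set (Set ℤ) :=
  {C | ∃ x : ℤ, 1 ≤ Function.minimalPeriod (collatz d m r) x ∧
    Function.minimalPeriod (collatz d m r) x ∈ A ∧
    C = Set.range (fun n : ℕ => (collatz d m r)^[n] x)}

/-- from representatives to cycles -/
theorem cyc_count {A : Set ℕ} {b : ℝ}
    (h : ∀ s : Finset ℤ, DistinctCycles (collatz d m r) s →
      (∀ x ∈ s, Function.minimalPeriod (collatz d m r) x ∈ A) → (s.card : ℝ) ≤ b) :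
    (cyc d m r A).Finite ∧ ((cyc d m r A).ncard : ℝ) ≤ b := by
  classical
  have key : ∀ t : Finset (Set ℤ), (t : Set (Set ℤ)) ⊆ cyc d m r A → (t.card : ℝ) ≤ b := by
    intro t ht
    have hch : ∀ C ∈ t, ∃ x : ℤ, 1 ≤ Function.minimalPeriod (collatz d m r) x ∧
        Function.minimalPeriod (collatz d m r) x ∈ A ∧
        C = Set.range (fun n : ℕ => (collatz d m r)^[n] x) := fun C hC => ht hC
    choose! x hx1 hxP hxC using hch
    have hinj : Set.InjOn x (t : Set (Set ℤ)) := by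
      intro C hC C' hC' hxx
      rw [hxC C hC, hxC C' hC', hxx]
    have h1 := h (t.image x) ⟨?_, ?_⟩ ?_
    · rw [Finset.card_image_of_injOn hinj] at h1
      exact h1
    · intro y hy
      obtain ⟨C, hC, rfl⟩ := mem_image.1 hy
      exact hx1 C hC
    · intro y hy z hz hyz a c hac
      obtain ⟨C, hC, rfl⟩ := mem_image.1 hy
      obtain ⟨C', hC', rfl⟩ := mem_image.1 hz
      apply hyz
      have := orb_eq (hx1 C hC) (hx1 C' hC') hac
      rw [← hxC C hC, ← hxC C' hC'] at this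
      rw [this]
    · intro y hy
      obtain ⟨C, hC, rfl⟩ := mem_image.1 hy
      exact hxP C hC
  have hfin : (cyc d m r A).Finite := by
    by_contra hinf
    obtain ⟨N, hN⟩ := exists_nat_gt b
    obtain ⟨t, ht, htc⟩ := Set.Infinite.exists_subset_card_eq hinf N
    have := key t ht
    rw [htc] at this
    linarith
  refine ⟨hfin, ?_⟩
  rw [Set.ncard_eq_toFinset_card _ hfin]
  exact key hfin.toFinset (by simp)

/-- at most `K P log P` cycles -/
theorem gen_cyc (hT : CoprimeType d m r) {c : ℝ} (hc0 : 0 < c) :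
    ∃ K : ℝ, ∀ P : ℕ, 2 ≤ P → ∀ A : Set ℕ, (∀ p ∈ A, p ≤ P) →
      (∀ x : ℤ, 1 ≤ Function.minimalPeriod (collatz d m r) x →
        Function.minimalPeriod (collatz d m r) x ∈ A → c / P ≤ |logMult d m r x|) →
      (cyc d m r A).Finite ∧ ((cyc d m r A).ncard : ℝ) ≤ K * P * Real.log P := by
  obtain ⟨K, hK0, hK⟩ := sum_le_log2 hT
  obtain ⟨K', hK'0, hK'⟩ := solve_log (K := K / c) (by positivity)
  refine ⟨K', fun P hP2 A hA hP => ?_⟩
  have hPR : (2 : ℝ) ≤ P := by exact_mod_cast hP2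
  have hPpos : (0 : ℝ) < P := by linarith
  have hlogP : 0 ≤ Real.log P := Real.log_nonneg (by linarith)
  refine cyc_count fun s hs hlen => ?_
  rcases Nat.eq_zero_or_pos s.card with h0 | hpos
  · rw [h0]; push_cast; positivity
  · apply hK' P s.card hP2 hpos
    have h1 := hK P s.card hP2 hpos s le_rfl hs fun x hx => hA _ (hlen x hx)
    have h2 : (s.card : ℝ) * (c / P) ≤ ∑ x ∈ s, |logMult d m r x| := by
      rw [← nsmul_eq_mul]
      exact Finset.card_nsmul_le_sum s _ _ fun x hx => hP x (hs.1 x hx) (hlen x hx)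
    have h3 : (s.card : ℝ) * (c / P) ≤ K * (Real.log P + Real.log s.card) := h2.trans h1
    have h4 : (s.card : ℝ) = (s.card : ℝ) * (c / P) * (P / c) := by field_simp
    refine h4.le.trans ?_
    calc (s.card : ℝ) * (c / P) * (P / c) ≤ K * (Real.log P + Real.log s.card) * (P / c) := by
          apply mul_le_mul_of_nonneg_right h3 (by positivity)
      _ = K / c * P * (Real.log P + Real.log s.card) := by ring

/-- the sparse case: the number of cycles with `ε ≤ |Λ|` -/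
theorem sparse_count (hT : CoprimeType d m r)
    (h : |(∏ i ∈ range d, m i : ℤ)| < (d : ℤ) ^ d ∨ ∑ i ∈ range d, 1 / |(m i : ℝ)| < 1) :
    ∃ δ : ℝ, 0 < δ ∧ δ ≤ 1 / 2 ∧ ∃ K : ℝ, 0 ≤ K ∧ ∀ N : ℕ, 1 ≤ N → ∀ s : Finset ℤ,
      DistinctCycles (collatz d m r) s → (∀ x ∈ s, 1 / (N : ℝ) ≤ |logMult d m r x|) →
      (s.card : ℝ) ≤ K * (N : ℝ) ^ (1 - δ) := by
  classical
  obtain ⟨δ, hδ0, hδ1, K, hK, hN⟩ : ∃ δ : ℝ, 0 < δ ∧ δ ≤ 1 / 2 ∧ ∃ K : ℝ, 0 ≤ K ∧
      ∀ X : ℕ, 1 ≤ X → ∀ G : Finset ℤ, (∀ x ∈ G, |x| ≤ (X : ℤ)) →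
        (∀ x ∈ G, x ∈ Function.periodicPts (collatz d m r)) →
        (G.card : ℝ) ≤ K * (X : ℝ) ^ (1 - δ) := by
    rcases h with h | h
    · exact sparse_future hT h
    · exact sparse_past hT h
  obtain ⟨R, hR1, hR⟩ := exists_R d r
  have hR1' : (1 : ℝ) ≤ R := by exact_mod_cast hR1
  have hR0 : (0 : ℝ) < R := by linarith
  set T := collatz d m r with hTdef
  set K2 : ℝ := 2 * R * (2 * K / (1 - (2 : ℝ) ^ (-δ))) with hK2
  have hr1 : (2 : ℝ) ^ (-δ) < 1 := Real.rpow_lt_one_of_one_lt_of_neg (by norm_num) (by linarith)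
  have hK2n : 0 ≤ K2 := by
    have : 0 < 1 - (2 : ℝ) ^ (-δ) := by linarith
    positivity
  have hper_of : ∀ {x : ℤ}, 1 ≤ Function.minimalPeriod T x → ∀ n, T^[n] x ∈ Function.periodicPts T := by
    intro x hx n
    apply Function.minimalPeriod_pos_iff_mem_periodicPts.1
    rw [Function.minimalPeriod_apply_iterate (periodic_of hx)]
    exact hx
  -- sum over distinct large cycles
  have hlargeSum : ∀ X : ℕ, 1 ≤ X → 2 * R ≤ X → ∀ s : Finset ℤ, DistinctCycles T s →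
      (∀ x ∈ s, ∀ n, (X : ℤ) ≤ |T^[n] x|) → ∑ x ∈ s, |logMult d m r x| ≤ K2 * (X : ℝ) ^ (-δ) := by
    intro X hX hXR s hs hsX
    set A : Finset ℤ := s.biUnion (fun x => (range (Function.minimalPeriod T x)).image (fun n => T^[n] x)) with hA
    have h1 : ∀ x ∈ s, |logMult d m r x| ≤ ∑ n ∈ range (Function.minimalPeriod T x),
        2 * (R : ℝ) * (1 / |((T^[n] x : ℤ) : ℝ)|) := by
      intro x hx
      have hlarge : ∀ n < Function.minimalPeriod T x, 2 * (R : ℝ) ≤ |((T^[n] x : ℤ) : ℝ)| := by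
        intro n _
        have h2 := hsX x hx n
        have h3 : (2 * R : ℤ) ≤ |T^[n] x| := by
          have : (2 * R : ℤ) ≤ X := by exact_mod_cast hXR
          linarith
        exact_mod_cast h3
      have hb := cycle_bound hT hR hR1' hlarge
      refine hb.trans (le_of_eq (Finset.sum_congr rfl fun n _ => by ring))
    refine (Finset.sum_le_sum h1).trans ?_
    have h2 := sum_orbits_le hs (fun x => range (Function.minimalPeriod T x)) (fun x _ => le_rfl)
      (A := A) (fun x hx n hn => by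
        rw [hA, mem_biUnion]; exact ⟨x, hx, mem_image_of_mem _ hn⟩)
      (fun y => 2 * (R : ℝ) * (1 / |(y : ℝ)|)) (fun y => by positivity)
    refine h2.trans ?_
    rw [← Finset.mul_sum]
    have h3 := tail hδ0 hδ1 hK hN hX (F := A) (fun y hy => by
        rw [hA, mem_biUnion] at hy
        obtain ⟨x, hx, hy⟩ := hy
        obtain ⟨n, hn, rfl⟩ := mem_image.1 hy
        exact hsX x hx n) (fun y hy => by
        rw [hA, mem_biUnion] at hy
        obtain ⟨x, hx, hy⟩ := hy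
        obtain ⟨n, hn, rfl⟩ := mem_image.1 hy
        exact hper_of (hs.1 x hx) n)
    calc 2 * (R : ℝ) * ∑ y ∈ A, 1 / |(y : ℝ)| ≤
        2 * R * (2 * K / (1 - (2 : ℝ) ^ (-δ)) * (X : ℝ) ^ (-δ)) := by gcongr
      _ = K2 * (X : ℝ) ^ (-δ) := by rw [hK2]; ring
  refine ⟨δ, hδ0, hδ1, K * (2 * R) + K2, by positivity, fun N hN1 s hs hε => ?_⟩
  have hN1' : (1 : ℝ) ≤ N := by exact_mod_cast hN1
  have hN0 : (0 : ℝ) < N := by linarith
  set X : ℕ := 2 * R * N with hX
  have hX1 : 1 ≤ X := Nat.mul_pos (by omega) hN1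
  have hXR : 2 * R ≤ X := Nat.le_mul_of_pos_right _ hN1
  have hXreal : (X : ℝ) = 2 * R * N := by rw [hX]; push_cast; ring
  set s1 := s.filter (fun x => ∃ n, |T^[n] x| ≤ (X : ℤ)) with hs1
  set s2 := s.filter (fun x => ¬ ∃ n, |T^[n] x| ≤ (X : ℤ)) with hs2
  have hcard : s.card = s1.card + s2.card := by
    rw [hs1, hs2, Finset.card_filter_add_card_filter_not]
  have hex : ∀ x ∈ s1, ∃ n, |T^[n] x| ≤ (X : ℤ) := fun x hx => (mem_filter.1 hx).2
  choose! n hn using hex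
  have h1 : (s1.card : ℝ) ≤ K * (2 * R) * (N : ℝ) ^ (1 - δ) := by
    have hinj : Set.InjOn (fun x => T^[n x] x) (s1 : Set ℤ) := by
      intro x hx y hy hxy
      by_contra hne
      exact hs.2 x (mem_filter.1 hx).1 y (mem_filter.1 hy).1 hne (n x) (n y) hxy
    rw [← Finset.card_image_of_injOn hinj]
    refine (hN X hX1 _ ?_ ?_).trans ?_
    · intro y hy
      obtain ⟨x, hx, rfl⟩ := mem_image.1 hy
      exact hn x hx
    · intro y hy
      obtain ⟨x, hx, rfl⟩ := mem_image.1 hy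
      exact hper_of (hs.1 x (mem_filter.1 hx).1) _
    · rw [hXreal, Real.mul_rpow (by positivity) hN0.le]
      have h2 : (2 * (R : ℝ)) ^ (1 - δ) ≤ 2 * R := by
        calc (2 * (R : ℝ)) ^ (1 - δ) ≤ (2 * (R : ℝ)) ^ (1 : ℝ) :=
              Real.rpow_le_rpow_of_exponent_le (by linarith) (by linarith)
          _ = 2 * R := Real.rpow_one _
      calc K * ((2 * (R : ℝ)) ^ (1 - δ) * (N : ℝ) ^ (1 - δ)) ≤ K * (2 * R * (N : ℝ) ^ (1 - δ)) := by
            gcongr
        _ = K * (2 * R) * (N : ℝ) ^ (1 - δ) := by ring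
  have h2 : (s2.card : ℝ) ≤ K2 * (N : ℝ) ^ (1 - δ) := by
    have hd2 : DistinctCycles T s2 :=
      ⟨fun x hx => hs.1 x (mem_filter.1 hx).1, fun x hx y hy =>
        hs.2 x (mem_filter.1 hx).1 y (mem_filter.1 hy).1⟩
    have h3 := hlargeSum X hX1 hXR s2 hd2 (fun x hx k => by
      have := (mem_filter.1 hx).2
      push Not at this
      exact (this k).le)
    have h4 : (s2.card : ℝ) * (1 / N) ≤ ∑ x ∈ s2, |logMult d m r x| := by
      rw [← nsmul_eq_mul]
      exact Finset.card_nsmul_le_sum s2 _ _ fun x hx => hε x (mem_filter.1 hx).1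
    have h5 : (X : ℝ) ^ (-δ) ≤ (N : ℝ) ^ (-δ) := by
      apply Real.rpow_le_rpow_of_nonpos hN0
      · rw [hXreal]; nlinarith
      · linarith
    have h6 : (s2.card : ℝ) * (1 / N) ≤ K2 * (N : ℝ) ^ (-δ) :=
      (h4.trans h3).trans (by gcongr)
    have h7 : (N : ℝ) ^ (1 - δ) = N * (N : ℝ) ^ (-δ) := by
      rw [show (1 : ℝ) - δ = 1 + -δ by ring, Real.rpow_add hN0, Real.rpow_one]
    rw [h7]
    calc (s2.card : ℝ) = (s2.card : ℝ) * (1 / N) * N := by field_simp
      _ ≤ K2 * (N : ℝ) ^ (-δ) * N := by gcongr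
      _ = K2 * (N * (N : ℝ) ^ (-δ)) := by ring
  rw [hcard]
  push_cast
  linarith

/-- the sparse case: at most `K P ^ (1 - δ)` cycles -/
theorem sparse_cyc (hT : CoprimeType d m r)
    (h : |(∏ i ∈ range d, m i : ℤ)| < (d : ℤ) ^ d ∨ ∑ i ∈ range d, 1 / |(m i : ℝ)| < 1)
    {c : ℝ} (hc0 : 0 < c) :
    ∃ δ : ℝ, 0 < δ ∧ ∃ K : ℝ, ∀ P : ℕ, 2 ≤ P → ∀ A : Set ℕ, (∀ p ∈ A, p ≤ P) →
      (∀ x : ℤ, 1 ≤ Function.minimalPeriod (collatz d m r) x →
        Function.minimalPeriod (collatz d m r) x ∈ A → c / P ≤ |logMult d m r x|) →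
      (cyc d m r A).Finite ∧ ((cyc d m r A).ncard : ℝ) ≤ K * (P : ℝ) ^ (1 - δ) := by
  obtain ⟨δ, hδ0, hδ1, K, hK0, hK⟩ := sparse_count hT h
  obtain ⟨M, hM⟩ := exists_nat_ge (1 / c)
  have hM0 : (0 : ℝ) < M := lt_of_lt_of_le (by positivity) hM
  have hM1 : 1 ≤ M := by
    have : 0 < M := by exact_mod_cast hM0
    exact this
  refine ⟨δ, hδ0, K * (M : ℝ) ^ (1 - δ), fun P hP2 A hA hP => ?_⟩
  have hPR : (2 : ℝ) ≤ P := by exact_mod_cast hP2
  have hPpos : (0 : ℝ) < P := by linarith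
  refine cyc_count fun s hs hlen => ?_
  refine (hK (M * P) (Nat.mul_pos hM1 (by omega)) s hs fun x hx => ?_).trans (le_of_eq ?_)
  · refine le_trans ?_ (hP x (hs.1 x hx) (hlen x hx))
    push_cast
    rw [div_le_div_iff₀ (by positivity) hPpos]
    rw [div_le_iff₀ hc0] at hM
    nlinarith
  · push_cast
    rw [Real.mul_rpow hM0.le hPpos.le]
    ring

/-- the two ranges of `P`, for a bound `f P` -/
theorem combine {f : ℕ → ℝ} {c : ℝ}
    (h1 : ∀ P : ℕ, 2 ≤ P → ∃ q : ℕ, c * Real.log P ≤ q ∧ ∀ x : ℤ,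
        Function.minimalPeriod (collatz d m r) x ≤ P →
        ¬ q ∣ Function.minimalPeriod (collatz d m r) x → c / P ≤ |logMult d m r x|)
    (h2 : ∀ P₀ : ℕ, ∃ P : ℕ, P₀ ≤ P ∧ 2 ≤ P ∧ ∀ x : ℤ,
        1 ≤ Function.minimalPeriod (collatz d m r) x →
        Function.minimalPeriod (collatz d m r) x ≤ P → c / P ≤ |logMult d m r x|)
    (hf : ∀ P : ℕ, 2 ≤ P → ∀ A : Set ℕ, (∀ p ∈ A, p ≤ P) →
      (∀ x : ℤ, 1 ≤ Function.minimalPeriod (collatz d m r) x →
        Function.minimalPeriod (collatz d m r) x ∈ A → c / P ≤ |logMult d m r x|) →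
      (cyc d m r A).Finite ∧ ((cyc d m r A).ncard : ℝ) ≤ f P) :
    (∀ P : ℕ, 2 ≤ P → ∃ q : ℕ, c * Real.log P ≤ q ∧ (cyc d m r {p | p ≤ P ∧ ¬ q ∣ p}).Finite ∧
      ((cyc d m r {p | p ≤ P ∧ ¬ q ∣ p}).ncard : ℝ) ≤ f P) ∧
    ∀ P₀ : ℕ, ∃ P : ℕ, P₀ ≤ P ∧ 2 ≤ P ∧ (cyc d m r {p | p ≤ P}).Finite ∧
      ((cyc d m r {p | p ≤ P}).ncard : ℝ) ≤ f P := by
  refine ⟨fun P hP => ?_, fun P₀ => ?_⟩
  · obtain ⟨q, hq, hx⟩ := h1 P hP
    exact ⟨q, hq, hf P hP _ (fun p hp => hp.1) fun x _ hx2 => hx x hx2.1 hx2.2⟩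
  · obtain ⟨P, hP0, hP2, hx⟩ := h2 P₀
    exact ⟨P, hP0, hP2, hf P hP2 _ (fun p hp => hp) fun x hx1 hx2 => hx x hx1 hx2⟩

end Pool.Agent.H91.CL
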