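import Mathlib

/-!
MP_f2ed2a_nt: generalized Collatz maps, basic inequality for cycles.
-/

namespace Pool.Agent.H91.CL

open Finset

/-- the generalized Collatz map of the frozen statement S18955 -/
def collatz (d : ℕ) (m r : ℕ → ℤ) (x : ℤ) : ℤ :=
  (m (x % (d : ℤ)).toNat * x - r (x % (d : ℤ)).toNat) / (d : ℤ)

/-- the hypotheses of S18955: `T` is well defined and of relatively prime type -/
def CoprimeType (d : ℕ) (m r : ℕ → ℤ) : Prop :=
  2 ≤ d ∧ (∀ i : ℕ, i < d → r i ≡ (i : ℤ) * m i [ZMOD (d : ℤ)]) ∧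
    Int.gcd (∏ i ∈ Finset.range d, m i) (d : ℤ) = 1

/-- the multiplier of the cycle through the periodic point `x`: the product of the `m_i` over the
points of the cycle -/
noncomputable def mult (d : ℕ) (m r : ℕ → ℤ) (x : ℤ) : ℤ :=
  ∏ n ∈ range (Function.minimalPeriod (collatz d m r) x),
    m (((collatz d m r)^[n] x) % (d : ℤ)).toNat

/-- `log (|M| / d^p)` for the cycle through `x`, of length `p` and multiplier `M` -/
noncomputable def logMult (d : ℕ) (m r : ℕ → ℤ) (x : ℤ) : ℝ :=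
  Real.log (|(mult d m r x : ℝ)| / (d : ℝ) ^ (Function.minimalPeriod (collatz d m r) x))

/-- the cycles (as sets of integers) of length at most `P` with `|log (|M| / d^p)| ≥ ε` -/
def nonNeutral (d : ℕ) (m r : ℕ → ℤ) (ε : ℝ) (P : ℕ) : Set (Set ℤ) :=
  {C | ∃ x : ℤ, 1 ≤ Function.minimalPeriod (collatz d m r) x ∧
    Function.minimalPeriod (collatz d m r) x ≤ P ∧
    C = Set.range (fun n : ℕ => (collatz d m r)^[n] x) ∧ ε ≤ |logMult d m r x|}

/-- the lengths `p ≤ P` of cycles -/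
def lengths (d : ℕ) (m r : ℕ → ℤ) (P : ℕ) : Set ℕ :=
  {p | 1 ≤ p ∧ p ≤ P ∧ ∃ x : ℤ, Function.minimalPeriod (collatz d m r) x = p}

variable {d : ℕ} {m r : ℕ → ℤ}

theorem cls_lt (hd : 2 ≤ d) (x : ℤ) : (x % (d : ℤ)).toNat < d := by
  have hd0 : (0 : ℤ) < d := by positivity
  have h1 := Int.emod_nonneg x hd0.ne'
  have h2 := Int.emod_lt_of_pos x hd0
  omega

theorem m_ne (hT : CoprimeType d m r) {i : ℕ} (hi : i < d) : m i ≠ 0 := by
  intro h0
  obtain ⟨hd, -, hg⟩ := hT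
  have : ∏ i ∈ Finset.range d, m i = 0 := Finset.prod_eq_zero (mem_range.2 hi) h0
  rw [this] at hg
  simp at hg
  omega

theorem m_cop (hT : CoprimeType d m r) {i : ℕ} (hi : i < d) :
    Nat.Coprime (m i).natAbs d := by
  obtain ⟨hd, -, hg⟩ := hT
  have h1 : IsCoprime (∏ i ∈ Finset.range d, m i) (d : ℤ) := Int.isCoprime_iff_gcd_eq_one.2 hg
  have h2 : IsCoprime (m i) (d : ℤ) :=
    IsCoprime.of_isCoprime_of_dvd_left h1 (Finset.dvd_prod_of_mem _ (mem_range.2 hi))
  have := Int.isCoprime_iff_gcd_eq_one.1 h2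
  simpa [Int.gcd, Nat.Coprime] using this

theorem mul_collatz (hT : CoprimeType d m r) (x : ℤ) :
    (d : ℤ) * collatz d m r x =
      m (x % (d : ℤ)).toNat * x - r (x % (d : ℤ)).toNat := by
  obtain ⟨hd, hr, -⟩ := hT
  have hd0 : (0 : ℤ) < d := by positivity
  have hc := cls_lt hd x
  have h0 : (((x % (d : ℤ)).toNat : ℕ) : ℤ) = x % (d : ℤ) :=
    Int.toNat_of_nonneg (Int.emod_nonneg x hd0.ne')
  have h1 := hr _ hc
  set c := (x % (d : ℤ)).toNat with hcdef
  have h2 : x ≡ (c : ℤ) [ZMOD (d : ℤ)] := by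
    rw [h0]; exact (Int.mod_modEq x d).symm
  have h3 : m c * x ≡ r c [ZMOD (d : ℤ)] := by
    calc m c * x ≡ m c * c [ZMOD (d : ℤ)] := h2.mul_left _
      _ = (c : ℤ) * m c := by ring
      _ ≡ r c [ZMOD (d : ℤ)] := h1.symm
  have h4 : (d : ℤ) ∣ m c * x - r c := (Int.modEq_iff_dvd.1 h3.symm)
  unfold collatz
  rw [← hcdef]
  exact Int.mul_ediv_cancel' h4

/-- the increment of `log |x|` predicted by the class of `x` -/
noncomputable def wt (d : ℕ) (m : ℕ → ℤ) (x : ℤ) : ℝ :=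
  Real.log (|(m (x % (d : ℤ)).toNat : ℝ)| / d)

theorem abs_log_one_sub {u : ℝ} (hu : |u| ≤ 1 / 2) : |Real.log (1 - u)| ≤ 2 * |u| := by
  have h1 := abs_le.1 hu
  have hpos : 0 < 1 - u := by linarith
  have ha : Real.log (1 - u) ≤ |u| := by
    have := Real.log_le_sub_one_of_pos hpos
    have := neg_abs_le u
    linarith
  have hb : -(2 * |u|) ≤ Real.log (1 - u) := by
    have h2 := Real.one_sub_inv_le_log_of_pos hpos
    have h3 : 1 - (1 - u)⁻¹ = -(u / (1 - u)) := by field_simp; ring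
    have h4 : u / (1 - u) ≤ 2 * |u| := by
      rw [div_le_iff₀ hpos]
      have := le_abs_self u
      nlinarith [abs_nonneg u]
    linarith
  rw [abs_le]
  constructor
  · exact hb
  · have := abs_nonneg u; linarith

theorem step (hT : CoprimeType d m r) {R : ℝ} (hR : ∀ i < d, |(r i : ℝ)| ≤ R) (hR1 : 1 ≤ R)
    {x : ℤ} (hx : 2 * R ≤ |(x : ℝ)|) :
    |Real.log |(collatz d m r x : ℝ)| - Real.log |(x : ℝ)| - wt d m x| ≤ 2 * R / |(x : ℝ)| := by
  have hd := hT.1
  have hc := cls_lt hd x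
  have hm0 := m_ne hT hc
  have hmul := mul_collatz hT x
  unfold wt
  set c := (x % (d : ℤ)).toNat
  set y := collatz d m r x with hy
  have hd0 : (0 : ℝ) < d := by positivity
  have hxpos : 0 < |(x : ℝ)| := by linarith
  have hx0 : (x : ℝ) ≠ 0 := abs_pos.1 hxpos
  have hm0' : (m c : ℝ) ≠ 0 := by exact_mod_cast hm0
  have hm1 : 1 ≤ |(m c : ℝ)| := by
    have : 1 ≤ |m c| := Int.one_le_abs hm0
    exact_mod_cast this
  have hmulR : (d : ℝ) * y = m c * x - r c := by exact_mod_cast hmul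
  set u : ℝ := r c / (m c * x) with hu
  have hyu : (y : ℝ) = (m c / d) * x * (1 - u) := by
    rw [hu]; field_simp; linarith
  have hu2 : |u| ≤ R / |(x : ℝ)| := by
    rw [hu, abs_div, abs_mul]
    have h1 := hR c hc
    have h2 : |(x : ℝ)| ≤ |(m c : ℝ)| * |(x : ℝ)| := by nlinarith
    calc |(r c : ℝ)| / (|(m c : ℝ)| * |(x : ℝ)|) ≤ R / (|(m c : ℝ)| * |(x : ℝ)|) := by gcongr
      _ ≤ R / |(x : ℝ)| := by
        apply div_le_div_of_nonneg_left (by linarith) hxpos h2
  have hu3 : |u| ≤ 1 / 2 := by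
    refine hu2.trans ?_
    rw [div_le_iff₀ hxpos]; linarith
  have h1u : 0 < 1 - u := by have := abs_le.1 hu3; linarith
  have hlog : Real.log |(y : ℝ)| = Real.log (|(m c : ℝ)| / d) + Real.log |(x : ℝ)| + Real.log (1 - u) := by
    rw [hyu, abs_mul, abs_mul, abs_div, abs_of_pos h1u, abs_of_pos hd0,
      Real.log_mul (by positivity) h1u.ne', Real.log_mul (by positivity) hxpos.ne']
  rw [hlog]
  have h5 := abs_log_one_sub hu3
  have h6 : Real.log (|(m c : ℝ)| / d) + Real.log |(x : ℝ)| + Real.log (1 - u) - Real.log |(x : ℝ)| -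
      Real.log (|(m c : ℝ)| / d) = Real.log (1 - u) := by ring
  rw [h6]
  calc |Real.log (1 - u)| ≤ 2 * |u| := h5
    _ ≤ 2 * (R / |(x : ℝ)|) := by gcongr
    _ = 2 * R / |(x : ℝ)| := by ring

theorem logMult_eq (hT : CoprimeType d m r) (x : ℤ) :
    logMult d m r x = ∑ n ∈ range (Function.minimalPeriod (collatz d m r) x),
      wt d m ((collatz d m r)^[n] x) := by
  have hd := hT.1
  have hd0 : (0 : ℝ) < d := by positivity
  unfold logMult mult wt
  set p := Function.minimalPeriod (collatz d m r) x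
  rw [Int.cast_prod, abs_prod]
  have h1 : ((d : ℝ)) ^ p = ∏ n ∈ range p, (d : ℝ) := by simp
  rw [h1, ← Finset.prod_div_distrib, Real.log_prod]
  intro n _
  have := m_ne hT (cls_lt hd ((collatz d m r)^[n] x))
  have h2 : ((m (((collatz d m r)^[n] x) % (d : ℤ)).toNat : ℤ) : ℝ) ≠ 0 := by exact_mod_cast this
  positivity

/-- the basic inequality for a cycle avoiding `(-2R, 2R)` -/
theorem cycle_bound (hT : CoprimeType d m r) {R : ℝ} (hR : ∀ i < d, |(r i : ℝ)| ≤ R) (hR1 : 1 ≤ R)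
    {x : ℤ} (hx : ∀ n < Function.minimalPeriod (collatz d m r) x,
      2 * R ≤ |(((collatz d m r)^[n] x : ℤ) : ℝ)|) :
    |logMult d m r x| ≤ ∑ n ∈ range (Function.minimalPeriod (collatz d m r) x),
      2 * R / |(((collatz d m r)^[n] x : ℤ) : ℝ)| := by
  rw [logMult_eq hT]
  set T := collatz d m r with hTdef
  set p := Function.minimalPeriod T x with hp
  rcases Nat.eq_zero_or_pos p with h0 | hppos
  · rw [h0]; simp
  have hper : T^[p] x = x := Function.iterate_minimalPeriod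
  have hx' : ∀ n ≤ p, 2 * R ≤ |((T^[n] x : ℤ) : ℝ)| := by
    intro n hn
    rcases hn.lt_or_eq with h | h
    · exact hx n h
    · rw [h, hper]; simpa using hx 0 hppos
  have htel : ∑ n ∈ range p, (Real.log |((T^[n + 1] x : ℤ) : ℝ)| - Real.log |((T^[n] x : ℤ) : ℝ)|) = 0 := by
    rw [Finset.sum_range_sub (fun n => Real.log |((T^[n] x : ℤ) : ℝ)|)]
    simp [hper]
  have heq : ∑ n ∈ range p, wt d m (T^[n] x) =
      -∑ n ∈ range p, (Real.log |((T^[n + 1] x : ℤ) : ℝ)| - Real.log |((T^[n] x : ℤ) : ℝ)|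
        - wt d m (T^[n] x)) := by
    rw [Finset.sum_sub_distrib, htel]; ring
  rw [heq, abs_neg]
  refine (Finset.abs_sum_le_sum_abs _ _).trans (Finset.sum_le_sum fun n hn => ?_)
  have hn' := mem_range.1 hn
  have h1 : T^[n + 1] x = T (T^[n] x) := Function.iterate_succ_apply' T n x
  rw [h1]
  exact step hT hR hR1 (hx' n hn'.le)

end Pool.Agent.H91.CL
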