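import Mathlib

/-!
MP_f2ed2a_nt: the Diophantine part (Dirichlet approximation, integers `p ≤ P` with `pθ` near an integer).
-/

namespace Pool.Agent.H91.CL

open Finset

/-- integers `p ≤ P` for which `p θ` is within `η` of an integer -/
theorem blocks {θ η : ℝ} (hη : 0 ≤ η) {a : ℤ} {q : ℕ} (hq : 0 < q) (hcop : IsCoprime a (q : ℤ))
    (happ : |(q : ℝ) * θ - a| ≤ 1 / q) {P : ℕ} (S : Finset ℕ) (hS : ∀ p ∈ S, p ≤ P)
    (hK : ∀ p ∈ S, ∃ K : ℤ, |(p : ℝ) * θ + K| ≤ η) :
    (S.card : ℝ) ≤ ((P : ℝ) / q + 1) * (4 * η * q + 3) := by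
  classical
  choose! K hK using hK
  have hq0 : (0 : ℝ) < q := by exact_mod_cast hq
  set D : ℕ := ⌊2 * η * q + 1⌋₊ with hD
  have hDle : (D : ℝ) ≤ 2 * η * q + 1 := Nat.floor_le (by positivity)
  have hfib : ∀ b ∈ range (P / q + 1), (S.filter (fun p => p / q = b)).card ≤ 2 * D + 1 := by
    intro b _
    set F := S.filter (fun p => p / q = b) with hF
    rcases F.eq_empty_or_nonempty with h0 | ⟨p0, hp0⟩
    · rw [h0]; simp
    set z : ℕ → ℤ := fun p => (a * p + q * K p) - (a * p0 + q * K p0) with hz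
    have hdiff : ∀ p ∈ F, ∀ p' ∈ F, |(p : ℤ) - p'| < q := by
      intro p hp p' hp'
      have h1 := (mem_filter.1 hp).2
      have h2 := (mem_filter.1 hp').2
      have h3 := Nat.div_add_mod p q
      have h4 := Nat.div_add_mod p' q
      have h5 := Nat.mod_lt p hq
      have h6 := Nat.mod_lt p' hq
      rw [h1] at h3; rw [h2] at h4
      rw [abs_lt]
      constructor <;> omega
    have hmaps : ∀ p ∈ F, z p ∈ Finset.Icc (-(D : ℤ)) D := by
      intro p hp
      have hp1 := hK p (mem_filter.1 hp).1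
      have hp2 := hK p0 (mem_filter.1 hp0).1
      have hd := hdiff p hp p0 hp0
      have hd' : |(p : ℝ) - p0| ≤ q := by
        have : (((|(p : ℤ) - p0| : ℤ)) : ℝ) ≤ q := by exact_mod_cast hd.le
        simpa using this
      have heq : ((z p : ℤ) : ℝ) = q * (((p : ℝ) * θ + K p) - ((p0 : ℝ) * θ + K p0)) -
          ((p : ℝ) - p0) * (q * θ - a) := by
        rw [hz]; push_cast; ring
      have hle : |((z p : ℤ) : ℝ)| ≤ 2 * η * q + 1 := by
        rw [heq]
        calc |q * (((p : ℝ) * θ + K p) - ((p0 : ℝ) * θ + K p0)) - ((p : ℝ) - p0) * (q * θ - a)|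
            ≤ |q * (((p : ℝ) * θ + K p) - ((p0 : ℝ) * θ + K p0))| + |((p : ℝ) - p0) * (q * θ - a)| :=
              abs_sub _ _
          _ ≤ q * (η + η) + q * (1 / q) := by
              rw [abs_mul, abs_mul, abs_of_pos hq0]
              gcongr
              exact (abs_sub _ _).trans (add_le_add hp1 hp2)
          _ = 2 * η * q + 1 := by field_simp; ring
      have h7 : (z p).natAbs ≤ D := by
        apply Nat.le_floor
        rw [Nat.cast_natAbs]
        push_cast
        exact hle
      rw [Finset.mem_Icc]; omega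
    have hinj : Set.InjOn z (F : Set ℕ) := by
      intro p hp p' hp' h
      have h8 : a * ((p : ℤ) - p') = q * (K p' - K p) := by
        simp only [hz] at h
        linarith
      have h9 : (q : ℤ) ∣ a * ((p : ℤ) - p') := ⟨_, h8⟩
      have h10 : (q : ℤ) ∣ (p : ℤ) - p' := hcop.symm.dvd_of_dvd_mul_left h9
      have h11 := hdiff p hp p' hp'
      have h12 := Int.eq_zero_of_abs_lt_dvd h10 h11
      omega
    have := Finset.card_le_card_of_injOn _ hmaps hinj
    rw [Int.card_Icc] at this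
    omega
  have hmaps : ∀ p ∈ S, p / q ∈ range (P / q + 1) := by
    intro p hp
    rw [mem_range]
    exact Nat.lt_succ_of_le (Nat.div_le_div_right (hS p hp))
  have hcard := Finset.card_le_mul_card_image_of_maps_to hmaps (2 * D + 1) hfib
  rw [card_range] at hcard
  have hcardR : (S.card : ℝ) ≤ (2 * D + 1) * ((P / q : ℕ) + 1) := by exact_mod_cast hcard
  have hdiv : (((P / q : ℕ)) : ℝ) ≤ (P : ℝ) / q := Nat.cast_div_le
  calc (S.card : ℝ) ≤ (2 * D + 1) * ((P / q : ℕ) + 1) := hcardR
    _ ≤ (4 * η * q + 3) * ((P : ℝ) / q + 1) :=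
        mul_le_mul (by linarith) (by linarith) (by positivity) (by positivity)
    _ = ((P : ℝ) / q + 1) * (4 * η * q + 3) := by ring

theorem inv_max_le {U V : ℕ} (hU : 0 < U) (hV : 0 < V) (hne : U ≠ V) {W : ℝ} (hUW : (U : ℝ) ≤ W)
    (hVW : (V : ℝ) ≤ W) : 1 / W ≤ |Real.log U - Real.log V| := by
  have key : ∀ {A B : ℕ}, 0 < A → A < B → (B : ℝ) ≤ W → 1 / W ≤ Real.log B - Real.log A := by
    intro A B hA hAB hBW
    have hA0 : (0 : ℝ) < A := by exact_mod_cast hA
    have hB0 : (0 : ℝ) < B := by exact_mod_cast hA.trans hAB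
    have h1 : (A : ℝ) + 1 ≤ B := by exact_mod_cast hAB
    rw [← Real.log_div hB0.ne' hA0.ne']
    have h2 := Real.one_sub_inv_le_log_of_pos (show (0 : ℝ) < B / A by positivity)
    have h3 : 1 - ((B : ℝ) / A)⁻¹ = (B - A) / B := by field_simp
    rw [h3] at h2
    refine le_trans ?_ h2
    calc 1 / W ≤ 1 / B := by gcongr
      _ ≤ (B - A) / B := by gcongr; linarith
  rcases lt_or_gt_of_ne hne with h | h
  · rw [abs_sub_comm]
    exact (key hU h hVW).trans (le_abs_self _)
  · exact (key hV h hUW).trans (le_abs_self _)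

/-- the Liouville type bound -/
theorem liou {A B D : ℕ} (hA : 0 < A) (hB : 0 < B) (hD : 2 ≤ D) (hAD : Nat.Coprime A D)
    (hBD : Nat.Coprime B D) {e1 e2 e3 : ℤ} (he3 : e3 ≠ 0) :
    Real.exp (-((|e1| + |e2| + |e3| : ℤ) : ℝ) * Real.log (A * B * D)) ≤
      |e1 * Real.log A + e2 * Real.log B + e3 * Real.log D| := by
  have hA0 : (0 : ℝ) < A := by exact_mod_cast hA
  have hB0 : (0 : ℝ) < B := by exact_mod_cast hB
  have hD0 : (0 : ℝ) < D := by positivity
  have hE : (1 : ℝ) ≤ A * B * D := by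
    have : 1 ≤ A * B * D := Nat.mul_pos (Nat.mul_pos hA hB) (by omega)
    exact_mod_cast this
  set U : ℕ := A ^ e1.toNat * B ^ e2.toNat * D ^ e3.toNat with hU
  set V : ℕ := A ^ (-e1).toNat * B ^ (-e2).toNat * D ^ (-e3).toNat with hV
  have hUpos : 0 < U := by positivity
  have hVpos : 0 < V := by positivity
  have hne : U ≠ V := by
    intro h
    rcases lt_or_gt_of_ne he3 with h3 | h3
    · have h4 : e3.toNat = 0 := Int.toNat_of_nonpos h3.le
      have h5 : (-e3).toNat ≠ 0 := by omega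
      have hcop : Nat.Coprime U D := by
        rw [hU, h4, pow_zero, mul_one]
        exact Nat.Coprime.mul_left (hAD.pow_left _) (hBD.pow_left _)
      have hdvd : D ∣ V := by
        rw [hV]; exact dvd_mul_of_dvd_right (dvd_pow_self D h5) _
      rw [← h] at hdvd
      have := Nat.eq_one_of_dvd_coprimes hcop hdvd dvd_rfl
      omega
    · have h4 : (-e3).toNat = 0 := Int.toNat_of_nonpos (by omega)
      have h5 : e3.toNat ≠ 0 := by omega
      have hcop : Nat.Coprime V D := by
        rw [hV, h4, pow_zero, mul_one]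
        exact Nat.Coprime.mul_left (hAD.pow_left _) (hBD.pow_left _)
      have hdvd : D ∣ U := by
        rw [hU]; exact dvd_mul_of_dvd_right (dvd_pow_self D h5) _
      rw [h] at hdvd
      have := Nat.eq_one_of_dvd_coprimes hcop hdvd dvd_rfl
      omega
  set n : ℕ := e1.natAbs + e2.natAbs + e3.natAbs with hn
  have hA1 : 1 ≤ A * B * D := Nat.mul_pos (Nat.mul_pos hA hB) (by omega)
  have hle : ∀ {i j k : ℕ}, i ≤ e1.natAbs → j ≤ e2.natAbs → k ≤ e3.natAbs →
      A ^ i * B ^ j * D ^ k ≤ (A * B * D) ^ n := by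
    intro i j k hi hj hk
    have h1 : A ≤ A * B * D := by
      calc A = A * 1 * 1 := by ring
        _ ≤ A * B * D := Nat.mul_le_mul (Nat.mul_le_mul le_rfl hB) (by omega)
    have h2 : B ≤ A * B * D := by
      calc B = 1 * B * 1 := by ring
        _ ≤ A * B * D := Nat.mul_le_mul (Nat.mul_le_mul hA le_rfl) (by omega)
    have h3 : D ≤ A * B * D := Nat.le_mul_of_pos_left _ (Nat.mul_pos hA hB)
    calc A ^ i * B ^ j * D ^ k ≤ (A * B * D) ^ i * (A * B * D) ^ j * (A * B * D) ^ k := by gcongr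
      _ = (A * B * D) ^ (i + j + k) := by rw [pow_add, pow_add]
      _ ≤ (A * B * D) ^ n := Nat.pow_le_pow_right hA1 (by omega)
  have hUle : (U : ℝ) ≤ ((A * B * D : ℝ)) ^ n := by
    have := hle (i := e1.toNat) (j := e2.toNat) (k := e3.toNat) (by omega) (by omega) (by omega)
    rw [hU]; exact_mod_cast this
  have hVle : (V : ℝ) ≤ ((A * B * D : ℝ)) ^ n := by
    have := hle (i := (-e1).toNat) (j := (-e2).toNat) (k := (-e3).toNat) (by omega) (by omega)
      (by omega)
    rw [hV]; exact_mod_cast this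
  have hmain := inv_max_le hUpos hVpos hne hUle hVle
  have hlogU : Real.log U = (e1.toNat : ℝ) * Real.log A + (e2.toNat : ℝ) * Real.log B +
      (e3.toNat : ℝ) * Real.log D := by
    rw [hU]; push_cast
    rw [Real.log_mul (by positivity) (by positivity), Real.log_mul (by positivity) (by positivity),
      Real.log_pow, Real.log_pow, Real.log_pow]
  have hlogV : Real.log V = ((-e1).toNat : ℝ) * Real.log A + ((-e2).toNat : ℝ) * Real.log B +
      ((-e3).toNat : ℝ) * Real.log D := by
    rw [hV]; push_cast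
    rw [Real.log_mul (by positivity) (by positivity), Real.log_mul (by positivity) (by positivity),
      Real.log_pow, Real.log_pow, Real.log_pow]
  have hpm : ∀ e : ℤ, ((e.toNat : ℕ) : ℝ) - (((-e).toNat : ℕ) : ℝ) = (e : ℝ) := by
    intro e
    have : ((e.toNat : ℕ) : ℤ) - (((-e).toNat : ℕ) : ℤ) = e := by omega
    exact_mod_cast this
  have hdiff : Real.log U - Real.log V = e1 * Real.log A + e2 * Real.log B + e3 * Real.log D := by
    rw [hlogU, hlogV, ← hpm e1, ← hpm e2, ← hpm e3]; ring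
  rw [hdiff] at hmain
  refine le_trans (le_of_eq ?_) hmain
  have hnR : ((|e1| + |e2| + |e3| : ℤ) : ℝ) = (n : ℝ) := by
    have : (|e1| + |e2| + |e3| : ℤ) = (n : ℤ) := by rw [hn]; push_cast; rfl
    rw [this]; simp
  rw [hnR, neg_mul, Real.exp_neg, one_div, mul_comm, Real.exp_mul, Real.exp_log (by positivity),
    Real.rpow_natCast]

end Pool.Agent.H91.CL
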