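import Pool.Agent.H91.CL.Cnt
import Pool.Agent.H91.CL.Dio

/-!
MP_f2ed2a_nt: lengths of cycles of generalized Collatz maps of relatively prime type.
-/

namespace Pool.Agent.H91.CL

open Finset

variable {d : ℕ} {m r : ℕ → ℤ}

theorem exists_R (d : ℕ) (r : ℕ → ℤ) : ∃ R : ℕ, 1 ≤ R ∧ ∀ i < d, |(r i : ℝ)| ≤ R := by
  refine ⟨∑ i ∈ range d, (r i).natAbs + 1, by omega, fun i hi => ?_⟩
  have h1 : (r i).natAbs ≤ ∑ i ∈ range d, (r i).natAbs :=
    Finset.single_le_sum (f := fun i => (r i).natAbs) (fun _ _ => Nat.zero_le _) (mem_range.2 hi)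
  have h2 : |(r i : ℝ)| = ((r i).natAbs : ℝ) := by
    rw [Nat.cast_natAbs]; push_cast; rfl
  rw [h2]
  have h3 : (r i).natAbs ≤ ∑ i ∈ range d, (r i).natAbs + 1 := by omega
  exact_mod_cast h3

theorem orb_subset {T : ℤ → ℤ} {x y : ℤ} (hx : 1 ≤ Function.minimalPeriod T x) {a b : ℕ}
    (h : T^[a] x = T^[b] y) :
    Set.range (fun n : ℕ => T^[n] x) ⊆ Set.range (fun n : ℕ => T^[n] y) := by
  rintro _ ⟨n, rfl⟩
  set p := Function.minimalPeriod T x with hp
  have hper : Function.IsPeriodicPt T (a * p) x :=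
    (Function.isPeriodicPt_minimalPeriod T x).const_mul a
  have h1 : T^[a * p] x = x := hper
  have hap : a ≤ a * p := Nat.le_mul_of_pos_right a hx
  refine ⟨n + a * p - a + b, ?_⟩
  have h2 : T^[n] x = T^[n + a * p] x := by
    rw [Function.iterate_add_apply, h1]
  have h3 : n + a * p = (n + a * p - a) + a := by omega
  change T^[n + a * p - a + b] y = T^[n] x
  rw [h2]
  conv_rhs => rw [h3]
  rw [Function.iterate_add_apply, Function.iterate_add_apply, h]

theorem orb_eq {T : ℤ → ℤ} {x y : ℤ} (hx : 1 ≤ Function.minimalPeriod T x)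
    (hy : 1 ≤ Function.minimalPeriod T y) {a b : ℕ} (h : T^[a] x = T^[b] y) :
    Set.range (fun n : ℕ => T^[n] x) = Set.range (fun n : ℕ => T^[n] y) :=
  Set.Subset.antisymm (orb_subset hx h) (orb_subset hy h.symm)

theorem periodic_of {T : ℤ → ℤ} {x : ℤ} (hx : 1 ≤ Function.minimalPeriod T x) :
    x ∈ Function.periodicPts T := Function.minimalPeriod_pos_iff_mem_periodicPts.1 hx

theorem part_one (hT : CoprimeType d m r) {ε : ℝ} (hε : 0 < ε) :
    ∃ C : ℝ, ∀ P : ℕ, 2 ≤ P → (nonNeutral d m r ε P).Finite ∧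
      ((nonNeutral d m r ε P).ncard : ℝ) ≤ C * Real.log P := by
  classical
  obtain ⟨R, hR1, hR⟩ := exists_R d r
  have hR1' : (1 : ℝ) ≤ R := by exact_mod_cast hR1
  have hR0 : (0 : ℝ) < R := by linarith
  set K : ℝ := 2 * R + 4 * R / ε + 1 with hKdef
  have hK1 : 1 ≤ K := by
    have : 0 < 4 * (R : ℝ) / ε := by positivity
    rw [hKdef]; linarith
  refine ⟨(4 * R + 8 * R / ε * (1 + Real.log K)) / Real.log 2 + 8 * R / ε, fun P hP => ?_⟩
  have hP1 : (1 : ℝ) ≤ P := by exact_mod_cast (by omega : 1 ≤ P)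
  have hlog2 : 0 < Real.log 2 := Real.log_pos (by norm_num)
  have hlogP : Real.log 2 ≤ Real.log P := Real.log_le_log (by norm_num) (by exact_mod_cast hP)
  set B : ℕ := 2 * R + ⌈4 * R * P / ε⌉₊ with hBdef
  have hB1 : 2 * R ≤ B := by omega
  have hB : 4 * R * P / ε ≤ B := by
    refine (Nat.le_ceil _).trans ?_
    rw [hBdef]; push_cast; linarith
  have hBpos : (0 : ℝ) < B := by
    have : 0 < B := by omega
    exact_mod_cast this
  have hBle : (B : ℝ) ≤ K * P := by
    have h1 : (⌈4 * R * P / ε⌉₊ : ℝ) ≤ 4 * R * P / ε + 1 := (Nat.ceil_lt_add_one (by positivity)).le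
    rw [hBdef, hKdef]; push_cast
    have h2 : (2 * (R : ℝ) + 4 * R / ε + 1) * P = 2 * R * P + 4 * R * P / ε + P := by ring
    rw [h2]
    nlinarith
  have hlogB : Real.log B ≤ Real.log K + Real.log P := by
    rw [← Real.log_mul (by positivity) (by positivity)]
    exact Real.log_le_log hBpos hBle
  -- every such cycle meets `[-B, B]`
  have hmeet : nonNeutral d m r ε P ⊆
      (fun y : ℤ => Set.range (fun n : ℕ => (collatz d m r)^[n] y)) '' (Set.Icc (-(B : ℤ)) B) := by
    rintro C ⟨x, hx1, hxP, rfl, hxε⟩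
    set T := collatz d m r with hTdef
    by_cases hex : ∃ n < Function.minimalPeriod T x, |T^[n] x| ≤ (B : ℤ)
    · obtain ⟨n, hn, hnB⟩ := hex
      refine ⟨T^[n] x, abs_le.1 hnB, ?_⟩
      have hper := periodic_of hx1
      have hmp : Function.minimalPeriod T (T^[n] x) = Function.minimalPeriod T x :=
        Function.minimalPeriod_apply_iterate hper n
      exact orb_eq (a := 0) (b := n) (by rw [hmp]; exact hx1) hx1 rfl
    · exfalso
      push Not at hex
      have hlarge : ∀ n < Function.minimalPeriod T x, 2 * (R : ℝ) ≤ |((T^[n] x : ℤ) : ℝ)| := by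
        intro n hn
        have h1 := hex n hn
        have h2 : (2 * R : ℤ) ≤ |T^[n] x| := by
          have : (2 * R : ℤ) ≤ B := by exact_mod_cast hB1
          linarith
        exact_mod_cast h2
      have hb := cycle_bound hT hR hR1' hlarge
      have h3 : ∀ n ∈ range (Function.minimalPeriod T x),
          2 * (R : ℝ) / |((T^[n] x : ℤ) : ℝ)| ≤ 2 * R / B := by
        intro n hn
        have h4 := hex n (mem_range.1 hn)
        have h5 : (B : ℝ) ≤ |((T^[n] x : ℤ) : ℝ)| := by exact_mod_cast h4.le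
        gcongr
      have h6 := Finset.sum_le_card_nsmul _ _ _ h3
      rw [card_range, nsmul_eq_mul] at h6
      have h7 : (Function.minimalPeriod T x : ℝ) ≤ P := by exact_mod_cast hxP
      have h8 : (Function.minimalPeriod T x : ℝ) * (2 * R / B) ≤ P * (2 * R / B) := by gcongr
      have h9 : (P : ℝ) * (2 * R / B) ≤ ε / 2 := by
        rw [div_le_iff₀ hε] at hB
        rw [mul_div_assoc', div_le_div_iff₀ hBpos (by norm_num)]
        linarith
      linarith
  have hfin : (nonNeutral d m r ε P).Finite := ((Set.finite_Icc _ _).image _).subset hmeet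
  refine ⟨hfin, ?_⟩
  have hch : ∀ C ∈ hfin.toFinset, ∃ x : ℤ, 1 ≤ Function.minimalPeriod (collatz d m r) x ∧
      Function.minimalPeriod (collatz d m r) x ≤ P ∧
      C = Set.range (fun n : ℕ => (collatz d m r)^[n] x) ∧ ε ≤ |logMult d m r x| := by
    intro C hC
    exact hfin.mem_toFinset.1 hC
  choose! x hx1 hxP hxC hxε using hch
  have hcount := count hT hR hR1 hε hfin.toFinset x hxP
    (by
      intro C hC C' hC' hne a b h
      apply hne
      rw [hxC C hC, hxC C' hC']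
      exact orb_eq (hx1 C hC) (hx1 C' hC') h) hxε hB1 hB
  rw [Set.ncard_eq_toFinset_card _ hfin]
  refine hcount.trans ?_
  have h10 : (1 : ℝ) ≤ Real.log P / Real.log 2 := by rw [one_le_div hlog2]; exact hlogP
  have hlK : 0 ≤ Real.log K := Real.log_nonneg hK1
  have h11 : 4 * (R : ℝ) + 8 * R / ε * (1 + Real.log B) ≤
      (4 * R + 8 * R / ε * (1 + Real.log K)) + 8 * R / ε * Real.log P := by
    have : 8 * (R : ℝ) / ε * (1 + Real.log B) ≤ 8 * R / ε * (1 + (Real.log K + Real.log P)) := by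
      gcongr
    linarith
  have h12 : (4 * R + 8 * R / ε * (1 + Real.log K)) ≤
      (4 * R + 8 * R / ε * (1 + Real.log K)) * (Real.log P / Real.log 2) :=
    le_mul_of_one_le_right (by positivity) h10
  calc 4 * (R : ℝ) + 8 * R / ε * (1 + Real.log B) ≤
      (4 * R + 8 * R / ε * (1 + Real.log K)) * (Real.log P / Real.log 2) + 8 * R / ε * Real.log P := by
        linarith
    _ = ((4 * R + 8 * R / ε * (1 + Real.log K)) / Real.log 2 + 8 * R / ε) * Real.log P := by ring

/-- lengths of cycles: the count in terms of a Dirichlet approximation -/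
theorem len_count (hT : CoprimeType d m r) {β τ : ℝ} (hτ : τ ≠ 0) {k : ℕ → ℤ}
    (hk : ∀ i < d, Real.log (|(m i : ℝ)| / d) = β + k i * τ) :
    ∃ C : ℝ, 0 ≤ C ∧ ∀ P : ℕ, 2 ≤ P → ∀ (q : ℕ) (a : ℤ), 0 < q → q ≤ P → IsCoprime a (q : ℤ) →
      |(q : ℝ) * (β / τ) - a| ≤ 1 / q →
      ((lengths d m r P).ncard : ℝ) ≤ C * ((P : ℝ) / q + Real.sqrt (P * Real.log P)) := by
  classical
  obtain ⟨R, hR1, hR⟩ := exists_R d r
  have hR1' : (1 : ℝ) ≤ R := by exact_mod_cast hR1
  have hR0 : (0 : ℝ) < R := by linarith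
  have hτ0 : 0 < |τ| := abs_pos.2 hτ
  have hlog2 : 0 < Real.log 2 := Real.log_pos (by norm_num)
  have hl11 : 0 ≤ Real.log (11 * R) := Real.log_nonneg (by linarith)
  set C1 : ℝ := 4 * R + 8 * R * ((1 + Real.log (11 * R)) / Real.log 2 + 2) + 8 / |τ| with hC1
  have hC1pos : 0 ≤ C1 := by positivity
  refine ⟨C1 + 6, by linarith, fun P hP q a hq hqP hcop happ => ?_⟩
  set L : ℝ := Real.log P with hL
  have hP2 : (2 : ℝ) ≤ P := by exact_mod_cast hP
  have hP0 : (0 : ℝ) < P := by linarith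
  have hLge : Real.log 2 ≤ L := Real.log_le_log (by norm_num) hP2
  have hL0 : 0 < L := lt_of_lt_of_le hlog2 hLge
  have hL2 : (0.69 : ℝ) ≤ L := by have := Real.log_two_gt_d9; linarith
  set S : ℝ := Real.sqrt (P * L) with hS
  have hPL : 1 ≤ (P : ℝ) * L := by nlinarith
  have hS1 : 1 ≤ S := by rw [hS]; exact Real.one_le_sqrt.2 hPL
  have hSS : S * S = P * L := Real.mul_self_sqrt (by positivity)
  -- `ε = S / P = sqrt (L / P)`
  set ε : ℝ := S / P with hε
  have hε0 : 0 < ε := by positivity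
  have hinv : 1 / ε = S / L := by
    rw [hε]
    field_simp
    nlinarith [hSS]
  -- the finite set of lengths
  have hfin : (lengths d m r P).Finite :=
    (Set.finite_Icc 1 P).subset (by rintro p ⟨h1, h2, -⟩; exact ⟨h1, h2⟩)
  set s := hfin.toFinset with hs
  have hmem : ∀ p ∈ s, 1 ≤ p ∧ p ≤ P ∧ ∃ x : ℤ, Function.minimalPeriod (collatz d m r) x = p :=
    fun p hp => hfin.mem_toFinset.1 hp
  have hch : ∀ p ∈ s, ∃ x : ℤ, Function.minimalPeriod (collatz d m r) x = p :=
    fun p hp => (hmem p hp).2.2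
  choose! x hx using hch
  set s1 := s.filter (fun p => ε ≤ |logMult d m r (x p)|) with hs1
  set s2 := s.filter (fun p => ¬ ε ≤ |logMult d m r (x p)|) with hs2
  have hcard : s.card = s1.card + s2.card := by
    rw [hs1, hs2, Finset.card_filter_add_card_filter_not]
  set B : ℕ := 2 * R + ⌈4 * R * P / ε⌉₊ with hBdef
  have hB1 : 2 * R ≤ B := by omega
  have hB : 4 * R * P / ε ≤ B := by
    refine (Nat.le_ceil _).trans ?_
    rw [hBdef]; push_cast; linarith
  have hBpos : (0 : ℝ) < B := by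
    have : 0 < B := by omega
    exact_mod_cast this
  have hSL : S / L ≤ 2 * P := by
    rw [div_le_iff₀ hL0]
    have h1 : S ≤ P * L + 1 := by
      rw [← hSS]; nlinarith
    nlinarith
  have hBle : (B : ℝ) ≤ 11 * R * (P : ℝ) ^ 2 := by
    have h1 : (⌈4 * R * P / ε⌉₊ : ℝ) ≤ 4 * R * P / ε + 1 := (Nat.ceil_lt_add_one (by positivity)).le
    have h2 : 4 * (R : ℝ) * P / ε = 4 * R * P * (S / L) := by rw [← hinv]; ring
    have h3 : 4 * (R : ℝ) * P * (S / L) ≤ 4 * R * P * (2 * P) := by gcongr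
    have h4 : 4 ≤ (P : ℝ) ^ 2 := by nlinarith
    have h5 : (R : ℝ) * 4 ≤ R * (P : ℝ) ^ 2 := by gcongr
    have h7 : (⌈4 * R * P / ε⌉₊ : ℝ) ≤ 4 * R * P * (2 * P) + 1 := by linarith
    rw [hBdef]; push_cast
    nlinarith
  have hlogB : Real.log B ≤ Real.log (11 * R) + 2 * L := by
    have h1 := Real.log_le_log hBpos hBle
    rw [Real.log_mul (by positivity) (by positivity), Real.log_pow] at h1
    simpa using h1
  have hcount1 : (s1.card : ℝ) ≤ 4 * R + 8 * R / ε * (1 + Real.log B) := by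
    apply count hT hR hR1 hε0 s1 x _ _ _ hB1 hB
    · intro p hp
      have h1 := (mem_filter.1 hp).1
      rw [hx p h1]
      exact (hmem p h1).2.1
    · intro p hp p' hp' hne a b h
      apply hne
      have h1 := (mem_filter.1 hp).1
      have h2 := (mem_filter.1 hp').1
      have h3 : 1 ≤ Function.minimalPeriod (collatz d m r) (x p) := by
        rw [hx p h1]; exact (hmem p h1).1
      have h4 : 1 ≤ Function.minimalPeriod (collatz d m r) (x p') := by
        rw [hx p' h2]; exact (hmem p' h2).1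
      rw [← hx p h1, ← hx p' h2, ← Function.minimalPeriod_apply_iterate (periodic_of h3) a,
        ← Function.minimalPeriod_apply_iterate (periodic_of h4) b, h]
    · intro p hp
      exact (mem_filter.1 hp).2
  have hcount2 : (s2.card : ℝ) ≤ ((P : ℝ) / q + 1) * (4 * (ε / |τ|) * q + 3) := by
    apply blocks (θ := β / τ) (by positivity) hq hcop happ s2
    · intro p hp
      exact (hmem p (mem_filter.1 hp).1).2.1
    · intro p hp
      have h1 := (mem_filter.1 hp).1
      have h2 := (mem_filter.1 hp).2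
      push Not at h2
      rw [logMult_eq hT, hx p h1] at h2
      refine ⟨∑ n ∈ range p, k (((collatz d m r)^[n] (x p)) % (d : ℤ)).toNat, ?_⟩
      have h3 : ∑ n ∈ range p, wt d m ((collatz d m r)^[n] (x p)) =
          τ * ((p : ℝ) * (β / τ) + ((∑ n ∈ range p,
            k (((collatz d m r)^[n] (x p)) % (d : ℤ)).toNat : ℤ) : ℝ)) := by
        have h4 : ∀ n ∈ range p, wt d m ((collatz d m r)^[n] (x p)) =
            β + k (((collatz d m r)^[n] (x p)) % (d : ℤ)).toNat * τ := by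
          intro n _
          exact hk _ (cls_lt hT.1 _)
        rw [Finset.sum_congr rfl h4, Finset.sum_add_distrib, ← Finset.sum_mul]
        push_cast
        rw [Finset.sum_const, card_range, nsmul_eq_mul]
        field_simp
      rw [h3, abs_mul] at h2
      rw [le_div_iff₀ hτ0]
      linarith
  rw [Set.ncard_eq_toFinset_card _ hfin, ← hs, hcard]
  push_cast
  have hq0 : (0 : ℝ) < q := by exact_mod_cast hq
  have hqP' : (q : ℝ) ≤ P := by exact_mod_cast hqP
  have hPq : 1 ≤ (P : ℝ) / q := by rw [one_le_div hq0]; exact hqP'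
  have hεP : ε * P = S := by rw [hε]; field_simp
  have e1 : 4 * (R : ℝ) + 8 * R / ε * (1 + Real.log B) ≤
      4 * R * S + 8 * R * ((1 + Real.log (11 * R)) / Real.log 2 + 2) * S := by
    have h1 : 8 * (R : ℝ) / ε = 8 * R * (S / L) := by rw [← hinv]; ring
    rw [h1]
    have h2 : 8 * (R : ℝ) * (S / L) * (1 + Real.log B) ≤
        8 * R * (S / L) * (1 + (Real.log (11 * R) + 2 * L)) := by gcongr
    have h3 : 8 * (R : ℝ) * (S / L) * (1 + (Real.log (11 * R) + 2 * L)) =
        8 * R * S * ((1 + Real.log (11 * R)) / L + 2) := by field_simp; ring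
    have h4 : (1 + Real.log (11 * R)) / L ≤ (1 + Real.log (11 * R)) / Real.log 2 := by gcongr
    have h5 : 8 * (R : ℝ) * S * ((1 + Real.log (11 * R)) / L + 2) ≤
        8 * R * S * ((1 + Real.log (11 * R)) / Real.log 2 + 2) := by gcongr
    have h6 : 4 * (R : ℝ) ≤ 4 * R * S := le_mul_of_one_le_right (by positivity) hS1
    nlinarith
  have e2 : ((P : ℝ) / q + 1) * (4 * (ε / |τ|) * q + 3) ≤ 8 / |τ| * S + 6 * (P / q) := by
    have h1 : ((P : ℝ) / q + 1) * (4 * (ε / |τ|) * q + 3) =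
        4 * (ε * P) / |τ| + 4 * (ε * q) / |τ| + 3 * (P / q) + 3 := by field_simp; ring
    have h2 : ε * q ≤ ε * P := by gcongr
    have h3 : 4 * (ε * q) / |τ| ≤ 4 * (ε * P) / |τ| := by gcongr
    rw [hεP] at h1 h3
    rw [h1]
    have h4 : 8 / |τ| * S = 4 * S / |τ| + 4 * S / |τ| := by ring
    rw [h4]
    linarith
  have e3 : (C1 + 6) * ((P : ℝ) / q + S) = C1 * S + 6 * (P / q) + C1 * (P / q) + 6 * S := by ring
  rw [e3, hC1]
  have h7 : 0 ≤ (4 * R + 8 * R * ((1 + Real.log (11 * R)) / Real.log 2 + 2) + 8 / |τ|) * ((P : ℝ) / q) := by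
    positivity
  nlinarith

/-- lower bound for the denominators of the Dirichlet approximations -/
theorem q_lower {A B D : ℕ} (hA : 0 < A) (hB : 0 < B) (hD : 2 ≤ D) (hAD : Nat.Coprime A D)
    (hBD : Nat.Coprime B D) {k : ℤ} (hk : k ≠ 0) {β τ : ℝ} (hτ : τ ≠ 0)
    (hkτ : k * τ = Real.log B - Real.log A) (hβ : β = Real.log A - Real.log D) :
    ∃ c : ℝ, 0 < c ∧ ∀ (n : ℕ) (q : ℕ) (a : ℤ), 1 ≤ n → 0 < q →
      |(q : ℝ) * (β / τ) - a| ≤ 1 / (n + 1) → c * Real.log n ≤ q := by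
  set θ : ℝ := β / τ with hθ
  have hE : (1 : ℝ) ≤ A * B * D := by
    have : 1 ≤ A * B * D := Nat.mul_pos (Nat.mul_pos hA hB) (by omega)
    exact_mod_cast this
  have hlogE : 0 ≤ Real.log (A * B * D) := Real.log_nonneg hE
  set C1 : ℝ := (2 * |(k : ℝ)| + 2 * |θ| + 2) * Real.log (A * B * D) with hC1
  have hC1n : 0 ≤ C1 := by positivity
  set Lk : ℝ := Real.log (|(k : ℝ) * τ|) with hLk
  refine ⟨1 / (C1 + |Lk| + 1), by positivity, fun n q a hn hq happ => ?_⟩
  have hq1 : (1 : ℝ) ≤ q := by exact_mod_cast hq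
  have hn1 : (1 : ℝ) ≤ n := by exact_mod_cast hn
  have hkτ0 : (k : ℝ) * τ ≠ 0 := mul_ne_zero (by exact_mod_cast hk) hτ
  have he3 : -(k * (q : ℤ)) ≠ 0 := by
    have : (q : ℤ) ≠ 0 := by exact_mod_cast hq.ne'
    exact neg_ne_zero.2 (mul_ne_zero hk this)
  have h1 := liou hA hB hD hAD hBD (e1 := k * q + a) (e2 := -a) he3
  have h2 : (((k * q + a : ℤ)) : ℝ) * Real.log A + ((-a : ℤ) : ℝ) * Real.log B +
      ((-(k * (q : ℤ)) : ℤ) : ℝ) * Real.log D = (k * τ) * (q * θ - a) := by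
    have h3 : (k * τ) * (q * θ - a) = k * q * β - a * (k * τ) := by
      rw [hθ]; field_simp
    rw [h3, hkτ, hβ]; push_cast; ring
  rw [h2, abs_mul] at h1
  have ha : |(a : ℝ)| ≤ q * (|θ| + 1) := by
    have h4 : |(a : ℝ)| ≤ |(q : ℝ) * θ| + |(q : ℝ) * θ - a| := by
      have := abs_sub_abs_le_abs_sub (a : ℝ) ((q : ℝ) * θ)
      rw [abs_sub_comm] at this
      linarith
    have h5 : (1 : ℝ) / (n + 1) ≤ 1 := by
      rw [div_le_one (by positivity)]; linarith
    rw [abs_mul, abs_of_pos (by linarith : (0 : ℝ) < q)] at h4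
    nlinarith
  have hEle : (((|k * q + a| + |-a| + |-(k * (q : ℤ))| : ℤ)) : ℝ) ≤
      q * (2 * |(k : ℝ)| + 2 * |θ| + 2) := by
    push_cast
    rw [abs_neg, abs_neg, abs_mul, abs_of_pos (by linarith : (0 : ℝ) < (q : ℝ))]
    have h6 : |(k : ℝ) * q + a| ≤ |(k : ℝ)| * q + |(a : ℝ)| := by
      refine (abs_add_le _ _).trans ?_
      rw [abs_mul, abs_of_pos (by linarith : (0 : ℝ) < (q : ℝ))]
    nlinarith
  have h7 : Real.exp (-(q * C1)) ≤ |(k : ℝ) * τ| * (1 / (n + 1)) := by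
    calc Real.exp (-(q * C1)) ≤ Real.exp (-(((|k * q + a| + |-a| + |-(k * (q : ℤ))| : ℤ)) : ℝ) *
          Real.log (A * B * D)) := by
          apply Real.exp_le_exp.2
          rw [hC1]
          have := mul_le_mul_of_nonneg_right hEle hlogE
          linarith
      _ ≤ |(k : ℝ) * τ| * |(q : ℝ) * θ - a| := h1
      _ ≤ |(k : ℝ) * τ| * (1 / (n + 1)) := by gcongr
  have h8 := Real.log_le_log (Real.exp_pos _) h7
  rw [Real.log_exp, Real.log_mul (abs_pos.2 hkτ0).ne' (by positivity), one_div, Real.log_inv] at h8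
  have h9 : Real.log n ≤ Real.log (n + 1) := Real.log_le_log (by linarith) (by linarith)
  have h10 : Real.log n ≤ q * C1 + |Lk| := by
    have := le_abs_self Lk
    linarith
  have h11 : q * C1 + |Lk| ≤ q * (C1 + |Lk| + 1) := by
    have := abs_nonneg Lk
    nlinarith
  rw [one_div, inv_mul_le_iff₀ (by positivity)]
  linarith

theorem part_two (hT : CoprimeType d m r)
    (hρ : ∃ ρ : ℚ, 0 < ρ ∧ ∀ i < d, ∃ k : ℤ, |(m i : ℚ)| = |(m 0 : ℚ)| * ρ ^ k) :
    (∃ C : ℝ, ∀ P : ℕ, 2 ≤ P → ((lengths d m r P).ncard : ℝ) ≤ C * P / Real.log P) ∧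
    (∃ C : ℝ, ∀ P₀ : ℕ, ∃ P : ℕ, P₀ ≤ P ∧ 2 ≤ P ∧
      ((lengths d m r P).ncard : ℝ) ≤ C * Real.sqrt (P * Real.log P)) := by
  have hd := hT.1
  have hd0 : (0 : ℝ) < d := by positivity
  set A : ℕ := (m 0).natAbs with hAdef
  have hm0 := m_ne hT (show 0 < d by omega)
  have hA : 0 < A := Int.natAbs_pos.2 hm0
  have hAD : Nat.Coprime A d := m_cop hT (by omega)
  have habs : ∀ z : ℤ, |(z : ℝ)| = ((z.natAbs : ℕ) : ℝ) := fun z => by
    rw [Nat.cast_natAbs]; push_cast; rfl
  set β : ℝ := Real.log A - Real.log d with hβ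
  -- the data
  obtain ⟨B, k, τ, kk, hB, hBD, hk, hτ, hkτ, hkk⟩ : ∃ (B : ℕ) (k : ℤ) (τ : ℝ) (kk : ℕ → ℤ),
      0 < B ∧ Nat.Coprime B d ∧ k ≠ 0 ∧ τ ≠ 0 ∧ k * τ = Real.log B - Real.log A ∧
      ∀ i < d, Real.log (|(m i : ℝ)| / d) = β + kk i * τ := by
    by_cases hall : ∀ i < d, (m i).natAbs = A
    · refine ⟨A * (d + 1), 1, Real.log (d + 1), fun _ => 0, by positivity, ?_, one_ne_zero, ?_, ?_, ?_⟩
      · exact Nat.Coprime.mul_left hAD (by simp)
      · exact (Real.log_pos (by linarith)).ne'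
      · push_cast
        rw [Real.log_mul (by positivity) (by positivity)]; ring
      · intro i hi
        rw [habs, hall i hi, Real.log_div (by positivity) (by positivity)]
        simp [hβ]
    · push Not at hall
      obtain ⟨j, hj, hjA⟩ := hall
      obtain ⟨ρ, hρ0, hρk⟩ := hρ
      choose! kk hkk using hρk
      have hρ0' : (0 : ℝ) < ρ := by exact_mod_cast hρ0
      have hlog : ∀ i < d, Real.log ((m i).natAbs : ℝ) = Real.log A + kk i * Real.log ρ := by
        intro i hi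
        have h1 : |(m i : ℝ)| = |(m 0 : ℝ)| * (ρ : ℝ) ^ (kk i) := by exact_mod_cast hkk i hi
        rw [habs, habs] at h1
        rw [h1, Real.log_mul (by positivity) (by positivity), Real.log_zpow]
      have hBj : 0 < (m j).natAbs := Int.natAbs_pos.2 (m_ne hT hj)
      have hBne : Real.log ((m j).natAbs : ℝ) ≠ Real.log A := by
        intro h
        apply hjA
        have := Real.log_injOn_pos (Set.mem_Ioi.2 (by exact_mod_cast hBj))
          (Set.mem_Ioi.2 (by exact_mod_cast hA)) h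
        exact_mod_cast this
      have hprod : (kk j : ℝ) * Real.log ρ ≠ 0 := by
        intro h
        apply hBne
        rw [hlog j hj, h, add_zero]
      refine ⟨(m j).natAbs, kk j, Real.log ρ, kk, hBj, m_cop hT hj, ?_, ?_, ?_, ?_⟩
      · intro h; apply hprod; rw [h]; simp
      · exact (mul_ne_zero_iff.1 hprod).2
      · rw [hlog j hj]; ring
      · intro i hi
        have h2 : 0 < (m i).natAbs := Int.natAbs_pos.2 (m_ne hT hi)
        rw [habs, Real.log_div (by positivity) (by positivity), hlog i hi, hβ]; ring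
  obtain ⟨C, hC0, hC⟩ := len_count hT hτ hkk
  obtain ⟨c, hc0, hc⟩ := q_lower hA hB hd hAD hBD hk hτ hkτ hβ
  -- Dirichlet
  have hdir : ∀ n : ℕ, 1 ≤ n → ∃ (q : ℕ) (a : ℤ), 0 < q ∧ q ≤ n ∧ IsCoprime a (q : ℤ) ∧
      |(q : ℝ) * (β / τ) - a| ≤ 1 / (n + 1) := by
    intro n hn
    obtain ⟨w, hw1, hw2⟩ := Real.exists_rat_abs_sub_le_and_den_le (β / τ) (n := n) (by omega)
    refine ⟨w.den, w.num, w.den_pos, hw2, ?_, ?_⟩
    · rw [Int.isCoprime_iff_gcd_eq_one]
      simpa [Int.gcd, Nat.Coprime] using w.reduced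
    · have hden : (0 : ℝ) < w.den := by exact_mod_cast w.den_pos
      have h1 : (w.den : ℝ) * (β / τ) - w.num = w.den * (β / τ - w) := by
        rw [mul_sub]
        congr 1
        have : (w : ℝ) = w.num / w.den := by exact_mod_cast (Rat.num_div_den w).symm
        rw [this]; field_simp
      rw [h1, abs_mul, abs_of_pos hden]
      calc (w.den : ℝ) * |β / τ - w| ≤ w.den * (1 / ((n + 1) * w.den)) := by gcongr
        _ = 1 / (n + 1) := by field_simp
  have happ' : ∀ {n q : ℕ} {a : ℤ}, 0 < q → q ≤ n → |(q : ℝ) * (β / τ) - a| ≤ 1 / (n + 1) →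
      |(q : ℝ) * (β / τ) - a| ≤ 1 / q := by
    intro n q a hq hqn h
    refine h.trans ?_
    have h1 : (q : ℝ) ≤ n := by exact_mod_cast hqn
    have h2 : (0 : ℝ) < q := by exact_mod_cast hq
    apply one_div_le_one_div_of_le h2
    linarith
  refine ⟨?_, ?_⟩
  · refine ⟨C * (1 / c + 6), fun P hP => ?_⟩
    obtain ⟨q, a, hq, hqP, hcop, hqa⟩ := hdir P (by omega)
    have h1 := hC P hP q a hq hqP hcop (happ' hq hqP hqa)
    have h2 := hc P q a (by omega) hq hqa
    have hP2 : (2 : ℝ) ≤ P := by exact_mod_cast hP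
    have hL0 : 0 < Real.log P := Real.log_pos (by linarith)
    have hq0 : (0 : ℝ) < q := by exact_mod_cast hq
    have h3 : (P : ℝ) / q ≤ (1 / c) * (P / Real.log P) := by
      have h4 : 0 < c * Real.log P := by positivity
      calc (P : ℝ) / q ≤ P / (c * Real.log P) := by gcongr
        _ = (1 / c) * (P / Real.log P) := by field_simp
    -- sqrt (P log P) ≤ 6 P / log P
    have h5 : Real.sqrt (P * Real.log P) ≤ 6 * (P / Real.log P) := by
      have hcube : (Real.log P) ^ 3 ≤ 27 * (P : ℝ) := by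
        have h6 := Real.log_le_rpow_div (x := (P : ℝ)) (by linarith) (show (0 : ℝ) < 1 / 3 by norm_num)
        have h7 : Real.log P ≤ 3 * (P : ℝ) ^ ((1 : ℝ) / 3) := by linarith
        have h8 : ((P : ℝ) ^ ((1 : ℝ) / 3)) ^ 3 = P := by
          rw [← Real.rpow_natCast ((P : ℝ) ^ ((1 : ℝ) / 3)) 3, ← Real.rpow_mul (by linarith)]
          norm_num
        have h9 : (Real.log P) ^ 3 ≤ (3 * (P : ℝ) ^ ((1 : ℝ) / 3)) ^ 3 :=
          pow_le_pow_left₀ hL0.le h7 3
        rw [mul_pow, h8] at h9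
        linarith
      rw [Real.sqrt_le_left (by positivity)]
      have h8 : (6 * ((P : ℝ) / Real.log P)) ^ 2 = 36 * P ^ 2 / (Real.log P) ^ 2 := by ring
      rw [h8, le_div_iff₀ (by positivity)]
      have h9 : (P : ℝ) * Real.log P * Real.log P ^ 2 = P * (Real.log P) ^ 3 := by ring
      rw [h9]
      nlinarith
    calc ((lengths d m r P).ncard : ℝ) ≤ C * ((P : ℝ) / q + Real.sqrt (P * Real.log P)) := h1
      _ ≤ C * ((1 / c) * (P / Real.log P) + 6 * (P / Real.log P)) := by gcongr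
      _ = C * (1 / c + 6) * P / Real.log P := by ring
  · refine ⟨2 * C, fun P₀ => ?_⟩
    -- choose n with c log n ≥ P₀ + 2
    obtain ⟨n, hn⟩ := exists_nat_ge (Real.exp ((P₀ + 2) / c))
    have hn0 : (0 : ℝ) < n := lt_of_lt_of_le (Real.exp_pos _) hn
    have hn1 : 1 ≤ n := by
      have : 0 < n := by exact_mod_cast hn0
      exact this
    obtain ⟨q, a, hq, hqn, hcop, hqa⟩ := hdir n hn1
    have h1 := hc n q a hn1 hq hqa
    have h2 : (P₀ + 2 : ℝ) / c ≤ Real.log n := by
      rw [Real.le_log_iff_exp_le hn0]; exact hn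
    have h3 : (P₀ + 2 : ℝ) ≤ c * Real.log n := by
      rw [div_le_iff₀ hc0] at h2; linarith
    have h4 : P₀ + 2 ≤ q := by exact_mod_cast h3.trans h1
    have hqq : q ≤ q ^ 2 := Nat.le_self_pow (by norm_num) q
    have hq2 : 2 ≤ q := by omega
    have hq4 : 4 ≤ q ^ 2 := by nlinarith
    refine ⟨q ^ 2, by omega, by omega, ?_⟩
    have h5 := hC (q ^ 2) (by omega) q a hq hqq hcop (happ' hq hqn hqa)
    refine h5.trans ?_
    have hq0 : (0 : ℝ) < q := by exact_mod_cast hq
    have h6 : (((q ^ 2 : ℕ)) : ℝ) / q = q := by push_cast; field_simp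
    rw [h6]
    have h7 : (q : ℝ) ≤ Real.sqrt (((q ^ 2 : ℕ) : ℝ) * Real.log ((q ^ 2 : ℕ) : ℝ)) := by
      apply Real.le_sqrt_of_sq_le
      push_cast
      have h8 : (1 : ℝ) ≤ Real.log ((q : ℝ) ^ 2) := by
        have h9 : Real.exp 1 ≤ (q : ℝ) ^ 2 := by
          have h10 : (4 : ℝ) ≤ (q : ℝ) ^ 2 := by exact_mod_cast hq4
          have := Real.exp_one_lt_d9
          linarith
        rw [Real.le_log_iff_exp_le (by positivity)]; exact h9
      nlinarith [sq_nonneg (q : ℝ)]
    calc C * (q + Real.sqrt (((q ^ 2 : ℕ) : ℝ) * Real.log ((q ^ 2 : ℕ) : ℝ)))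
        ≤ C * (Real.sqrt (((q ^ 2 : ℕ) : ℝ) * Real.log ((q ^ 2 : ℕ) : ℝ)) +
            Real.sqrt (((q ^ 2 : ℕ) : ℝ) * Real.log ((q ^ 2 : ℕ) : ℝ))) := by gcongr
      _ = 2 * C * Real.sqrt (((q ^ 2 : ℕ) : ℝ) * Real.log ((q ^ 2 : ℕ) : ℝ)) := by ring

end Pool.Agent.H91.CL
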