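import Pool.Agent.H91.CL.Spb

/-!
MP_f2ed2a_nt: sums of `|log (|M| / d^p)|` over cycles.
-/

namespace Pool.Agent.H91.CL

open Finset

variable {d : ℕ} {m r : ℕ → ℤ}

/-- `logMult` is constant on the cycle -/
theorem logMult_apply (hT : CoprimeType d m r) {x : ℤ}
    (hx : 1 ≤ Function.minimalPeriod (collatz d m r) x) :
    logMult d m r (collatz d m r x) = logMult d m r x := by
  rw [logMult_eq hT, logMult_eq hT]
  set T := collatz d m r with hTdef
  have hp : Function.minimalPeriod T (T x) = Function.minimalPeriod T x :=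
    Function.minimalPeriod_apply (periodic_of hx)
  rw [hp]
  set p := Function.minimalPeriod T x with hpdef
  have hper : T^[p] x = x := Function.iterate_minimalPeriod
  have h1 : ∀ n, wt d m (T^[n] (T x)) = wt d m (T^[n + 1] x) := fun n => by
    rw [Function.iterate_succ_apply]
  simp only [h1]
  have h2 := Finset.sum_range_succ (fun n => wt d m (T^[n] x)) p
  have h3 := Finset.sum_range_succ' (fun n => wt d m (T^[n] x)) p
  rw [h2] at h3
  simp only [Function.iterate_zero, id_eq, hper] at h3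
  linarith

theorem logMult_iterate (hT : CoprimeType d m r) {x : ℤ}
    (hx : 1 ≤ Function.minimalPeriod (collatz d m r) x) (n : ℕ) :
    logMult d m r ((collatz d m r)^[n] x) = logMult d m r x := by
  induction n with
  | zero => simp
  | succ n ih =>
    rw [Function.iterate_succ_apply', logMult_apply hT, ih]
    rw [Function.minimalPeriod_apply_iterate (periodic_of hx)]
    exact hx

/-- distinct cycles -/
def DistinctCycles (T : ℤ → ℤ) (s : Finset ℤ) : Prop :=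
  (∀ x ∈ s, 1 ≤ Function.minimalPeriod T x) ∧
  ∀ x ∈ s, ∀ y ∈ s, x ≠ y → ∀ a b : ℕ, T^[a] x ≠ T^[b] y

/-- the contribution of the few cycles meeting `(-2R, 2R)` -/
noncomputable def K0 (d : ℕ) (m r : ℕ → ℤ) (R : ℕ) : ℝ :=
  ∑ y ∈ Finset.Ioo (-(2 * (R : ℤ))) (2 * R), |logMult d m r y|

/-- the points `T^n x`, `n < p_x`, `x ∈ s`, are distinct -/
theorem sum_orbits_le {T : ℤ → ℤ} {s : Finset ℤ} (hs : DistinctCycles T s)
    (F : ℤ → Finset ℕ) (hF : ∀ x ∈ s, F x ⊆ range (Function.minimalPeriod T x))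
    {A : Finset ℤ} (hA : ∀ x ∈ s, ∀ n ∈ F x, T^[n] x ∈ A) (g : ℤ → ℝ) (hg : ∀ y, 0 ≤ g y) :
    ∑ x ∈ s, ∑ n ∈ F x, g (T^[n] x) ≤ ∑ y ∈ A, g y := by
  classical
  rw [Finset.sum_sigma' s F (fun x n => g (T^[n] x))]
  have hinj : Set.InjOn (fun a : (Σ _ : ℤ, ℕ) => T^[a.2] a.1) (s.sigma F : Set (Σ _ : ℤ, ℕ)) := by
    rintro ⟨i, n⟩ hin ⟨j, k⟩ hjk hij
    simp only [Finset.coe_sigma, Set.mem_sigma_iff, Finset.mem_coe] at hin hjk
    simp only at hij
    have hne : i = j := by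
      by_contra hne
      exact hs.2 i hin.1 j hjk.1 hne n k hij
    subst hne
    have hn1 := mem_range.1 (hF i hin.1 hin.2)
    have hk1 := mem_range.1 (hF i hjk.1 hjk.2)
    have : n = k := (Function.iterate_injOn_Iio_minimalPeriod (f := T) (x := i)) hn1 hk1 hij
    subst this
    rfl
  rw [← Finset.sum_image (f := g) (g := fun a : (Σ _ : ℤ, ℕ) => T^[a.2] a.1) hinj]
  refine Finset.sum_le_sum_of_subset_of_nonneg ?_ fun y _ _ => hg y
  intro y hy
  rw [mem_image] at hy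
  obtain ⟨a, ha, rfl⟩ := hy
  exact hA a.1 (mem_sigma.1 ha).1 a.2 (mem_sigma.1 ha).2

/-- splitting off the cycles that meet `(-2R, 2R)` -/
theorem split_small (hT : CoprimeType d m r) {R : ℕ} {s : Finset ℤ}
    (hs : DistinctCycles (collatz d m r) s) :
    ∃ s2 ⊆ s, (∀ x ∈ s2, ∀ n, 2 * (R : ℤ) ≤ |(collatz d m r)^[n] x|) ∧
      ∑ x ∈ s, |logMult d m r x| ≤ K0 d m r R + ∑ x ∈ s2, |logMult d m r x| := by
  classical
  set T := collatz d m r with hTdef
  set s1 := s.filter (fun x => ∃ n, |T^[n] x| < 2 * (R : ℤ)) with hs1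
  set s2 := s.filter (fun x => ¬ ∃ n, |T^[n] x| < 2 * (R : ℤ)) with hs2
  refine ⟨s2, Finset.filter_subset _ _, ?_, ?_⟩
  · intro x hx n
    have := (mem_filter.1 hx).2
    push Not at this
    exact this n
  · rw [← Finset.sum_filter_add_sum_filter_not s (fun x => ∃ n, |T^[n] x| < 2 * (R : ℤ))]
    have hex : ∀ x ∈ s1, ∃ n, |T^[n] x| < 2 * (R : ℤ) := fun x hx => (mem_filter.1 hx).2
    choose! n hn using hex
    have h1 : ∑ x ∈ s1, |logMult d m r x| ≤ K0 d m r R := by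
      have h2 : ∑ x ∈ s1, |logMult d m r x| = ∑ x ∈ s1, |logMult d m r (T^[n x] x)| := by
        refine Finset.sum_congr rfl fun x hx => ?_
        rw [logMult_iterate hT (hs.1 x (mem_filter.1 hx).1)]
      have hinj : Set.InjOn (fun x => T^[n x] x) (s1 : Set ℤ) := by
        intro x hx y hy hxy
        by_contra hne
        exact hs.2 x (mem_filter.1 hx).1 y (mem_filter.1 hy).1 hne (n x) (n y) hxy
      rw [h2, ← Finset.sum_image (f := fun y => |logMult d m r y|) (g := fun x => T^[n x] x) hinj]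
      unfold K0
      refine Finset.sum_le_sum_of_subset_of_nonneg ?_ fun y _ _ => abs_nonneg _
      intro y hy
      rw [mem_image] at hy
      obtain ⟨x, hx, rfl⟩ := hy
      exact Finset.mem_Ioo.2 (abs_lt.1 (hn x hx))
    linarith

/-- every `T`: at most `P` distinct cycles of length at most `P` -/
theorem sum_le_log (hT : CoprimeType d m r) :
    ∃ K : ℝ, ∀ P : ℕ, 2 ≤ P → ∀ s : Finset ℤ, s.card ≤ P → DistinctCycles (collatz d m r) s →
      (∀ x ∈ s, Function.minimalPeriod (collatz d m r) x ≤ P) →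
      ∑ x ∈ s, |logMult d m r x| ≤ K * Real.log P := by
  classical
  obtain ⟨R, hR1, hR⟩ := exists_R d r
  have hR1' : (1 : ℝ) ≤ R := by exact_mod_cast hR1
  have hR0 : (0 : ℝ) < R := by linarith
  set T := collatz d m r with hTdef
  have hlog2 : 0 < Real.log 2 := Real.log_pos (by norm_num)
  have hK0 : 0 ≤ K0 d m r R := Finset.sum_nonneg fun _ _ => abs_nonneg _
  refine ⟨(K0 d m r R + 6 * R) / Real.log 2 + 8 * R, fun P hP s hsP hs hlen => ?_⟩
  have hP2 : (2 : ℝ) ≤ P := by exact_mod_cast hP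
  have hP0 : (0 : ℝ) < P := by linarith
  have hlogP : Real.log 2 ≤ Real.log P := Real.log_le_log (by norm_num) hP2
  obtain ⟨s2, hsub, hs2, hsum⟩ := split_small hT (R := R) hs
  have hd2 : DistinctCycles T s2 :=
    ⟨fun x hx => hs.1 x (hsub hx), fun x hx y hy => hs.2 x (hsub hx) y (hsub hy)⟩
  set B : ℕ := P ^ 2 with hB
  have hBR : (B : ℝ) = (P : ℝ) ^ 2 := by rw [hB]; push_cast; rfl
  have hBpos : (0 : ℝ) < B := by rw [hBR]; positivity
  set F : ℤ → Finset ℕ := fun x => (range (Function.minimalPeriod T x)).filter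
    (fun n => |T^[n] x| ≤ (B : ℤ)) with hF
  have hone : ∀ x ∈ s2, |logMult d m r x| ≤
      ∑ n ∈ F x, 2 * (R : ℝ) * (1 / |((T^[n] x : ℤ) : ℝ)|) + 2 * R / P := by
    intro x hx
    have hlarge : ∀ n < Function.minimalPeriod T x, 2 * (R : ℝ) ≤ |((T^[n] x : ℤ) : ℝ)| := by
      intro n _
      exact_mod_cast hs2 x hx n
    have hb := cycle_bound hT hR hR1' hlarge
    have hsplit : ∑ n ∈ range (Function.minimalPeriod T x), 2 * (R : ℝ) / |((T^[n] x : ℤ) : ℝ)| =
        ∑ n ∈ F x, 2 * (R : ℝ) / |((T^[n] x : ℤ) : ℝ)| +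
        ∑ n ∈ (range (Function.minimalPeriod T x)).filter (fun n => ¬ |T^[n] x| ≤ (B : ℤ)),
          2 * (R : ℝ) / |((T^[n] x : ℤ) : ℝ)| := by
      rw [hF, Finset.sum_filter_add_sum_filter_not]
    have hrest : ∑ n ∈ (range (Function.minimalPeriod T x)).filter (fun n => ¬ |T^[n] x| ≤ (B : ℤ)),
          2 * (R : ℝ) / |((T^[n] x : ℤ) : ℝ)| ≤ 2 * R / P := by
      have h3 : ∀ n ∈ (range (Function.minimalPeriod T x)).filter (fun n => ¬ |T^[n] x| ≤ (B : ℤ)),
          2 * (R : ℝ) / |((T^[n] x : ℤ) : ℝ)| ≤ 2 * R / B := by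
        intro n hn
        have h4 := (mem_filter.1 hn).2
        push Not at h4
        have h5 : (B : ℝ) ≤ |((T^[n] x : ℤ) : ℝ)| := by exact_mod_cast h4.le
        gcongr
      refine (Finset.sum_le_card_nsmul _ _ _ h3).trans ?_
      rw [nsmul_eq_mul]
      have h6 : (((range (Function.minimalPeriod T x)).filter (fun n => ¬ |T^[n] x| ≤ (B : ℤ))).card : ℝ) ≤ P := by
        have h7 := Finset.card_filter_le (range (Function.minimalPeriod T x)) (fun n => ¬ |T^[n] x| ≤ (B : ℤ))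
        rw [card_range] at h7
        exact_mod_cast h7.trans (hlen x (hsub hx))
      calc (((range (Function.minimalPeriod T x)).filter (fun n => ¬ |T^[n] x| ≤ (B : ℤ))).card : ℝ) * (2 * R / B)
          ≤ P * (2 * R / B) := by gcongr
        _ = 2 * R / P := by rw [hBR]; field_simp
    have h10 : ∑ n ∈ F x, 2 * (R : ℝ) / |((T^[n] x : ℤ) : ℝ)| =
        ∑ n ∈ F x, 2 * (R : ℝ) * (1 / |((T^[n] x : ℤ) : ℝ)|) :=
      Finset.sum_congr rfl fun n _ => by ring
    rw [← h10]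
    linarith
  have hsum2 : ∑ x ∈ s2, |logMult d m r x| ≤ 2 * R * (2 * (1 + Real.log B)) + 2 * R := by
    refine (Finset.sum_le_sum hone).trans ?_
    rw [Finset.sum_add_distrib]
    have h1 : ∑ x ∈ s2, ∑ n ∈ F x, 2 * (R : ℝ) * (1 / |((T^[n] x : ℤ) : ℝ)|) ≤
        2 * R * (2 * (1 + Real.log B)) := by
      have h2 := sum_orbits_le hd2 F (fun x _ => Finset.filter_subset _ _)
        (A := Finset.Icc (-(B : ℤ)) B)
        (fun x _ n hn => Finset.mem_Icc.2 (abs_le.1 (mem_filter.1 hn).2))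
        (fun y => 2 * (R : ℝ) * (1 / |(y : ℝ)|)) (fun y => by positivity)
      refine h2.trans ?_
      rw [← Finset.mul_sum]
      exact mul_le_mul_of_nonneg_left (sum_inv_abs_le B) (by positivity)
    have h3 : ∑ _x ∈ s2, 2 * (R : ℝ) / P ≤ 2 * R := by
      rw [Finset.sum_const, nsmul_eq_mul]
      have h4 : (s2.card : ℝ) ≤ P := by exact_mod_cast (Finset.card_le_card hsub).trans hsP
      calc (s2.card : ℝ) * (2 * R / P) ≤ P * (2 * R / P) := by gcongr
        _ = 2 * R := by field_simp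
    linarith
  have hlogB : Real.log B = 2 * Real.log P := by rw [hBR, Real.log_pow]; push_cast; ring
  rw [hlogB] at hsum2
  have h10 : (1 : ℝ) ≤ Real.log P / Real.log 2 := by rw [one_le_div hlog2]; exact hlogP
  have h12 : (K0 d m r R + 6 * R) ≤ (K0 d m r R + 6 * R) * (Real.log P / Real.log 2) :=
    le_mul_of_one_le_right (by positivity) h10
  calc ∑ x ∈ s, |logMult d m r x| ≤ (K0 d m r R + 6 * R) + 8 * R * Real.log P := by linarith
    _ ≤ (K0 d m r R + 6 * R) * (Real.log P / Real.log 2) + 8 * R * Real.log P := by linarith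
    _ = ((K0 d m r R + 6 * R) / Real.log 2 + 8 * R) * Real.log P := by ring

/-- the tail of `∑ 1/|x|` over a sparse set -/
theorem tail {Per : Set ℤ} {δ K : ℝ} (hδ : 0 < δ) (hδ1 : δ ≤ 1 / 2) (hK : 0 ≤ K)
    (hN : ∀ X : ℕ, 1 ≤ X → ∀ G : Finset ℤ, (∀ x ∈ G, |x| ≤ (X : ℤ)) → (∀ x ∈ G, x ∈ Per) →
      (G.card : ℝ) ≤ K * (X : ℝ) ^ (1 - δ))
    {X : ℕ} (hX : 1 ≤ X) {F : Finset ℤ} (hF : ∀ x ∈ F, (X : ℤ) ≤ |x|) (hFP : ∀ x ∈ F, x ∈ Per) :
    ∑ x ∈ F, 1 / |(x : ℝ)| ≤ 2 * K / (1 - (2 : ℝ) ^ (-δ)) * (X : ℝ) ^ (-δ) := by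
  classical
  have hX1 : (1 : ℝ) ≤ X := by exact_mod_cast hX
  have hX0 : (0 : ℝ) < X := by linarith
  set k : ℤ → ℕ := fun x => Nat.log 2 (x.natAbs / X) with hk
  have hlow : ∀ x ∈ F, (2 : ℝ) ^ (k x) * X ≤ |(x : ℝ)| := by
    intro x hx
    have h1 : X ≤ x.natAbs := by
      have := hF x hx
      rw [Int.abs_eq_natAbs] at this
      exact_mod_cast this
    have h2 : x.natAbs / X ≠ 0 := by
      have : 0 < x.natAbs / X := Nat.div_pos h1 (by omega)
      omega
    have h3 : 2 ^ (k x) ≤ x.natAbs / X := Nat.pow_log_le_self 2 h2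
    have h4 : 2 ^ (k x) * X ≤ x.natAbs := (Nat.mul_le_mul_right X h3).trans (Nat.div_mul_le_self _ _)
    have h5 : |(x : ℝ)| = (x.natAbs : ℝ) := by rw [Nat.cast_natAbs]; push_cast; rfl
    rw [h5]; exact_mod_cast h4
  have hup : ∀ x ∈ F, |x| ≤ ((2 ^ (k x + 1) * X : ℕ) : ℤ) := by
    intro x hx
    have h3 : x.natAbs / X < 2 ^ (k x + 1) := Nat.lt_pow_succ_log_self (by norm_num) _
    have h4 : x.natAbs < 2 ^ (k x + 1) * X := by
      have := (Nat.div_lt_iff_lt_mul (by omega : 0 < X)).1 h3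
      exact this
    rw [Int.abs_eq_natAbs]
    exact_mod_cast h4.le
  set M : ℕ := F.sup k + 1 with hM
  have hmaps : ∀ x ∈ F, k x ∈ range M := by
    intro x hx
    rw [mem_range, hM]
    have := Finset.le_sup (f := k) hx
    omega
  rw [← Finset.sum_fiberwise_of_maps_to hmaps]
  have hterm : ∀ j ∈ range M, ∑ x ∈ F.filter (fun x => k x = j), 1 / |(x : ℝ)| ≤
      2 * K * (X : ℝ) ^ (-δ) * ((2 : ℝ) ^ (-δ)) ^ j := by
    intro j _
    have h1 : ∀ x ∈ F.filter (fun x => k x = j), 1 / |(x : ℝ)| ≤ 1 / ((2 : ℝ) ^ j * X) := by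
      intro x hx
      obtain ⟨hx1, hx2⟩ := mem_filter.1 hx
      have h2 := hlow x hx1
      rw [hx2] at h2
      apply one_div_le_one_div_of_le (by positivity) h2
    refine (Finset.sum_le_card_nsmul _ _ _ h1).trans ?_
    rw [nsmul_eq_mul]
    have h3 := hN (2 ^ (j + 1) * X) (Nat.mul_pos (by positivity) (by omega))
      (F.filter (fun x => k x = j)) (fun x hx => by
        obtain ⟨hx1, hx2⟩ := mem_filter.1 hx
        have := hup x hx1
        rw [hx2] at this
        exact this) (fun x hx => hFP x (mem_filter.1 hx).1)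
    push_cast at h3
    have h4 : ((2 : ℝ) ^ (j + 1) * X) ^ (1 - δ) =
        (2 : ℝ) ^ (j + 1) * X * ((2 : ℝ) ^ (-δ) * ((2 : ℝ) ^ (-δ)) ^ j * (X : ℝ) ^ (-δ)) := by
      have hpos : (0 : ℝ) < (2 : ℝ) ^ (j + 1) * X := by positivity
      rw [show (1 : ℝ) - δ = 1 + -δ by ring, Real.rpow_add hpos, Real.rpow_one]
      congr 1
      rw [Real.mul_rpow (by positivity) hX0.le, ← Real.rpow_natCast (2 : ℝ) (j + 1),
        ← Real.rpow_mul (by norm_num), ← Real.rpow_natCast ((2 : ℝ) ^ (-δ)) j,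
        ← Real.rpow_mul (by norm_num), ← Real.rpow_add (by norm_num)]
      congr 2
      push_cast; ring
    have h2δ : (2 : ℝ) ^ (-δ) ≤ 1 := Real.rpow_le_one_of_one_le_of_nonpos (by norm_num) (by linarith)
    calc ((F.filter (fun x => k x = j)).card : ℝ) * (1 / ((2 : ℝ) ^ j * X))
        ≤ (K * ((2 : ℝ) ^ (j + 1) * X) ^ (1 - δ)) * (1 / ((2 : ℝ) ^ j * X)) := by gcongr
      _ = 2 * K * (X : ℝ) ^ (-δ) * ((2 : ℝ) ^ (-δ)) ^ j * (2 : ℝ) ^ (-δ) := by
        rw [h4]; field_simp; ring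
      _ ≤ 2 * K * (X : ℝ) ^ (-δ) * ((2 : ℝ) ^ (-δ)) ^ j := by
        apply mul_le_of_le_one_right (by positivity) h2δ
  refine (Finset.sum_le_sum hterm).trans ?_
  rw [← Finset.mul_sum]
  have hgeo : ∑ j ∈ range M, ((2 : ℝ) ^ (-δ)) ^ j ≤ 1 / (1 - (2 : ℝ) ^ (-δ)) := by
    have hr0 : (0 : ℝ) ≤ (2 : ℝ) ^ (-δ) := by positivity
    have hr1 : (2 : ℝ) ^ (-δ) < 1 := Real.rpow_lt_one_of_one_lt_of_neg (by norm_num) (by linarith)
    have h := (summable_geometric_of_lt_one hr0 hr1).sum_le_tsum (range M) (fun _ _ => by positivity)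
    rw [tsum_geometric_of_lt_one hr0 hr1] at h
    rw [one_div]; exact h
  calc 2 * K * (X : ℝ) ^ (-δ) * ∑ j ∈ range M, ((2 : ℝ) ^ (-δ)) ^ j
      ≤ 2 * K * (X : ℝ) ^ (-δ) * (1 / (1 - (2 : ℝ) ^ (-δ))) := by gcongr
    _ = 2 * K / (1 - (2 : ℝ) ^ (-δ)) * (X : ℝ) ^ (-δ) := by ring

/-- the sparse case -/
theorem sparse_case (hT : CoprimeType d m r)
    (h : |(∏ i ∈ range d, m i : ℤ)| < (d : ℤ) ^ d ∨ ∑ i ∈ range d, 1 / |(m i : ℝ)| < 1) :
    ∃ δ : ℝ, 0 < δ ∧ ∃ K : ℝ,
      (∀ X : ℕ, 1 ≤ X → ((Function.periodicPts (collatz d m r) ∩ Set.Icc (-(X : ℤ)) X).ncard : ℝ) ≤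
        K * (X : ℝ) ^ (1 - δ)) ∧
      (∀ X : ℕ, 1 ≤ X → ∀ x ∈ Function.periodicPts (collatz d m r),
        (∀ n : ℕ, (X : ℤ) ≤ |(collatz d m r)^[n] x|) → |logMult d m r x| ≤ K * (X : ℝ) ^ (-δ)) ∧
      (∀ s : Finset ℤ, DistinctCycles (collatz d m r) s → ∑ x ∈ s, |logMult d m r x| ≤ K) := by
  classical
  obtain ⟨δ, hδ0, hδ1, K, hK, hN⟩ : ∃ δ : ℝ, 0 < δ ∧ δ ≤ 1 / 2 ∧ ∃ K : ℝ, 0 ≤ K ∧
      ∀ X : ℕ, 1 ≤ X → ∀ G : Finset ℤ, (∀ x ∈ G, |x| ≤ (X : ℤ)) →
        (∀ x ∈ G, x ∈ Function.periodicPts (collatz d m r)) →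
        (G.card : ℝ) ≤ K * (X : ℝ) ^ (1 - δ) := by
    rcases h with h | h
    · exact sparse_future hT h
    · exact sparse_past hT h
  obtain ⟨R, hR1, hR⟩ := exists_R d r
  have hR1' : (1 : ℝ) ≤ R := by exact_mod_cast hR1
  have hR0 : (0 : ℝ) < R := by linarith
  set T := collatz d m r with hTdef
  set K2 : ℝ := 2 * R * (2 * K / (1 - (2 : ℝ) ^ (-δ))) with hK2
  have hr1 : (2 : ℝ) ^ (-δ) < 1 := Real.rpow_lt_one_of_one_lt_of_neg (by norm_num) (by linarith)
  have hK2n : 0 ≤ K2 := by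
    have : 0 < 1 - (2 : ℝ) ^ (-δ) := by linarith
    positivity
  have hK0 : 0 ≤ K0 d m r R := Finset.sum_nonneg fun _ _ => abs_nonneg _
  set K3 : ℝ := K0 d m r R * (2 * R : ℝ) ^ δ with hK3
  have hK3n : 0 ≤ K3 := by positivity
  have hper_of : ∀ {x : ℤ}, 1 ≤ Function.minimalPeriod T x → ∀ n, T^[n] x ∈ Function.periodicPts T := by
    intro x hx n
    apply Function.minimalPeriod_pos_iff_mem_periodicPts.1
    rw [Function.minimalPeriod_apply_iterate (periodic_of hx)]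
    exact hx
  -- sum over distinct large cycles
  have hlargeSum : ∀ X : ℕ, 1 ≤ X → 2 * R ≤ X → ∀ s : Finset ℤ, DistinctCycles T s →
      (∀ x ∈ s, ∀ n, (X : ℤ) ≤ |T^[n] x|) → ∑ x ∈ s, |logMult d m r x| ≤ K2 * (X : ℝ) ^ (-δ) := by
    intro X hX hXR s hs hsX
    set A : Finset ℤ := s.biUnion (fun x => (range (Function.minimalPeriod T x)).image (fun n => T^[n] x)) with hA
    have h1 : ∀ x ∈ s, |logMult d m r x| ≤ ∑ n ∈ range (Function.minimalPeriod T x),
        2 * (R : ℝ) * (1 / |((T^[n] x : ℤ) : ℝ)|) := by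
      intro x hx
      have hlarge : ∀ n < Function.minimalPeriod T x, 2 * (R : ℝ) ≤ |((T^[n] x : ℤ) : ℝ)| := by
        intro n _
        have h2 := hsX x hx n
        have h3 : (2 * R : ℤ) ≤ |T^[n] x| := by
          have : (2 * R : ℤ) ≤ X := by exact_mod_cast hXR
          linarith
        exact_mod_cast h3
      have hb := cycle_bound hT hR hR1' hlarge
      refine hb.trans (le_of_eq (Finset.sum_congr rfl fun n _ => by ring))
    refine (Finset.sum_le_sum h1).trans ?_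
    have h2 := sum_orbits_le hs (fun x => range (Function.minimalPeriod T x)) (fun x _ => le_rfl)
      (A := A) (fun x hx n hn => by
        rw [hA, mem_biUnion]; exact ⟨x, hx, mem_image_of_mem _ hn⟩)
      (fun y => 2 * (R : ℝ) * (1 / |(y : ℝ)|)) (fun y => by positivity)
    refine h2.trans ?_
    rw [← Finset.mul_sum]
    have h3 := tail hδ0 hδ1 hK hN hX (F := A) (fun y hy => by
        rw [hA, mem_biUnion] at hy
        obtain ⟨x, hx, hy⟩ := hy
        obtain ⟨n, hn, rfl⟩ := mem_image.1 hy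
        exact hsX x hx n) (fun y hy => by
        rw [hA, mem_biUnion] at hy
        obtain ⟨x, hx, hy⟩ := hy
        obtain ⟨n, hn, rfl⟩ := mem_image.1 hy
        exact hper_of (hs.1 x hx) n)
    calc 2 * (R : ℝ) * ∑ y ∈ A, 1 / |(y : ℝ)| ≤
        2 * R * (2 * K / (1 - (2 : ℝ) ^ (-δ)) * (X : ℝ) ^ (-δ)) := by gcongr
      _ = K2 * (X : ℝ) ^ (-δ) := by rw [hK2]; ring
  refine ⟨δ, hδ0, K + K2 + K3 + K0 d m r R, ?_, ?_, ?_⟩
  · intro X hX
    have hfin : (Function.periodicPts T ∩ Set.Icc (-(X : ℤ)) X).Finite :=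
      (Set.finite_Icc _ _).subset Set.inter_subset_right
    rw [Set.ncard_eq_toFinset_card _ hfin]
    have h1 := hN X hX hfin.toFinset (fun x hx => abs_le.2 ((hfin.mem_toFinset.1 hx).2))
      (fun x hx => (hfin.mem_toFinset.1 hx).1)
    refine h1.trans ?_
    apply mul_le_mul_of_nonneg_right _ (by positivity)
    linarith
  · intro X hX x hx hxX
    have hX1 : (1 : ℝ) ≤ X := by exact_mod_cast hX
    have hx1 : 1 ≤ Function.minimalPeriod T x := Function.minimalPeriod_pos_iff_mem_periodicPts.2 hx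
    have hs : DistinctCycles T {x} := by
      refine ⟨fun y hy => ?_, fun y hy z hz hyz => ?_⟩
      · rw [mem_singleton.1 hy]; exact hx1
      · exact absurd ((mem_singleton.1 hy).trans (mem_singleton.1 hz).symm) hyz
    by_cases hbig : ∀ n, (2 * R : ℤ) ≤ |T^[n] x|
    · set X' := max X (2 * R) with hX'
      have h1 := hlargeSum X' (le_max_of_le_left hX) (le_max_right _ _) {x} hs (fun y hy n => by
        rw [mem_singleton.1 hy, hX']
        push_cast
        exact max_le (hxX n) (hbig n))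
      rw [Finset.sum_singleton] at h1
      have h2 : (X' : ℝ) ^ (-δ) ≤ (X : ℝ) ^ (-δ) := by
        apply Real.rpow_le_rpow_of_nonpos (by linarith)
        · exact_mod_cast le_max_left _ _
        · linarith
      calc |logMult d m r x| ≤ K2 * (X' : ℝ) ^ (-δ) := h1
        _ ≤ K2 * (X : ℝ) ^ (-δ) := by gcongr
        _ ≤ _ := by
          apply mul_le_mul_of_nonneg_right _ (by positivity)
          linarith
    · push Not at hbig
      obtain ⟨n, hn⟩ := hbig
      have h1 : |logMult d m r x| ≤ K0 d m r R := by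
        rw [← logMult_iterate hT hx1 n]
        unfold K0
        exact Finset.single_le_sum (f := fun y => |logMult d m r y|) (fun _ _ => abs_nonneg _)
          (Finset.mem_Ioo.2 (abs_lt.1 hn))
      have h2 : (X : ℝ) ≤ 2 * R := by
        have := (hxX n).trans hn.le
        exact_mod_cast this
      have h3 : 1 ≤ (2 * R : ℝ) ^ δ * (X : ℝ) ^ (-δ) := by
        rw [Real.rpow_neg (by linarith), ← div_eq_mul_inv, one_le_div (by positivity)]
        exact Real.rpow_le_rpow (by linarith) h2 hδ0.le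
      calc |logMult d m r x| ≤ K0 d m r R := h1
        _ ≤ K0 d m r R * ((2 * R : ℝ) ^ δ * (X : ℝ) ^ (-δ)) := le_mul_of_one_le_right hK0 h3
        _ = K3 * (X : ℝ) ^ (-δ) := by rw [hK3]; ring
        _ ≤ _ := by
          apply mul_le_mul_of_nonneg_right _ (by positivity)
          linarith
  · intro s hs
    obtain ⟨s2, hsub, hs2, hsum⟩ := split_small hT (R := R) hs
    have hd2 : DistinctCycles T s2 :=
      ⟨fun x hx => hs.1 x (hsub hx), fun x hx y hy => hs.2 x (hsub hx) y (hsub hy)⟩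
    have h1 := hlargeSum (2 * R) (by omega) le_rfl s2 hd2 (fun x hx n => by
      push_cast; exact hs2 x hx n)
    have h2 : (((2 * R : ℕ)) : ℝ) ^ (-δ) ≤ 1 :=
      Real.rpow_le_one_of_one_le_of_nonpos (by push_cast; linarith) (by linarith)
    have h3 : K2 * (((2 * R : ℕ)) : ℝ) ^ (-δ) ≤ K2 := mul_le_of_le_one_right hK2n h2
    linarith

/-- only finitely many cycles have `ε ≤ |Λ|` -/
theorem finite_of_decay {T : ℤ → ℤ} {Λ : ℤ → ℝ} {δ K : ℝ} (hδ : 0 < δ)
    (h : ∀ X : ℕ, 1 ≤ X → ∀ x ∈ Function.periodicPts T, (∀ n : ℕ, (X : ℤ) ≤ |T^[n] x|) →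
      |Λ x| ≤ K * (X : ℝ) ^ (-δ)) {ε : ℝ} (hε : 0 < ε) :
    {x : ℤ | x ∈ Function.periodicPts T ∧ ε ≤ |Λ x|}.Finite := by
  classical
  obtain ⟨X, hX1, hX⟩ : ∃ X : ℕ, 1 ≤ X ∧ K * (X : ℝ) ^ (-δ) < ε := by
    have h1 : Filter.Tendsto (fun X : ℕ => K * (X : ℝ) ^ (-δ)) Filter.atTop (nhds (K * 0)) :=
      ((tendsto_rpow_neg_atTop hδ).comp tendsto_natCast_atTop_atTop).const_mul K
    rw [mul_zero] at h1
    obtain ⟨X, hX1, hX2⟩ := ((Filter.eventually_ge_atTop 1).and (h1.eventually_lt_const hε)).exists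
    exact ⟨X, hX1, hX2⟩
  have hfin : (⋃ y ∈ (Finset.Ioo (-(X : ℤ)) X : Finset ℤ).filter (fun y => y ∈ Function.periodicPts T),
      (↑((range (Function.minimalPeriod T y)).image (fun n => T^[n] y)) : Set ℤ)).Finite := by
    apply Set.Finite.biUnion (Finset.finite_toSet _)
    intro y _
    exact Finset.finite_toSet _
  refine hfin.subset ?_
  rintro x ⟨hx, hxε⟩
  have hnot : ¬ ∀ n : ℕ, (X : ℤ) ≤ |T^[n] x| := fun hn => by
    have := h X hX1 x hx hn
    linarith
  push Not at hnot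
  obtain ⟨n, hn⟩ := hnot
  have hx1 : 1 ≤ Function.minimalPeriod T x := Function.minimalPeriod_pos_iff_mem_periodicPts.2 hx
  have hy : T^[n] x ∈ Function.periodicPts T := by
    apply Function.minimalPeriod_pos_iff_mem_periodicPts.1
    rw [Function.minimalPeriod_apply_iterate hx]
    exact hx1
  rw [Set.mem_iUnion₂]
  refine ⟨T^[n] x, ?_, ?_⟩
  · rw [mem_filter]
    exact ⟨Finset.mem_Ioo.2 (abs_lt.1 hn), hy⟩
  · have hx2 : x ∈ Set.range (fun k : ℕ => T^[k] (T^[n] x)) := by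
      have h1 := orb_eq (T := T) (x := x) (y := T^[n] x) hx1
        (Function.minimalPeriod_pos_iff_mem_periodicPts.2 hy) (a := n) (b := 0) rfl
      rw [← h1]
      exact ⟨0, rfl⟩
    obtain ⟨k, hk⟩ := hx2
    rw [coe_image, Set.mem_image]
    refine ⟨k % Function.minimalPeriod T (T^[n] x), ?_, ?_⟩
    · rw [mem_coe, mem_range]
      exact Nat.mod_lt _ (Function.minimalPeriod_pos_iff_mem_periodicPts.2 hy)
    · show T^[k % Function.minimalPeriod T (T^[n] x)] (T^[n] x) = x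
      rw [Function.iterate_mod_minimalPeriod_eq]
      exact hk

end Pool.Agent.H91.CL
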