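import Pool.Agent.H91.CL.Ct

/-!
MP_f2ed2a_nt: lengths of cycles in the sparse case: an exponent below one half.
-/

namespace Pool.Agent.H91.CL

open Finset

variable {d : ℕ} {m r : ℕ → ℤ}

theorem sparse_len (hT : CoprimeType d m r)
    (hρ : ∃ ρ : ℚ, 0 < ρ ∧ ∀ i < d, ∃ k : ℤ, |(m i : ℚ)| = |(m 0 : ℚ)| * ρ ^ k)
    (h : |(∏ i ∈ range d, m i : ℤ)| < (d : ℤ) ^ d ∨ ∑ i ∈ range d, 1 / |(m i : ℝ)| < 1) :
    ∃ δ : ℝ, 0 < δ ∧ ∃ K : ℝ, ∀ P₀ : ℕ, ∃ P : ℕ, P₀ ≤ P ∧ 2 ≤ P ∧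
      ((lengths d m r P).ncard : ℝ) ≤ K * (P : ℝ) ^ (1 / 2 - δ) := by
  classical
  obtain ⟨β, τ, kk, hτ, hkk, hne, c, hc0, hc⟩ := data hT hρ
  obtain ⟨δ, hδ0, hδ1, K, hK0, hK⟩ := sparse_count hT h
  have hτ0 : 0 < |τ| := abs_pos.2 hτ
  have h2δ : 0 < 2 - δ := by linarith
  refine ⟨δ / (2 * (2 - δ)), by positivity, (K + 2 * (4 / |τ| + 3)) * 2, fun P₀ => ?_⟩
  obtain ⟨n, hn⟩ := exists_nat_ge (Real.exp ((P₀ + 2) / c))
  have hn0 : (0 : ℝ) < n := lt_of_lt_of_le (Real.exp_pos _) hn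
  have hn1 : 1 ≤ n := by
    have : 0 < n := by exact_mod_cast hn0
    exact this
  obtain ⟨q, a, hq, hqn, hcop, hqa⟩ := dirichlet (β / τ) hn1
  have h1 := hc n q a hn1 hq hqa
  have h2 : (P₀ + 2 : ℝ) / c ≤ Real.log n := by
    rw [Real.le_log_iff_exp_le hn0]; exact hn
  have h3 : (P₀ + 2 : ℝ) ≤ c * Real.log n := by
    rw [div_le_iff₀ hc0] at h2; linarith
  have h4 : P₀ + 2 ≤ q := by exact_mod_cast h3.trans h1
  have hq1 : (1 : ℝ) ≤ q := by exact_mod_cast hq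
  have hq0 : (0 : ℝ) < q := by linarith
  have hqa' : |(q : ℝ) * (β / τ) - a| ≤ 1 / q := by
    refine hqa.trans ?_
    have h5 : (q : ℝ) ≤ n := by exact_mod_cast hqn
    apply one_div_le_one_div_of_le hq0
    linarith
  set P : ℕ := ⌊(q : ℝ) ^ (2 - δ)⌋₊ with hPdef
  have hqP : q ≤ P := by
    apply Nat.le_floor
    calc (q : ℝ) = (q : ℝ) ^ (1 : ℝ) := (Real.rpow_one _).symm
      _ ≤ (q : ℝ) ^ (2 - δ) := Real.rpow_le_rpow_of_exponent_le hq1 (by linarith)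
  have hPle : (P : ℝ) ≤ (q : ℝ) ^ (2 - δ) := Nat.floor_le (by positivity)
  have hPgt : (q : ℝ) ^ (2 - δ) ≤ 2 * P := by
    have h5 := (Nat.lt_floor_add_one ((q : ℝ) ^ (2 - δ))).le
    have h6 : (1 : ℝ) ≤ P := by
      have : 1 ≤ P := by omega
      exact_mod_cast this
    rw [← hPdef] at h5
    linarith
  have hPpos : (0 : ℝ) < P := by
    have : 0 < P := by omega
    exact_mod_cast this
  refine ⟨P, by omega, by omega, ?_⟩
  -- the finite set of lengths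
  have hfin : (lengths d m r P).Finite :=
    (Set.finite_Icc 1 P).subset (by rintro p ⟨h1, h2, -⟩; exact ⟨h1, h2⟩)
  set s := hfin.toFinset with hs
  have hmem : ∀ p ∈ s, 1 ≤ p ∧ p ≤ P ∧ ∃ x : ℤ, Function.minimalPeriod (collatz d m r) x = p :=
    fun p hp => hfin.mem_toFinset.1 hp
  have hch : ∀ p ∈ s, ∃ x : ℤ, Function.minimalPeriod (collatz d m r) x = p :=
    fun p hp => (hmem p hp).2.2
  choose! x hx using hch
  set s1 := s.filter (fun p => 1 / (q : ℝ) ≤ |logMult d m r (x p)|) with hs1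
  set s2 := s.filter (fun p => ¬ 1 / (q : ℝ) ≤ |logMult d m r (x p)|) with hs2
  have hcard : s.card = s1.card + s2.card := by
    rw [hs1, hs2, Finset.card_filter_add_card_filter_not]
  have hinj : Set.InjOn x (s1 : Set ℕ) := by
    intro p hp p' hp' hxx
    rw [← hx p (mem_filter.1 hp).1, ← hx p' (mem_filter.1 hp').1, hxx]
  have hcount1 : (s1.card : ℝ) ≤ K * (q : ℝ) ^ (1 - δ) := by
    rw [← Finset.card_image_of_injOn hinj]
    apply hK q hq
    · refine ⟨?_, ?_⟩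
      · intro y hy
        obtain ⟨p, hp, rfl⟩ := mem_image.1 hy
        have h5 := (mem_filter.1 hp).1
        rw [hx p h5]; exact (hmem p h5).1
      · intro y hy z hz hyz a' b' hab
        obtain ⟨p, hp, rfl⟩ := mem_image.1 hy
        obtain ⟨p', hp', rfl⟩ := mem_image.1 hz
        apply hyz
        have h5 := (mem_filter.1 hp).1
        have h6 := (mem_filter.1 hp').1
        have h7 : 1 ≤ Function.minimalPeriod (collatz d m r) (x p) := by
          rw [hx p h5]; exact (hmem p h5).1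
        have h8 : 1 ≤ Function.minimalPeriod (collatz d m r) (x p') := by
          rw [hx p' h6]; exact (hmem p' h6).1
        have h9 : p = p' := by
          rw [← hx p h5, ← hx p' h6, ← Function.minimalPeriod_apply_iterate (periodic_of h7) a',
            ← Function.minimalPeriod_apply_iterate (periodic_of h8) b', hab]
        rw [h9]
    · intro y hy
      obtain ⟨p, hp, rfl⟩ := mem_image.1 hy
      exact (mem_filter.1 hp).2
  have hcount2 : (s2.card : ℝ) ≤ ((P : ℝ) / q + 1) * (4 * (1 / q / |τ|) * q + 3) := by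
    apply blocks (θ := β / τ) (by positivity) hq hcop hqa' s2
    · intro p hp
      exact (hmem p (mem_filter.1 hp).1).2.1
    · intro p hp
      have h1 := (mem_filter.1 hp).1
      have h2 := (mem_filter.1 hp).2
      push Not at h2
      obtain ⟨e, he⟩ := logMult_theta hT hτ hkk (x p)
      rw [he, hx p h1] at h2
      refine ⟨e, ?_⟩
      rw [le_div_iff₀ hτ0]
      linarith
  rw [Set.ncard_eq_toFinset_card _ hfin, ← hs, hcard]
  push_cast
  have hq1δ : 1 ≤ (q : ℝ) ^ (1 - δ) := Real.one_le_rpow hq1 (by linarith)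
  have hPq : (P : ℝ) / q ≤ (q : ℝ) ^ (1 - δ) := by
    rw [div_le_iff₀ hq0]
    refine hPle.trans (le_of_eq ?_)
    rw [show (2 : ℝ) - δ = (1 - δ) + 1 by ring, Real.rpow_add hq0, Real.rpow_one]
  have e2 : ((P : ℝ) / q + 1) * (4 * (1 / q / |τ|) * q + 3) ≤ 2 * (4 / |τ| + 3) * (q : ℝ) ^ (1 - δ) := by
    have h5 : 4 * (1 / (q : ℝ) / |τ|) * q + 3 = 4 / |τ| + 3 := by field_simp
    rw [h5]
    have h6 : (0 : ℝ) ≤ 4 / |τ| + 3 := by positivity
    have h7 : (P : ℝ) / q + 1 ≤ 2 * (q : ℝ) ^ (1 - δ) := by linarith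
    calc ((P : ℝ) / q + 1) * (4 / |τ| + 3) ≤ (2 * (q : ℝ) ^ (1 - δ)) * (4 / |τ| + 3) := by gcongr
      _ = _ := by ring
  have hexp : (q : ℝ) ^ (1 - δ) ≤ 2 * (P : ℝ) ^ (1 / 2 - δ / (2 * (2 - δ))) := by
    have h5 : (1 / 2 - δ / (2 * (2 - δ)) : ℝ) = (1 - δ) / (2 - δ) := by field_simp; ring
    rw [h5]
    have h6 : (q : ℝ) ^ (1 - δ) = ((q : ℝ) ^ (2 - δ)) ^ ((1 - δ) / (2 - δ)) := by
      rw [← Real.rpow_mul hq0.le]
      congr 1
      field_simp
    have h7 : 0 ≤ (1 - δ) / (2 - δ) := div_nonneg (by linarith) h2δ.le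
    have h8 : (1 - δ) / (2 - δ) ≤ 1 := by
      rw [div_le_one h2δ]; linarith
    rw [h6]
    calc ((q : ℝ) ^ (2 - δ)) ^ ((1 - δ) / (2 - δ)) ≤ (2 * P) ^ ((1 - δ) / (2 - δ)) :=
          Real.rpow_le_rpow (by positivity) hPgt h7
      _ = (2 : ℝ) ^ ((1 - δ) / (2 - δ)) * (P : ℝ) ^ ((1 - δ) / (2 - δ)) :=
          Real.mul_rpow (by norm_num) hPpos.le
      _ ≤ 2 * (P : ℝ) ^ ((1 - δ) / (2 - δ)) := by
          gcongr
          calc (2 : ℝ) ^ ((1 - δ) / (2 - δ)) ≤ (2 : ℝ) ^ (1 : ℝ) :=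
                Real.rpow_le_rpow_of_exponent_le (by norm_num) h8
            _ = 2 := Real.rpow_one _
  have hKK : 0 ≤ K + 2 * (4 / |τ| + 3) := by positivity
  calc (s1.card : ℝ) + s2.card ≤ (K + 2 * (4 / |τ| + 3)) * (q : ℝ) ^ (1 - δ) := by
        have : (K + 2 * (4 / |τ| + 3)) * (q : ℝ) ^ (1 - δ) =
          K * (q : ℝ) ^ (1 - δ) + 2 * (4 / |τ| + 3) * (q : ℝ) ^ (1 - δ) := by ring
        linarith
    _ ≤ (K + 2 * (4 / |τ| + 3)) * (2 * (P : ℝ) ^ (1 / 2 - δ / (2 * (2 - δ)))) := by gcongr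
    _ = _ := by ring

end Pool.Agent.H91.CL
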