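import Pool.Agent.H91.CL.Main

/-!
MP_f2ed2a_nt: the periodic integers are sparse if `|∏ m_i| < d^d` or `∑ 1/|m_i| < 1`.
-/

namespace Pool.Agent.H91.CL

open Finset

variable {d : ℕ} {m r : ℕ → ℤ}

/-- class of the `j`-th iterate -/
def cl (d : ℕ) (m r : ℕ → ℤ) (x : ℤ) (j : ℕ) : ℕ := (((collatz d m r)^[j] x) % (d : ℤ)).toNat

/-- product of the multipliers over the first `n` steps -/
def pm (d : ℕ) (m r : ℕ → ℤ) (x : ℤ) (n : ℕ) : ℤ := ∏ j ∈ range n, m (cl d m r x j)

theorem cl_lt (hd : 2 ≤ d) (x : ℤ) (j : ℕ) : cl d m r x j < d := cls_lt hd _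

theorem iter_diff (hT : CoprimeType d m r) {x y : ℤ} {n : ℕ}
    (h : ∀ j < n, cl d m r x j = cl d m r y j) :
    (d : ℤ) ^ n * ((collatz d m r)^[n] x - (collatz d m r)^[n] y) = pm d m r x n * (x - y) := by
  induction n with
  | zero => simp [pm]
  | succ n ih =>
    have ih' := ih fun j hj => h j (by omega)
    have hx := mul_collatz hT ((collatz d m r)^[n] x)
    have hy := mul_collatz hT ((collatz d m r)^[n] y)
    have hc := h n (by omega)
    unfold cl at hc
    rw [← hc] at hy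
    rw [Function.iterate_succ_apply', Function.iterate_succ_apply']
    have h1 : (d : ℤ) ^ (n + 1) * (collatz d m r ((collatz d m r)^[n] x) -
        collatz d m r ((collatz d m r)^[n] y)) =
        (d : ℤ) ^ n * (d * collatz d m r ((collatz d m r)^[n] x) -
          d * collatz d m r ((collatz d m r)^[n] y)) := by ring
    rw [h1, hx, hy]
    have h2 : pm d m r x (n + 1) = pm d m r x n * m (((collatz d m r)^[n] x) % (d : ℤ)).toNat := by
      unfold pm; rw [Finset.prod_range_succ]; rfl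
    rw [h2]
    linear_combination (m (((collatz d m r)^[n] x) % (d : ℤ)).toNat) * ih'

theorem pm_coprime (hT : CoprimeType d m r) (x : ℤ) (n : ℕ) :
    IsCoprime (pm d m r x n) ((d : ℤ) ^ n) := by
  apply IsCoprime.pow_right
  unfold pm
  apply IsCoprime.prod_left
  intro j _
  have := m_cop hT (cl_lt (m := m) (r := r) hT.1 x j)
  rw [Int.isCoprime_iff_gcd_eq_one]
  simpa [Int.gcd, Nat.Coprime] using this

theorem cong_x (hT : CoprimeType d m r) {x y : ℤ} {n : ℕ}
    (h : ∀ j < n, cl d m r x j = cl d m r y j) : ((d ^ n : ℕ) : ℤ) ∣ x - y := by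
  have h1 := iter_diff hT h
  have h2 : (d : ℤ) ^ n ∣ pm d m r x n * (x - y) := ⟨_, h1.symm⟩
  push_cast
  exact (pm_coprime hT x n).symm.dvd_of_dvd_mul_left h2

theorem cong_T (hT : CoprimeType d m r) {x y : ℤ} {n : ℕ}
    (h : ∀ j < n, cl d m r x j = cl d m r y j) :
    pm d m r x n ∣ (collatz d m r)^[n] x - (collatz d m r)^[n] y := by
  have h1 := iter_diff hT h
  have h2 : pm d m r x n ∣ (d : ℤ) ^ n * ((collatz d m r)^[n] x - (collatz d m r)^[n] y) := ⟨_, h1⟩
  exact (pm_coprime hT x n).dvd_of_dvd_mul_left h2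

theorem card_cong {G : Finset ℤ} {X N : ℕ} (hN : 0 < N) (hG : ∀ x ∈ G, |x| ≤ (X : ℤ))
    (hc : ∀ x ∈ G, ∀ y ∈ G, (N : ℤ) ∣ x - y) : (G.card : ℝ) ≤ 2 * X / N + 1 := by
  rcases G.eq_empty_or_nonempty with h0 | hne
  · rw [h0]; simp; positivity
  set y0 := G.min' hne with hy0
  have hy0G : y0 ∈ G := G.min'_mem hne
  have hmaps : ∀ x ∈ G, ((x - y0) / N).toNat ∈ range (2 * X / N + 1) := by
    intro x hx
    have h1 := abs_le.1 (hG x hx)
    have h2 := abs_le.1 (hG y0 hy0G)
    have h3 : (x - y0) / (N : ℤ) ≤ (2 * X : ℤ) / N := Int.ediv_le_ediv (by exact_mod_cast hN) (by linarith)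
    rw [mem_range]
    have h4 : ((2 * X / N : ℕ) : ℤ) = (2 * X : ℤ) / N := by push_cast; rfl
    have h5 : ((x - y0) / (N : ℤ)).toNat ≤ 2 * X / N := by
      apply Int.toNat_le.2
      rw [h4]; exact h3
    exact Nat.lt_succ_of_le h5
  have hinj : Set.InjOn (fun x : ℤ => ((x - y0) / N).toNat) (G : Set ℤ) := by
    intro x hx y hy hxy
    have hNz : (0 : ℤ) < N := by exact_mod_cast hN
    have h1 : 0 ≤ (x - y0) / (N : ℤ) := Int.ediv_nonneg (by have := G.min'_le x hx; linarith) hNz.le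
    have h2 : 0 ≤ (y - y0) / (N : ℤ) := Int.ediv_nonneg (by have := G.min'_le y hy; linarith) hNz.le
    have h3 : (x - y0) / (N : ℤ) = (y - y0) / N := by
      simp only at hxy
      omega
    have h4 := Int.ediv_mul_cancel (hc x hx y0 hy0G)
    have h5 := Int.ediv_mul_cancel (hc y hy y0 hy0G)
    rw [h3] at h4
    linarith
  have hcard := Finset.card_le_card_of_injOn _ hmaps hinj
  rw [card_range] at hcard
  have h1 : (G.card : ℝ) ≤ ((2 * X / N : ℕ) : ℝ) + 1 := by exact_mod_cast hcard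
  have h2 : (((2 * X / N : ℕ)) : ℝ) ≤ ((2 * X : ℕ) : ℝ) / N := Nat.cast_div_le
  push_cast at h2
  linarith

/-- word of length `n` -/
def word (hd : 2 ≤ d) (m r : ℕ → ℤ) (n : ℕ) (x : ℤ) : Fin n → Fin d :=
  fun j => ⟨cl d m r x j, cl_lt hd x j⟩

theorem word_eq {hd : 2 ≤ d} {n : ℕ} {x y : ℤ} (h : word hd m r n x = word hd m r n y) :
    ∀ j < n, cl d m r x j = cl d m r y j := by
  intro j hj
  have := congrFun h ⟨j, hj⟩
  simpa [word] using this

theorem prod_word (hd : 2 ≤ d) {n : ℕ} {x : ℤ} (f : ℕ → ℝ) :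
    ∏ j : Fin n, f (word hd m r n x j) = ∏ j ∈ range n, f (cl d m r x j) := by
  rw [Finset.prod_range]; rfl

theorem sum_pow_eq (f : ℕ → ℝ) (n : ℕ) :
    ∑ v : Fin n → Fin d, ∏ j, f (v j) = (∑ i ∈ range d, f i) ^ n := by
  rw [Finset.sum_range, Fintype.sum_pow]

/-- counting with future words -/
theorem count_future (hT : CoprimeType d m r) {G : Finset ℤ} {X n : ℕ} {A : ℝ} (f : ℕ → ℝ)
    (hf : ∀ i, 0 ≤ f i) (hA : 0 ≤ A) (hG : ∀ x ∈ G, |x| ≤ (X : ℤ))
    (h1 : ∀ x ∈ G, 1 ≤ A * ∏ j ∈ range n, f (cl d m r x j)) :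
    (G.card : ℝ) ≤ (2 * X / (d : ℝ) ^ n + 1) * (A * (∑ i ∈ range d, f i) ^ n) := by
  classical
  have hd := hT.1
  have hcard : (G.card : ℝ) ≤ ∑ x ∈ G, A * ∏ j, f (word hd m r n x j) := by
    rw [Finset.card_eq_sum_ones]
    push_cast
    refine Finset.sum_le_sum fun x hx => ?_
    rw [prod_word hd f]; exact h1 x hx
  refine hcard.trans ?_
  rw [← Finset.sum_fiberwise_of_maps_to (g := word hd m r n) (t := Finset.univ) (fun x _ => mem_univ _)]
  rw [← sum_pow_eq, Finset.mul_sum, Finset.mul_sum]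
  refine Finset.sum_le_sum fun v _ => ?_
  have h2 : ∀ x ∈ G.filter (fun x => word hd m r n x = v), A * ∏ j, f (word hd m r n x j) =
      A * ∏ j, f (v j) := by
    intro x hx
    rw [(mem_filter.1 hx).2]
  rw [Finset.sum_congr rfl h2, Finset.sum_const, nsmul_eq_mul]
  have h3 : ((G.filter (fun x => word hd m r n x = v)).card : ℝ) ≤ 2 * X / (d : ℝ) ^ n + 1 := by
    have := card_cong (G := G.filter (fun x => word hd m r n x = v)) (X := X) (N := d ^ n)
      (by positivity) (fun x hx => hG x (mem_filter.1 hx).1) (fun x hx y hy => by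
        apply cong_x hT
        apply word_eq (hd := hd)
        rw [(mem_filter.1 hx).2, (mem_filter.1 hy).2])
    push_cast at this
    exact this
  apply mul_le_mul_of_nonneg_right h3
  exact mul_nonneg hA (Finset.prod_nonneg fun j _ => hf _)

/-- counting periodic integers with past words -/
theorem count_past (hT : CoprimeType d m r) {G : Finset ℤ} {X n : ℕ}
    (hG : ∀ x ∈ G, |x| ≤ (X : ℤ)) (hper : ∀ x ∈ G, x ∈ Function.periodicPts (collatz d m r)) :
    (G.card : ℝ) ≤ 2 * X * (∑ i ∈ range d, 1 / |(m i : ℝ)|) ^ n + (d : ℝ) ^ n := by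
  classical
  have hd := hT.1
  set T := collatz d m r with hTdef
  have hz : ∀ x ∈ G, ∃ z : ℤ, T^[n] z = x := by
    intro x hx
    set p := Function.minimalPeriod T x
    have hp : 1 ≤ p := Function.minimalPeriod_pos_iff_mem_periodicPts.2 (hper x hx)
    have hpn : Function.IsPeriodicPt T (n * p) x := (Function.isPeriodicPt_minimalPeriod T x).const_mul n
    refine ⟨T^[n * p - n] x, ?_⟩
    rw [← Function.iterate_add_apply]
    have : n + (n * p - n) = n * p := by
      have : n ≤ n * p := Nat.le_mul_of_pos_right n hp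
      omega
    rw [this]; exact hpn
  choose! z hz using hz
  have hcard : (G.card : ℝ) = ∑ v : Fin n → Fin d, ((G.filter (fun x => word hd m r n (z x) = v)).card : ℝ) := by
    have := Finset.card_eq_sum_card_fiberwise (f := fun x => word hd m r n (z x)) (s := G)
      (t := Finset.univ) (fun x _ => mem_univ _)
    rw [this]; push_cast; rfl
  rw [hcard]
  have hterm : ∀ v : Fin n → Fin d, ((G.filter (fun x => word hd m r n (z x) = v)).card : ℝ) ≤
      2 * X * ∏ j, 1 / |(m (v j) : ℝ)| + 1 := by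
    intro v
    set N : ℕ := (∏ j, m (v j)).natAbs with hN
    have hmv : ∀ j, m (v j) ≠ 0 := fun j => m_ne hT (v j).2
    have hNpos : 0 < N := Int.natAbs_pos.2 (Finset.prod_ne_zero_iff.2 fun j _ => hmv j)
    have hpmv : ∀ x ∈ G.filter (fun x => word hd m r n (z x) = v), pm d m r (z x) n = ∏ j, m (v j) := by
      intro x hx
      rw [← (mem_filter.1 hx).2]
      unfold pm
      rw [Finset.prod_range]; rfl
    have h := card_cong (G := G.filter (fun x => word hd m r n (z x) = v)) (X := X) (N := N)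
      hNpos (fun x hx => hG x (mem_filter.1 hx).1) (fun x hx y hy => by
        have h1 := cong_T hT (x := z x) (y := z y) (n := n) (word_eq (hd := hd) (by
          rw [(mem_filter.1 hx).2, (mem_filter.1 hy).2]))
        rw [hpmv x hx, ← hTdef, hz x (mem_filter.1 hx).1, hz y (mem_filter.1 hy).1] at h1
        rw [hN, Int.natAbs_dvd]
        exact h1)
    have hNR : (N : ℝ) = ∏ j, |(m (v j) : ℝ)| := by
      rw [hN, Nat.cast_natAbs]; push_cast; rw [Finset.abs_prod]
    rw [hNR] at h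
    have h2 : 2 * (X : ℝ) / ∏ j, |(m (v j) : ℝ)| = 2 * X * ∏ j, 1 / |(m (v j) : ℝ)| := by
      rw [Finset.prod_div_distrib]; simp; ring
    rw [h2] at h
    exact h
  refine (Finset.sum_le_sum fun v _ => hterm v).trans (le_of_eq ?_)
  rw [Finset.sum_add_distrib, ← Finset.mul_sum, sum_pow_eq (fun i => 1 / |(m i : ℝ)|)]
  simp

end Pool.Agent.H91.CL
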