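import Pool.Agent.H91.CL.Sp

/-!
MP_f2ed2a_nt: power saving for the number of periodic integers.
-/

namespace Pool.Agent.H91.CL

open Finset

variable {d : ℕ} {m r : ℕ → ℤ}

theorem sparse_past (hT : CoprimeType d m r) (hs : ∑ i ∈ range d, 1 / |(m i : ℝ)| < 1) :
    ∃ δ : ℝ, 0 < δ ∧ δ ≤ 1 / 2 ∧ ∃ K : ℝ, 0 ≤ K ∧ ∀ X : ℕ, 1 ≤ X → ∀ G : Finset ℤ,
      (∀ x ∈ G, |x| ≤ (X : ℤ)) → (∀ x ∈ G, x ∈ Function.periodicPts (collatz d m r)) →
      (G.card : ℝ) ≤ K * (X : ℝ) ^ (1 - δ) := by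
  have hd := hT.1
  have hd2 : (2 : ℝ) ≤ d := by exact_mod_cast hd
  have hd0 : (0 : ℝ) < d := by linarith
  set κ : ℝ := ∑ i ∈ range d, 1 / |(m i : ℝ)| with hκ
  have hκ0 : 0 < κ := by
    apply Finset.sum_pos
    · intro i hi
      have := m_ne hT (mem_range.1 hi)
      have h : (m i : ℝ) ≠ 0 := by exact_mod_cast this
      positivity
    · exact ⟨0, mem_range.2 (by omega)⟩
  have hlogd : 0 < Real.log d := Real.log_pos (by linarith)
  set ξ : ℝ := -Real.log κ / Real.log d with hξ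
  have hξ0 : 0 < ξ := div_pos (neg_pos.2 (Real.log_neg hκ0 hs)) hlogd
  have hκd : κ = (d : ℝ) ^ (-ξ) := by
    rw [Real.rpow_def_of_pos hd0, hξ]
    have : Real.log d * -(-Real.log κ / Real.log d) = Real.log κ := by field_simp
    rw [this, Real.exp_log hκ0]
  refine ⟨min (ξ / 2) (1 / 2), lt_min (by linarith) (by norm_num), min_le_right _ _,
    2 * (d : ℝ) ^ ξ + 1, by positivity, fun X hX G hG hper => ?_⟩
  have hX1 : (1 : ℝ) ≤ X := by exact_mod_cast hX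
  set n := Nat.log d (Nat.sqrt X) with hn
  have hsq : Nat.sqrt X ≠ 0 := by
    have : 0 < Nat.sqrt X := Nat.sqrt_pos.2 hX
    omega
  have h1 : (d : ℝ) ^ n ≤ (X : ℝ) ^ (1 / 2 : ℝ) := by
    have ha : d ^ n ≤ Nat.sqrt X := Nat.pow_log_le_self d hsq
    have hb : ((d ^ n : ℕ) : ℝ) ≤ (Nat.sqrt X : ℝ) := by exact_mod_cast ha
    push_cast at hb
    rw [← Real.sqrt_eq_rpow]
    exact hb.trans Real.nat_sqrt_le_real_sqrt
  have h2 : (X : ℝ) ^ (1 / 2 : ℝ) ≤ (d : ℝ) ^ (n + 1) := by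
    have ha : Nat.sqrt X + 1 ≤ d ^ (n + 1) := Nat.lt_pow_succ_log_self (by omega) _
    have hb : ((Nat.sqrt X : ℝ) + 1) ≤ ((d ^ (n + 1) : ℕ) : ℝ) := by exact_mod_cast ha
    push_cast at hb
    rw [← Real.sqrt_eq_rpow]
    exact Real.real_sqrt_le_nat_sqrt_succ.trans hb
  have h3 : κ ^ n ≤ (d : ℝ) ^ ξ * (X : ℝ) ^ (-(ξ / 2)) := by
    have ha : κ ^ n = (d : ℝ) ^ ξ * (((d : ℝ) ^ (n + 1)) ^ (-ξ)) := by
      rw [hκd, ← Real.rpow_natCast ((d : ℝ) ^ (-ξ)) n, ← Real.rpow_mul hd0.le,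
        ← Real.rpow_natCast (d : ℝ) (n + 1), ← Real.rpow_mul hd0.le, ← Real.rpow_add hd0]
      congr 1; push_cast; ring
    rw [ha]
    refine mul_le_mul_of_nonneg_left ?_ (by positivity)
    have hb : (X : ℝ) ^ (-(ξ / 2)) = ((X : ℝ) ^ (1 / 2 : ℝ)) ^ (-ξ) := by
      rw [← Real.rpow_mul (by linarith)]; congr 1; ring
    rw [hb]
    exact Real.rpow_le_rpow_of_nonpos (by positivity) h2 (by linarith)
  have h4 := count_past hT (n := n) hG hper
  have h5 : (X : ℝ) * κ ^ n ≤ (d : ℝ) ^ ξ * (X : ℝ) ^ (1 - min (ξ / 2) (1 / 2)) := by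
    calc (X : ℝ) * κ ^ n ≤ X * ((d : ℝ) ^ ξ * (X : ℝ) ^ (-(ξ / 2))) := by gcongr
      _ = (d : ℝ) ^ ξ * (X : ℝ) ^ (1 - ξ / 2) := by
        rw [show (1 : ℝ) - ξ / 2 = 1 + -(ξ / 2) by ring, Real.rpow_add (by linarith), Real.rpow_one]
        ring
      _ ≤ _ := by
        refine mul_le_mul_of_nonneg_left ?_ (by positivity)
        apply Real.rpow_le_rpow_of_exponent_le hX1
        have := min_le_left (ξ / 2) (1 / 2)
        linarith
  have h6 : (X : ℝ) ^ (1 / 2 : ℝ) ≤ (X : ℝ) ^ (1 - min (ξ / 2) (1 / 2)) := by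
    apply Real.rpow_le_rpow_of_exponent_le hX1
    have := min_le_right (ξ / 2) (1 / 2)
    linarith
  calc (G.card : ℝ) ≤ 2 * X * κ ^ n + (d : ℝ) ^ n := h4
    _ = 2 * (X * κ ^ n) + (d : ℝ) ^ n := by ring
    _ ≤ 2 * ((d : ℝ) ^ ξ * (X : ℝ) ^ (1 - min (ξ / 2) (1 / 2))) +
        (X : ℝ) ^ (1 - min (ξ / 2) (1 / 2)) := by linarith
    _ = _ := by ring

/-- a subcritical exponent -/
theorem exists_s {a : ℕ → ℝ} (ha : ∀ i ∈ range d, 0 < a i)
    (hlog : ∑ i ∈ range d, Real.log (a i) < 0) :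
    ∃ s : ℝ, 0 < s ∧ s ≤ 1 ∧ ∑ i ∈ range d, (a i) ^ s < d := by
  set M : ℝ := ∑ i ∈ range d, |Real.log (a i)| + 1 with hM
  set Q : ℝ := ∑ i ∈ range d, Real.log (a i) ^ 2 with hQ
  set S : ℝ := ∑ i ∈ range d, Real.log (a i) with hS
  have hM1 : 1 ≤ M := by
    have : 0 ≤ ∑ i ∈ range d, |Real.log (a i)| := Finset.sum_nonneg fun _ _ => abs_nonneg _
    linarith
  have hQ0 : 0 ≤ Q := Finset.sum_nonneg fun _ _ => sq_nonneg _
  set s : ℝ := min (1 / M) (-S / (2 * (Q + 1))) with hs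
  have hs0 : 0 < s := lt_min (by positivity) (div_pos (by linarith) (by positivity))
  have hsM : s ≤ 1 / M := min_le_left _ _
  have hs1 : s ≤ 1 := hsM.trans (by rw [div_le_one (by linarith)]; exact hM1)
  have hsQ : s * (2 * (Q + 1)) ≤ -S := by
    rw [← le_div_iff₀ (by positivity)]; exact min_le_right _ _
  refine ⟨s, hs0, hs1, ?_⟩
  have hterm : ∀ i ∈ range d, (a i) ^ s ≤ 1 + s * Real.log (a i) + s ^ 2 * Real.log (a i) ^ 2 := by
    intro i hi
    have h1 : |Real.log (a i)| ≤ M := by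
      have : |Real.log (a i)| ≤ ∑ i ∈ range d, |Real.log (a i)| :=
        Finset.single_le_sum (f := fun i => |Real.log (a i)|) (fun _ _ => abs_nonneg _) hi
      linarith
    have h2 : |s * Real.log (a i)| ≤ 1 := by
      rw [abs_mul, abs_of_pos hs0]
      calc s * |Real.log (a i)| ≤ (1 / M) * M := by gcongr
        _ = 1 := by field_simp
    have h3 := Real.abs_exp_sub_one_sub_id_le h2
    have h4 := (abs_le.1 h3).2
    rw [Real.rpow_def_of_pos (ha i hi), mul_comm (Real.log (a i)) s]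
    have h5 : (s * Real.log (a i)) ^ 2 = s ^ 2 * Real.log (a i) ^ 2 := by ring
    rw [h5] at h4
    linarith
  refine (Finset.sum_le_sum hterm).trans_lt ?_
  rw [Finset.sum_add_distrib, Finset.sum_add_distrib, ← Finset.mul_sum, ← Finset.mul_sum]
  simp only [Finset.sum_const, card_range, nsmul_eq_mul, mul_one]
  rw [← hS, ← hQ]
  have : s * S + s ^ 2 * Q < 0 := by
    have h6 : S + s * Q < 0 := by nlinarith
    nlinarith
  linarith

theorem seg_bound (hT : CoprimeType d m r) {R : ℝ} (hR : ∀ i < d, |(r i : ℝ)| ≤ R) (hR1 : 1 ≤ R)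
    {x : ℤ} {n : ℕ} (hx : ∀ j < n, 2 * R ≤ |(((collatz d m r)^[j] x : ℤ) : ℝ)|) :
    |Real.log |(((collatz d m r)^[n] x : ℤ) : ℝ)| - Real.log |(x : ℝ)| -
      ∑ j ∈ range n, wt d m ((collatz d m r)^[j] x)| ≤
      ∑ j ∈ range n, 2 * R / |(((collatz d m r)^[j] x : ℤ) : ℝ)| := by
  set T := collatz d m r with hTdef
  have htel : ∑ j ∈ range n, (Real.log |((T^[j + 1] x : ℤ) : ℝ)| - Real.log |((T^[j] x : ℤ) : ℝ)|) =
      Real.log |((T^[n] x : ℤ) : ℝ)| - Real.log |(x : ℝ)| := by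
    rw [Finset.sum_range_sub (fun n => Real.log |((T^[n] x : ℤ) : ℝ)|)]
    simp
  rw [← htel, ← Finset.sum_sub_distrib]
  refine (Finset.abs_sum_le_sum_abs _ _).trans (Finset.sum_le_sum fun j hj => ?_)
  have hj' := mem_range.1 hj
  rw [Function.iterate_succ_apply']
  exact step hT hR hR1 (hx j hj')

theorem sparse_future (hT : CoprimeType d m r)
    (hs : |(∏ i ∈ range d, m i : ℤ)| < (d : ℤ) ^ d) :
    ∃ δ : ℝ, 0 < δ ∧ δ ≤ 1 / 2 ∧ ∃ K : ℝ, 0 ≤ K ∧ ∀ X : ℕ, 1 ≤ X → ∀ G : Finset ℤ,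
      (∀ x ∈ G, |x| ≤ (X : ℤ)) → (∀ x ∈ G, x ∈ Function.periodicPts (collatz d m r)) →
      (G.card : ℝ) ≤ K * (X : ℝ) ^ (1 - δ) := by
  classical
  have hd := hT.1
  have hd2 : (2 : ℝ) ≤ d := by exact_mod_cast hd
  have hd0 : (0 : ℝ) < d := by linarith
  have hlogd : 0 < Real.log d := Real.log_pos (by linarith)
  obtain ⟨R, hR1, hR⟩ := exists_R d r
  have hR1' : (1 : ℝ) ≤ R := by exact_mod_cast hR1
  have hmpos : ∀ i ∈ range d, 0 < |(m i : ℝ)| / d := by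
    intro i hi
    have h : (m i : ℝ) ≠ 0 := by exact_mod_cast m_ne hT (mem_range.1 hi)
    positivity
  have hlogsum : ∑ i ∈ range d, Real.log (|(m i : ℝ)| / d) < 0 := by
    rw [← Real.log_prod (fun i hi => (hmpos i hi).ne'), Finset.prod_div_distrib, ← Finset.abs_prod]
    apply Real.log_neg
    · have h0 : 0 < |∏ i ∈ range d, (m i : ℝ)| := by
        rw [Finset.abs_prod]
        apply Finset.prod_pos
        intro i hi
        have h : (m i : ℝ) ≠ 0 := by exact_mod_cast m_ne hT (mem_range.1 hi)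
        exact abs_pos.2 h
      have h1 : 0 < ∏ _i ∈ range d, (d : ℝ) := Finset.prod_pos fun _ _ => hd0
      exact div_pos h0 h1
    · have h1 : |∏ i ∈ range d, (m i : ℝ)| < (d : ℝ) ^ d := by exact_mod_cast hs
      simp only [Finset.prod_const, card_range]
      rw [div_lt_one (by positivity)]; exact h1
  obtain ⟨s, hs0, hs1, hφ⟩ := exists_s hmpos hlogsum
  set φ : ℝ := ∑ i ∈ range d, (|(m i : ℝ)| / d) ^ s with hφdef
  have hφ0 : 0 < φ := Finset.sum_pos (fun i hi => Real.rpow_pos_of_pos (hmpos i hi) _)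
    ⟨0, mem_range.2 (by omega)⟩
  set η : ℝ := min (1 / 2) (Real.log (d / φ) / Real.log d) with hη
  have hη0 : 0 < η := lt_min (by norm_num) (div_pos (Real.log_pos (by rw [one_lt_div hφ0]; exact hφ)) hlogd)
  have hη2 : η ≤ 1 / 2 := min_le_left _ _
  have hφη : φ / d ≤ (d : ℝ) ^ (-η) := by
    rw [Real.rpow_def_of_pos hd0]
    have h1 : η * Real.log d ≤ Real.log (d / φ) := by
      rw [← le_div_iff₀ hlogd]; exact min_le_right _ _
    rw [← Real.exp_log (show (0 : ℝ) < φ / d by positivity)]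
    apply Real.exp_le_exp.2
    rw [Real.log_div hφ0.ne' hd0.ne']
    rw [Real.log_div hd0.ne' hφ0.ne'] at h1
    linarith
  set δ : ℝ := η / 2 with hδ
  have hδ0 : 0 < δ := by positivity
  have hδ4 : δ ≤ 1 / 4 := by linarith
  set X0 : ℕ := (16 * R) ^ 4 with hX0
  set K : ℝ := (3 * (4 / δ + 1) + 3 * Real.exp 1 * d) + (2 * X0 + 1) with hK
  have hK0 : 0 ≤ K := by positivity
  refine ⟨δ / 2, by positivity, by linarith, K, hK0, fun X hX G hG hper => ?_⟩
  have hX1 : (1 : ℝ) ≤ X := by exact_mod_cast hX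
  have hXpos : (0 : ℝ) < X := by linarith
  have hXδ : 1 ≤ (X : ℝ) ^ (1 - δ / 2) := Real.one_le_rpow hX1 (by linarith)
  rcases lt_or_ge X X0 with hsmall | hlarge
  · -- trivial bound
    have h1 : G.card ≤ 2 * X + 1 := by
      have hsub : G ⊆ Finset.Icc (-(X : ℤ)) X := fun x hx => Finset.mem_Icc.2 (abs_le.1 (hG x hx))
      have := Finset.card_le_card hsub
      rw [Int.card_Icc] at this
      omega
    have h2 : (G.card : ℝ) ≤ 2 * X + 1 := by exact_mod_cast h1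
    have h3 : (X : ℝ) ≤ X0 := by exact_mod_cast hsmall.le
    have h4 : (0 : ℝ) ≤ 3 * (4 / δ + 1) + 3 * Real.exp 1 * d := by positivity
    have h5 : (2 * (X0 : ℝ) + 1) ≤ K := by rw [hK]; linarith
    nlinarith
  -- large X
  set n := Nat.log d X with hn
  have hdn : (d : ℝ) ^ n ≤ X := by
    have : d ^ n ≤ X := Nat.pow_log_le_self d (by omega)
    exact_mod_cast this
  have hdn1 : (X : ℝ) ≤ (d : ℝ) ^ (n + 1) := by
    have : X < d ^ (n + 1) := Nat.lt_pow_succ_log_self (by omega) _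
    exact_mod_cast this.le
  have hnlog : (n : ℝ) ≤ 2 * Real.log X := by
    have h1 := Real.log_le_log (by positivity) hdn
    rw [Real.log_pow] at h1
    have h2 : Real.log 2 ≤ Real.log d := Real.log_le_log (by norm_num) hd2
    have h3 := Real.log_two_gt_d9
    have h4 : (0 : ℝ) ≤ n := Nat.cast_nonneg n
    nlinarith
  set Y : ℝ := (X : ℝ) ^ (1 - δ) with hY
  have hX4 : (16 * R : ℝ) ≤ (X : ℝ) ^ ((1 : ℝ) / 4) := by
    have h1 : ((16 * R : ℝ)) ^ 4 ≤ X := by exact_mod_cast hlarge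
    have h2 : (16 * (R : ℝ)) = (((16 * R : ℝ)) ^ 4) ^ ((1 : ℝ) / 4) := by
      rw [← Real.rpow_natCast, ← Real.rpow_mul (by positivity)]; norm_num
    rw [h2]
    exact Real.rpow_le_rpow (by positivity) h1 (by norm_num)
  have hXhalf : (X : ℝ) ^ ((1 : ℝ) / 4) * (X : ℝ) ^ ((1 : ℝ) / 4) ≤ Y := by
    rw [← Real.rpow_add hXpos]
    apply Real.rpow_le_rpow_of_exponent_le hX1
    linarith
  have hq1 : 1 ≤ (X : ℝ) ^ ((1 : ℝ) / 4) := Real.one_le_rpow hX1 (by norm_num)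
  have hY2R : 2 * (R : ℝ) ≤ Y := by nlinarith
  have hY1 : 1 ≤ Y := by linarith
  have hlogX4 : Real.log X ≤ 4 * (X : ℝ) ^ ((1 : ℝ) / 4) := by
    have := Real.log_le_rpow_div (x := (X : ℝ)) (by linarith) (show (0 : ℝ) < 1 / 4 by norm_num)
    linarith
  have hnY : 2 * R * (n : ℝ) / Y ≤ 1 := by
    rw [div_le_one (by linarith)]
    have h1 : 2 * R * (n : ℝ) ≤ 2 * R * (2 * (4 * (X : ℝ) ^ ((1 : ℝ) / 4))) := by
      have : (n : ℝ) ≤ 2 * (4 * (X : ℝ) ^ ((1 : ℝ) / 4)) := by linarith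
      gcongr
    have h2 : 2 * R * (2 * (4 * (X : ℝ) ^ ((1 : ℝ) / 4))) = (16 * R) * (X : ℝ) ^ ((1 : ℝ) / 4) := by ring
    have h3 : (16 * R) * (X : ℝ) ^ ((1 : ℝ) / 4) ≤ (X : ℝ) ^ ((1 : ℝ) / 4) * (X : ℝ) ^ ((1 : ℝ) / 4) := by
      gcongr
    linarith
  set T := collatz d m r with hTdef
  set Gg := G.filter (fun x => ∃ j ≤ n, |((T^[j] x : ℤ) : ℝ)| ≤ Y) with hGg
  set Gb := G.filter (fun x => ¬ ∃ j ≤ n, |((T^[j] x : ℤ) : ℝ)| ≤ Y) with hGb
  have hcard : G.card = Gg.card + Gb.card := by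
    rw [hGg, hGb, Finset.card_filter_add_card_filter_not]
  -- good
  have hgood : (Gg.card : ℝ) ≤ (n + 1) * (3 * Y) := by
    have hsub : Gg ⊆ (range (n + 1)).biUnion (fun j => G.filter (fun x => |((T^[j] x : ℤ) : ℝ)| ≤ Y)) := by
      intro x hx
      obtain ⟨hx1, j, hj, hjY⟩ := mem_filter.1 hx
      rw [mem_biUnion]
      exact ⟨j, mem_range.2 (by omega), mem_filter.2 ⟨hx1, hjY⟩⟩
    have h1 : ∀ j ∈ range (n + 1), (G.filter (fun x => |((T^[j] x : ℤ) : ℝ)| ≤ Y)).card ≤ 2 * ⌊Y⌋₊ + 1 := by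
      intro j _
      have hmaps : ∀ x ∈ G.filter (fun x => |((T^[j] x : ℤ) : ℝ)| ≤ Y), T^[j] x ∈
          Finset.Icc (-(⌊Y⌋₊ : ℤ)) ⌊Y⌋₊ := by
        intro x hx
        have h2 := (mem_filter.1 hx).2
        have h3 : (T^[j] x).natAbs ≤ ⌊Y⌋₊ := by
          apply Nat.le_floor
          rw [Nat.cast_natAbs]; push_cast; exact h2
        rw [Finset.mem_Icc]; omega
      have hinj : Set.InjOn (fun x => T^[j] x) ((G.filter (fun x => |((T^[j] x : ℤ) : ℝ)| ≤ Y) : Finset ℤ) : Set ℤ) := by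
        have hb := ((Function.bijOn_periodicPts (f := T)).iterate j).injOn
        apply hb.mono
        intro x hx
        exact hper x (mem_filter.1 hx).1
      have := Finset.card_le_card_of_injOn _ hmaps hinj
      rw [Int.card_Icc] at this
      omega
    have h2 := (Finset.card_le_card hsub).trans (Finset.card_biUnion_le_card_mul _ _ _ h1)
    rw [card_range] at h2
    have h3 : (Gg.card : ℝ) ≤ (n + 1) * (2 * ⌊Y⌋₊ + 1) := by exact_mod_cast h2
    have h4 : ((⌊Y⌋₊ : ℕ) : ℝ) ≤ Y := Nat.floor_le (by linarith)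
    refine h3.trans ?_
    have h5 : (0 : ℝ) ≤ n + 1 := by positivity
    apply mul_le_mul_of_nonneg_left _ h5
    linarith
  -- bad
  set A : ℝ := Real.exp (s * (1 + δ * Real.log X)) with hA
  have hAle : A ≤ Real.exp 1 * (X : ℝ) ^ δ := by
    have h1 : Real.exp 1 * (X : ℝ) ^ δ = Real.exp (1 + δ * Real.log X) := by
      rw [Real.rpow_def_of_pos hXpos, ← Real.exp_add]; congr 1; ring
    rw [h1, hA]
    apply Real.exp_le_exp.2
    have : 0 ≤ 1 + δ * Real.log X := by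
      have := Real.log_nonneg hX1
      positivity
    nlinarith
  have hbad : (Gb.card : ℝ) ≤ 3 * Real.exp 1 * d * (X : ℝ) ^ (1 - δ) := by
    have h1 : ∀ x ∈ Gb, 1 ≤ A * ∏ j ∈ range n, (fun i => (|(m i : ℝ)| / d) ^ s) (cl d m r x j) := by
      intro x hx
      obtain ⟨hxG, hxb⟩ := mem_filter.1 hx
      push Not at hxb
      have hlargeT : ∀ j < n, 2 * (R : ℝ) ≤ |((T^[j] x : ℤ) : ℝ)| := fun j hj => by
        have := hxb j hj.le
        linarith
      have hseg := seg_bound hT hR hR1' hlargeT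
      have hsum : ∑ j ∈ range n, 2 * (R : ℝ) / |((T^[j] x : ℤ) : ℝ)| ≤ 1 := by
        have h2 : ∀ j ∈ range n, 2 * (R : ℝ) / |((T^[j] x : ℤ) : ℝ)| ≤ 2 * R / Y := by
          intro j hj
          have := hxb j (mem_range.1 hj).le
          gcongr
        have h3 := Finset.sum_le_card_nsmul _ _ _ h2
        rw [card_range, nsmul_eq_mul] at h3
        have h4 : (n : ℝ) * (2 * R / Y) = 2 * R * n / Y := by ring
        rw [h4] at h3
        linarith
      have hTn := hxb n le_rfl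
      have hlogTn : Real.log Y ≤ Real.log |((T^[n] x : ℤ) : ℝ)| := Real.log_le_log (by linarith) hTn.le
      have hlogY : Real.log Y = (1 - δ) * Real.log X := by rw [hY, Real.log_rpow hXpos]
      have hx0 := hxb 0 (Nat.zero_le _)
      simp only [Function.iterate_zero, id_eq] at hx0
      have hlogx : Real.log |(x : ℝ)| ≤ Real.log X := by
        apply Real.log_le_log (by linarith)
        have := hG x hxG
        exact_mod_cast this
      have hw : -(1 + δ * Real.log X) ≤ ∑ j ∈ range n, wt d m (T^[j] x) := by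
        have := (abs_le.1 hseg).2
        have h5 : Real.log |((T^[n] x : ℤ) : ℝ)| - Real.log |(x : ℝ)| -
          ∑ j ∈ range n, wt d m (T^[j] x) ≤ 1 := by linarith
        rw [hlogY] at hlogTn
        linarith
      have hprod : ∏ j ∈ range n, (fun i => (|(m i : ℝ)| / d) ^ s) (cl d m r x j) =
          Real.exp (s * ∑ j ∈ range n, wt d m (T^[j] x)) := by
        rw [Finset.mul_sum, Real.exp_sum]
        refine Finset.prod_congr rfl fun j _ => ?_
        have hpos := hmpos (cl d m r x j) (mem_range.2 (cl_lt hd x j))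
        change (|(m (cl d m r x j) : ℝ)| / d) ^ s = _
        rw [Real.rpow_def_of_pos hpos, mul_comm]
        rfl
      rw [hprod, hA, ← Real.exp_add]
      apply Real.one_le_exp
      have : s * (1 + δ * Real.log X) + s * ∑ j ∈ range n, wt d m (T^[j] x) =
          s * ((1 + δ * Real.log X) + ∑ j ∈ range n, wt d m (T^[j] x)) := by ring
      rw [this]
      apply mul_nonneg hs0.le
      linarith
    have h2 := count_future hT (n := n) (A := A) (fun i => (|(m i : ℝ)| / d) ^ s)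
      (fun i => by positivity) (by positivity) (fun x hx => hG x (mem_filter.1 hx).1) h1
    change (Gb.card : ℝ) ≤ (2 * X / (d : ℝ) ^ n + 1) * (A * φ ^ n) at h2
    have h3 : 2 * (X : ℝ) / (d : ℝ) ^ n + 1 ≤ 3 * X / (d : ℝ) ^ n := by
      have : 1 ≤ (X : ℝ) / (d : ℝ) ^ n := by rw [one_le_div (by positivity)]; exact hdn
      have h4 : 3 * (X : ℝ) / (d : ℝ) ^ n = 2 * X / (d : ℝ) ^ n + X / (d : ℝ) ^ n := by ring
      linarith
    have h5 : (φ / d) ^ n ≤ d * (X : ℝ) ^ (-η) := by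
      calc (φ / d) ^ n ≤ ((d : ℝ) ^ (-η)) ^ n := by gcongr
        _ = (d : ℝ) ^ η * ((d : ℝ) ^ (n + 1)) ^ (-η) := by
          rw [← Real.rpow_natCast ((d : ℝ) ^ (-η)) n, ← Real.rpow_mul hd0.le,
            ← Real.rpow_natCast (d : ℝ) (n + 1), ← Real.rpow_mul hd0.le, ← Real.rpow_add hd0]
          congr 1; push_cast; ring
        _ ≤ d * (X : ℝ) ^ (-η) := by
          have h6 : (d : ℝ) ^ η ≤ d := by
            calc (d : ℝ) ^ η ≤ (d : ℝ) ^ (1 : ℝ) :=
                  Real.rpow_le_rpow_of_exponent_le (by linarith) (by linarith)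
              _ = d := Real.rpow_one _
          have h7 : ((d : ℝ) ^ (n + 1)) ^ (-η) ≤ (X : ℝ) ^ (-η) :=
            Real.rpow_le_rpow_of_nonpos hXpos hdn1 (by linarith)
          gcongr
    calc (Gb.card : ℝ) ≤ (2 * X / (d : ℝ) ^ n + 1) * (A * φ ^ n) := h2
      _ ≤ (3 * X / (d : ℝ) ^ n) * (A * φ ^ n) := by gcongr
      _ = 3 * X * A * (φ / d) ^ n := by rw [div_pow]; ring
      _ ≤ 3 * X * (Real.exp 1 * (X : ℝ) ^ δ) * (d * (X : ℝ) ^ (-η)) := by gcongr
      _ = 3 * Real.exp 1 * d * (X : ℝ) ^ (1 - δ) := by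
        have h8 : (X : ℝ) ^ (1 - δ) = X * (X : ℝ) ^ δ * (X : ℝ) ^ (-η) := by
          rw [show (1 : ℝ) - δ = 1 + δ + -η by rw [hδ]; ring, Real.rpow_add hXpos,
            Real.rpow_add hXpos, Real.rpow_one]
        rw [h8]; ring
  have hlogXδ : Real.log X ≤ (2 / δ) * (X : ℝ) ^ (δ / 2) := by
    have := Real.log_le_rpow_div (x := (X : ℝ)) (by linarith) (show (0 : ℝ) < δ / 2 by positivity)
    calc Real.log X ≤ (X : ℝ) ^ (δ / 2) / (δ / 2) := this
      _ = (2 / δ) * (X : ℝ) ^ (δ / 2) := by field_simp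
  have hXd2 : 1 ≤ (X : ℝ) ^ (δ / 2) := Real.one_le_rpow hX1 (by positivity)
  have hcomb : (X : ℝ) ^ (1 - δ / 2) = (X : ℝ) ^ (δ / 2) * Y := by
    rw [hY, ← Real.rpow_add hXpos]; congr 1; ring
  have hg2 : (n + 1) * (3 * Y) ≤ 3 * (4 / δ + 1) * (X : ℝ) ^ (1 - δ / 2) := by
    have h1 : (n : ℝ) + 1 ≤ (4 / δ + 1) * (X : ℝ) ^ (δ / 2) := by
      have h2 : (n : ℝ) ≤ 2 * ((2 / δ) * (X : ℝ) ^ (δ / 2)) := by linarith
      have h3 : (4 / δ + 1) * (X : ℝ) ^ (δ / 2) = 2 * ((2 / δ) * (X : ℝ) ^ (δ / 2)) + (X : ℝ) ^ (δ / 2) := by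
        ring
      linarith
    rw [hcomb]
    calc (n + 1) * (3 * Y) ≤ ((4 / δ + 1) * (X : ℝ) ^ (δ / 2)) * (3 * Y) := by gcongr
      _ = _ := by ring
  have hb2 : 3 * Real.exp 1 * d * (X : ℝ) ^ (1 - δ) ≤ 3 * Real.exp 1 * d * (X : ℝ) ^ (1 - δ / 2) := by
    have : (X : ℝ) ^ (1 - δ) ≤ (X : ℝ) ^ (1 - δ / 2) :=
      Real.rpow_le_rpow_of_exponent_le hX1 (by linarith)
    gcongr
  rw [hcard]
  push_cast
  have h9 : (0 : ℝ) ≤ (2 * X0 + 1) * (X : ℝ) ^ (1 - δ / 2) := by positivity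
  rw [hK, add_mul, add_mul]
  linarith

end Pool.Agent.H91.CL
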